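import Mathlib

/-!
# Trees: rooted description, and few trees have a vertex of large degree (module T)
-/

set_option autoImplicit false

open scoped BigOperators Nat

namespace Pool.Agent.WT

namespace Trees

variable {V : Type}

/-- parent functions with root `v` -/
def PF (v : V) : Set (V → V) := {p | p v = v ∧ ∀ u, ∃ m, p^[m] u = v}

/-- the graph of a parent function -/
def pGraph (p : V → V) : SimpleGraph V := SimpleGraph.fromRel fun a b => p a = b

theorem pGraph_adj (p : V → V) (a b : V) :
    (pGraph p).Adj a b ↔ a ≠ b ∧ (p a = b ∨ p b = a) := SimpleGraph.fromRel_adj _ _ _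

theorem iterate_root {p : V → V} {v : V} (h : p v = v) (m : ℕ) : p^[m] v = v :=
  Function.iterate_fixed h m

/-- the root is the only periodic point of period one or two -/
theorem eq_root_of_two {p : V → V} {v : V} (hp : p ∈ PF v) (u : V) (h : p (p u) = u) : u = v := by
  obtain ⟨m, hm⟩ := hp.2 u
  have h1 : p^[2] u = u := h
  have h2 : p^[2 * m] u = u := by
    rw [Function.iterate_mul]
    exact Function.iterate_fixed h1 m
  have h3 : p^[2 * m] u = v := by
    have h4 : 2 * m = m + m := by ring
    rw [h4, Function.iterate_add_apply, hm, iterate_root hp.1]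
  exact h2.symm.trans h3

theorem ne_parent {p : V → V} {v : V} (hp : p ∈ PF v) (u : V) (hu : u ≠ v) : u ≠ p u := by
  intro h
  apply hu
  apply eq_root_of_two hp
  rw [← h, ← h]

theorem reachable_root {p : V → V} {v : V} (G : SimpleGraph V)
    (hG : ∀ u, u ≠ v → G.Adj u (p u)) (m : ℕ) : ∀ u, p^[m] u = v → G.Reachable u v := by
  induction m with
  | zero =>
    intro u hu
    rw [Function.iterate_zero_apply] at hu
    rw [hu]
  | succ m ih =>
    intro u hu
    by_cases h : u = v
    · rw [h]
    · rw [Function.iterate_succ_apply] at hu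
      exact (hG u h).reachable.trans (ih (p u) hu)

theorem adj_parent {p : V → V} {v : V} (hp : p ∈ PF v) (u : V) (hu : u ≠ v) :
    (pGraph p).Adj u (p u) := (pGraph_adj p u (p u)).2 ⟨ne_parent hp u hu, Or.inl rfl⟩

theorem pGraph_connected {p : V → V} {v : V} (hp : p ∈ PF v) : (pGraph p).Connected := by
  have h : ∀ u, (pGraph p).Reachable u v := by
    intro u
    obtain ⟨m, hm⟩ := hp.2 u
    exact reachable_root (pGraph p) (adj_parent hp) m u hm
  have : Nonempty V := ⟨v⟩
  exact ⟨fun a b => (h a).trans (h b).symm⟩

theorem pGraph_isTree [Finite V] {p : V → V} {v : V} (hp : p ∈ PF v) : (pGraph p).IsTree := by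
  classical
  have := Fintype.ofFinite V
  rw [SimpleGraph.isTree_iff_connected_and_card]
  refine ⟨pGraph_connected hp, ?_⟩
  have h1 := (pGraph_connected hp).card_vert_le_card_edgeSet_add_one
  have h2 : Nat.card (pGraph p).edgeSet ≤ Nat.card {u : V // u ≠ v} := by
    refine Nat.card_le_card_of_surjective
      (fun u : {u : V // u ≠ v} => (⟨s(u.1, p u.1), adj_parent hp u.1 u.2⟩ :
        (pGraph p).edgeSet)) ?_
    rintro ⟨e, he⟩
    induction e using Sym2.ind with
    | _ a b =>
      rw [SimpleGraph.mem_edgeSet, pGraph_adj] at he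
      rcases he with ⟨hab, h | h⟩
      · have ha : a ≠ v := by
          rintro rfl
          exact hab (hp.1.symm.trans h)
        refine ⟨⟨a, ha⟩, Subtype.ext ?_⟩
        change s(a, p a) = s(a, b)
        rw [h]
      · have hb : b ≠ v := by
          rintro rfl
          exact hab (h.symm.trans hp.1)
        refine ⟨⟨b, hb⟩, Subtype.ext ?_⟩
        change s(b, p b) = s(a, b)
        rw [h]
        exact Sym2.eq_swap
  have h3 : Nat.card {u : V // u ≠ v} + 1 = Nat.card V := by
    rw [Nat.card_eq_fintype_card, Nat.card_eq_fintype_card]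
    have := Fintype.card_subtype_compl (fun u : V => u = v)
    rw [Fintype.card_subtype_eq] at this
    have h0 : 0 < Fintype.card V := Fintype.card_pos_iff.2 ⟨v⟩
    rw [this]
    omega
  omega

theorem pGraph_inj {p q : V → V} {v : V} (hp : p ∈ PF v) (hq : q ∈ PF v)
    (h : pGraph p = pGraph q) : p = q := by
  have key : ∀ (m : ℕ) (u : V), p^[m] u = v → p u = q u := by
    intro m
    induction m with
    | zero =>
      intro u hu
      rw [Function.iterate_zero_apply] at hu
      rw [hu, hp.1, hq.1]
    | succ m ih =>
      intro u hu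
      by_cases huv : u = v
      · rw [huv, hp.1, hq.1]
      rw [Function.iterate_succ_apply] at hu
      have h1 := ih (p u) hu
      have h2 := adj_parent hp u huv
      rw [h, pGraph_adj] at h2
      rcases h2.2 with h3 | h3
      · exact h3.symm
      · exfalso
        apply huv
        apply eq_root_of_two hp
        rw [h1, h3]
  funext u
  obtain ⟨m, hm⟩ := hp.2 u
  exact key m u hm

/-- every tree comes from a parent function -/
theorem exists_parent (G : SimpleGraph V) (hG : G.IsTree) (v : V) :
    ∃ p ∈ PF v, pGraph p = G ∧ ∀ u, u ≠ v → G.dist (p u) v < G.dist u v := by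
  classical
  have hstep : ∀ u, u ≠ v → ∃ w, G.Adj u w ∧ G.dist w v < G.dist u v := by
    intro u hu
    obtain ⟨W, hW⟩ := hG.connected.exists_walk_length_eq_dist u v
    cases W with
    | nil => exact absurd rfl hu
    | cons hadj W' =>
      refine ⟨_, hadj, ?_⟩
      rw [SimpleGraph.Walk.length_cons] at hW
      have := SimpleGraph.dist_le W'
      omega
  choose f hf using hstep
  let p : V → V := fun u => if h : u = v then v else f u h
  have hpv : p v = v := dif_pos rfl
  have hpu : ∀ u, u ≠ v → G.Adj u (p u) ∧ G.dist (p u) v < G.dist u v := by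
    intro u hu
    have : p u = f u hu := dif_neg hu
    rw [this]
    exact hf u hu
  have hiter : ∀ (d : ℕ) (u : V), G.dist u v ≤ d → ∃ m, p^[m] u = v := by
    intro d
    induction d with
    | zero =>
      intro u hu
      by_cases h : u = v
      · exact ⟨0, h⟩
      · have := (hpu u h).2
        omega
    | succ d ih =>
      intro u hu
      by_cases h : u = v
      · exact ⟨0, h⟩
      · obtain ⟨m, hm⟩ := ih (p u) (by have := (hpu u h).2; omega)
        exact ⟨m + 1, hm⟩
  have hp : p ∈ PF v := ⟨hpv, fun u => hiter _ u le_rfl⟩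
  refine ⟨p, hp, ?_, fun u hu => (hpu u hu).2⟩
  have hmin := (SimpleGraph.isTree_iff_minimal_connected).1 hG
  refine le_antisymm ?_ (hmin.2 (pGraph_connected hp) ?_)
  all_goals
    intro a b hab
    rw [pGraph_adj] at hab
    rcases hab with ⟨hne, h | h⟩
    · have ha : a ≠ v := by
        rintro rfl
        exact hne (hpv.symm.trans h)
      have := (hpu a ha).1
      rwa [h] at this
    · have hb : b ≠ v := by
        rintro rfl
        exact hne (h.symm.trans hpv)
      have := (hpu b hb).1
      rw [h] at this
      exact this.symm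

theorem neighborSet_root {p : V → V} {v : V} (hp : p ∈ PF v) :
    (pGraph p).neighborSet v = {u | u ≠ v ∧ p u = v} := by
  ext u
  rw [SimpleGraph.mem_neighborSet, pGraph_adj]
  constructor
  · rintro ⟨h1, h | h⟩
    · exact absurd (hp.1.symm.trans h) h1
    · exact ⟨h1.symm, h⟩
  · rintro ⟨h1, h2⟩
    exact ⟨h1.symm, Or.inr h2⟩

/-- moving a child `u` of the root to a vertex `w` which is not below `u` -/
theorem update_mem_PF [DecidableEq V] {p : V → V} {v : V} (hp : p ∈ PF v) (u w : V) (hu : u ≠ v)
    (hw : ∀ m, p^[m] w ≠ u) : Function.update p u w ∈ PF v := by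
  set q := Function.update p u w with hq
  have hqu : q u = w := Function.update_self u w p
  have hqx : ∀ x, x ≠ u → q x = p x := fun x hx => Function.update_of_ne hx w p
  have hsame : ∀ (m : ℕ) (x : V), (∀ k, p^[k] x ≠ u) → q^[m] x = p^[m] x := by
    intro m
    induction m with
    | zero => intro x _; rfl
    | succ m ih =>
      intro x hx
      rw [Function.iterate_succ_apply, Function.iterate_succ_apply, hqx x (hx 0)]
      exact ih (p x) (fun k => hx (k + 1))
  refine ⟨by rw [hqx v hu.symm, hp.1], fun x => ?_⟩
  have hwv : ∃ m, q^[m] w = v := by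
    obtain ⟨m, hm⟩ := hp.2 w
    exact ⟨m, by rw [hsame m w hw, hm]⟩
  by_cases hx : ∃ k, p^[k] x = u
  · obtain ⟨m, hm⟩ := hwv
    classical
    have hk := Nat.find_spec hx
    set k := Nat.find hx with hkdef
    have hmin : ∀ j < k, p^[j] x ≠ u := fun j hj => Nat.find_min hx hj
    have hqk : ∀ j ≤ k, q^[j] x = p^[j] x := by
      intro j
      induction j with
      | zero => intro _; rfl
      | succ j ih =>
        intro hj
        rw [Function.iterate_succ_apply', Function.iterate_succ_apply', ih (by omega),
          hqx _ (hmin j (by omega))]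
    refine ⟨m + 1 + k, ?_⟩
    rw [Function.iterate_add_apply, hqk k le_rfl, hk, Function.iterate_succ_apply, hqu, hm]
  · push Not at hx
    obtain ⟨m, hm⟩ := hp.2 x
    exact ⟨m, by rw [hsame m x hx, hm]⟩

/-- a vertex is below at most one child of the root -/
theorem below_unique {p : V → V} {v : V} (hp : p ∈ PF v) (u u' w : V) (hu : u ≠ v) (hu' : u' ≠ v)
    (hpu : p u = v) (hpu' : p u' = v) (m m' : ℕ) (h : p^[m] w = u) (h' : p^[m'] w = u') : u = u' := by
  have key : ∀ (a b : V) (k l : ℕ), k < l → p a = v → b ≠ v → p^[k] w = a → p^[l] w ≠ b := by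
    intro a b k l hkl ha hb hk hl
    apply hb
    have e1 : l = (l - k - 1) + 1 + k := by omega
    rw [← hl, e1, Function.iterate_add_apply, hk, Function.iterate_succ_apply, ha,
      iterate_root hp.1]
  rcases lt_trichotomy m m' with hlt | heq | hgt
  · exact absurd h' (key u u' m m' hlt hpu hu' h)
  · rw [← h, ← h', heq]
  · exact absurd h (key u' u m' m hgt hpu' hu h')

section count
variable [Fintype V] [DecidableEq V]

open Classical in
/-- children of the root -/
noncomputable def kids (v : V) (p : V → V) : Finset V := Finset.univ.filter fun u => u ≠ v ∧ p u = v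

open Classical in
/-- parent functions with at least `j` children of the root -/
noncomputable def MM (v : V) (j : ℕ) : Finset (V → V) :=
  Finset.univ.filter fun p => p ∈ PF v ∧ j ≤ (kids v p).card

theorem mem_kids (v : V) (p : V → V) (u : V) : u ∈ kids v p ↔ u ≠ v ∧ p u = v := by
  rw [kids, Finset.mem_filter]
  exact ⟨fun h => h.2, fun h => ⟨Finset.mem_univ _, h⟩⟩

theorem mem_MM (v : V) (j : ℕ) (p : V → V) : p ∈ MM v j ↔ p ∈ PF v ∧ j ≤ (kids v p).card := by
  classical
  simp only [MM, Finset.mem_filter, Finset.mem_univ, true_and]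

open Classical in
/-- admissible moves -/
noncomputable def moves (v : V) (p : V → V) : Finset (V × V) :=
  Finset.univ.filter fun x => x.1 ∈ kids v p ∧ x.2 ≠ v ∧ ∀ m, p^[m] x.2 ≠ x.1

theorem card_moves (v : V) (p : V → V) (hp : p ∈ PF v) :
    ((kids v p).card - 1) * (Fintype.card V - 1) ≤ (moves v p).card := by
  classical
  have h1 : (moves v p).card = ∑ w ∈ Finset.univ.erase v,
      ((kids v p).filter fun u => ∀ m, p^[m] w ≠ u).card := by
    rw [Finset.card_eq_sum_card_fiberwise (f := Prod.snd) (t := Finset.univ.erase v)]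
    · refine Finset.sum_congr rfl fun w hw => ?_
      refine Finset.card_bij (fun x _ => x.1) ?_ ?_ ?_
      · intro x hx
        rw [Finset.mem_filter, moves, Finset.mem_filter] at hx
        rw [Finset.mem_filter]
        refine ⟨hx.1.2.1, ?_⟩
        rw [← hx.2]
        exact hx.1.2.2.2
      · intro x hx y hy hxy
        rw [Finset.mem_filter] at hx hy
        exact Prod.ext hxy (hx.2.trans hy.2.symm)
      · intro u hu
        rw [Finset.mem_filter] at hu
        refine ⟨(u, w), ?_, rfl⟩
        rw [Finset.mem_filter, moves, Finset.mem_filter]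
        exact ⟨⟨Finset.mem_univ _, hu.1, (Finset.mem_erase.1 hw).1, hu.2⟩, rfl⟩
    · intro x hx
      have hx' := Finset.mem_coe.1 hx
      rw [moves, Finset.mem_filter] at hx'
      exact Finset.mem_coe.2 (Finset.mem_erase.2 ⟨hx'.2.2.1, Finset.mem_univ _⟩)
  have h2 : ∀ w ∈ Finset.univ.erase v, (kids v p).card - 1 ≤
      ((kids v p).filter fun u => ∀ m, p^[m] w ≠ u).card := by
    intro w _
    have h3 : ((kids v p).filter fun u => ¬ ∀ m, p^[m] w ≠ u).card ≤ 1 := by
      rw [Finset.card_le_one]
      intro a ha b hb
      rw [Finset.mem_filter, mem_kids] at ha hb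
      have ha2 := ha.2
      have hb2 := hb.2
      push Not at ha2 hb2
      obtain ⟨m, hm⟩ := ha2
      obtain ⟨m', hm'⟩ := hb2
      exact below_unique hp a b w ha.1.1 hb.1.1 ha.1.2 hb.1.2 m m' hm hm'
    have h4 := Finset.card_filter_add_card_filter_not (s := kids v p) (fun u => ∀ m, p^[m] w ≠ u)
    omega
  rw [h1]
  calc ((kids v p).card - 1) * (Fintype.card V - 1)
      = ∑ _w ∈ Finset.univ.erase v, ((kids v p).card - 1) := by
        rw [Finset.sum_const, Finset.card_erase_of_mem (Finset.mem_univ v), Finset.card_univ,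
          smul_eq_mul, mul_comm]
    _ ≤ _ := Finset.sum_le_sum h2

theorem MM_step (v : V) (j : ℕ) : j * (MM v (j + 1)).card ≤ (MM v j).card := by
  classical
  by_cases hn : Fintype.card V ≤ 1
  · -- no children
    have h0 : MM v (j + 1) = ∅ := by
      rw [Finset.eq_empty_iff_forall_notMem]
      intro p hp
      rw [mem_MM] at hp
      have h1 : (kids v p).card = 0 := by
        rw [Finset.card_eq_zero, Finset.eq_empty_iff_forall_notMem]
        intro u hu
        rw [mem_kids] at hu
        have := Fintype.card_le_one_iff.1 hn u v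
        exact hu.1 this
      omega
    rw [h0, Finset.card_empty, mul_zero]
    exact Nat.zero_le _
  -- double counting
  let X : Finset ((V → V) × V × V) := (MM v (j + 1)).sigma (fun p => moves v p) |>.map
    ⟨fun x => (x.1, x.2.1, x.2.2), fun x y h => by
      rcases x with ⟨a, b, c⟩
      rcases y with ⟨a', b', c'⟩
      simp only [Prod.mk.injEq] at h
      obtain ⟨rfl, rfl, rfl⟩ := h
      rfl⟩
  have hX1 : j * (Fintype.card V - 1) * (MM v (j + 1)).card ≤ X.card := by
    have h1 : X.card = ∑ p ∈ MM v (j + 1), (moves v p).card := by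
      rw [Finset.card_map, Finset.card_sigma]
    rw [h1, mul_comm, ← smul_eq_mul, ← Finset.sum_const]
    refine Finset.sum_le_sum fun p hp => ?_
    rw [mem_MM] at hp
    refine le_trans ?_ (card_moves v p hp.1)
    exact Nat.mul_le_mul_right _ (by omega)
  have hX2 : X.card ≤ ((MM v j) ×ˢ (Finset.univ.erase v)).card := by
    refine Finset.card_le_card_of_injOn (fun x => (Function.update x.1 x.2.1 x.2.2, x.2.1)) ?_ ?_
    · intro x hx
      obtain ⟨⟨p, u, w⟩, hy, rfl⟩ := Finset.mem_map.1 (Finset.mem_coe.1 hx)
      rw [Finset.mem_sigma, mem_MM, moves, Finset.mem_filter, mem_kids] at hy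
      obtain ⟨⟨hp, hj⟩, -, ⟨huv, hpu⟩, hwv, hw⟩ := hy
      change (Function.update p u w, u) ∈ _
      rw [Finset.coe_product, Set.mem_prod]
      refine ⟨?_, Finset.mem_coe.2 (Finset.mem_erase.2 ⟨huv, Finset.mem_univ _⟩)⟩
      rw [Finset.mem_coe, mem_MM]
      refine ⟨update_mem_PF hp u w huv hw, ?_⟩
      have hsub : (kids v p).erase u ⊆ kids v (Function.update p u w) := by
        intro a ha
        rw [Finset.mem_erase, mem_kids] at ha
        rw [mem_kids]
        refine ⟨ha.2.1, ?_⟩
        rw [Function.update_of_ne ha.1]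
        exact ha.2.2
      have h2 := Finset.card_le_card hsub
      rw [Finset.card_erase_of_mem ((mem_kids v p u).2 ⟨huv, hpu⟩)] at h2
      have hj' : j + 1 ≤ (kids v p).card := hj
      change j ≤ (kids v (Function.update p u w)).card
      omega
    · intro x hx y hy hxy
      obtain ⟨⟨p, u, w⟩, hx', rfl⟩ := Finset.mem_map.1 (Finset.mem_coe.1 hx)
      obtain ⟨⟨p', u', w'⟩, hy', rfl⟩ := Finset.mem_map.1 (Finset.mem_coe.1 hy)
      rw [Finset.mem_sigma, moves, Finset.mem_filter, mem_kids] at hx' hy'
      have h1 : (Function.update p u w, u) = (Function.update p' u' w', u') := hxy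
      rw [Prod.mk.injEq] at h1
      obtain ⟨h2, h3⟩ := h1
      change u = u' at h3
      subst h3
      have h4 : w = w' := by
        have := congrFun h2 u
        rwa [Function.update_self, Function.update_self] at this
      have h5 : p = p' := by
        funext a
        by_cases ha : a = u
        · rw [ha]
          exact hx'.2.2.1.2.trans hy'.2.2.1.2.symm
        · have := congrFun h2 a
          rwa [Function.update_of_ne ha, Function.update_of_ne ha] at this
      subst h4
      subst h5
      rfl
  rw [Finset.card_product, Finset.card_erase_of_mem (Finset.mem_univ v), Finset.card_univ] at hX2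
  have h3 : j * (MM v (j + 1)).card * (Fintype.card V - 1) ≤
      (MM v j).card * (Fintype.card V - 1) := by
    calc j * (MM v (j + 1)).card * (Fintype.card V - 1)
        = j * (Fintype.card V - 1) * (MM v (j + 1)).card := by ring
      _ ≤ _ := hX1.trans hX2
  exact Nat.le_of_mul_le_mul_right h3 (by omega)

theorem MM_factorial (v : V) (D : ℕ) : D ! * (MM v (D + 1)).card ≤ (MM v 1).card := by
  induction D with
  | zero => simp
  | succ D ih =>
    calc (D + 1)! * (MM v (D + 1 + 1)).card = D ! * ((D + 1) * (MM v (D + 1 + 1)).card) := by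
          rw [Nat.factorial_succ]
          ring
      _ ≤ D ! * (MM v (D + 1)).card := Nat.mul_le_mul_left _ (MM_step v (D + 1))
      _ ≤ _ := ih

end count

end Trees

open Trees

/-- few trees have a large degree at a given vertex (moving a neighbour of `v` to another vertex) -/
theorem factorial_mul_card_le {V : Type} [Fintype V] (v : V) (D : ℕ) :
    D ! * {G : SimpleGraph V | G.IsTree ∧ D < (G.neighborSet v).ncard}.ncard ≤
      {G : SimpleGraph V | G.IsTree}.ncard := by
  classical
  have h1 : {G : SimpleGraph V | G.IsTree ∧ D < (G.neighborSet v).ncard} ⊆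
      pGraph '' (MM v (D + 1) : Set (V → V)) := by
    rintro G ⟨hG, hD⟩
    obtain ⟨p, hp, rfl, -⟩ := exists_parent G hG v
    refine ⟨p, ?_, rfl⟩
    rw [Finset.mem_coe, mem_MM]
    refine ⟨hp, ?_⟩
    rw [neighborSet_root hp] at hD
    have h2 : {u | u ≠ v ∧ p u = v} = (kids v p : Set V) := by
      ext u
      rw [Finset.mem_coe, mem_kids]
      rfl
    rw [h2, Set.ncard_coe_finset] at hD
    exact hD
  have h3 : {G : SimpleGraph V | G.IsTree ∧ D < (G.neighborSet v).ncard}.ncard ≤
      (MM v (D + 1)).card := by
    refine (Set.ncard_le_ncard h1 (Set.toFinite _)).trans ?_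
    refine (Set.ncard_image_le (Set.toFinite _)).trans ?_
    rw [Set.ncard_coe_finset]
  have h4 : (MM v 1).card ≤ {G : SimpleGraph V | G.IsTree}.ncard := by
    rw [← Set.ncard_coe_finset]
    refine Set.ncard_le_ncard_of_injOn pGraph ?_ ?_ (Set.toFinite _)
    · intro p hp
      rw [Finset.mem_coe, mem_MM] at hp
      exact pGraph_isTree hp.1
    · intro p hp q hq hpq
      rw [Finset.mem_coe, mem_MM] at hp hq
      exact pGraph_inj hp.1 hq.1 hpq
  exact (Nat.mul_le_mul_left _ h3).trans ((MM_factorial v D).trans h4)

end Pool.Agent.WT
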