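import Pool.Agent.WT.Random

/-!
# From single trees to all labelled oriented trees, without reducedness
-/

set_option autoImplicit false

open scoped BigOperators Nat
open Filter

namespace Pool.Agent.WT

open Pool.Agent

/-- the number of all labellings -/
theorem ncard_all_labels {n : ℕ} (G : TreeOn (Fin n)) :
    Nat.card (G.1.edgeSet → Fin n) = n ^ (n - 1) := by
  classical
  rw [Nat.card_fun, Nat.card_eq_fintype_card (α := Fin n), Fintype.card_fin]
  have := card_edges G.1 G.2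
  rw [Fintype.card_fin] at this
  congr 1
  omega

/-- the number of all labelled oriented trees -/
theorem card_lot (n : ℕ) : Nat.card (LOT (Fin n)) =
    Fintype.card (TreeOn (Fin n)) * (2 ^ (n - 1) * n ^ (n - 1)) := by
  classical
  have h0 : Nat.card (LOT (Fin n)) = {Γ : LOT (Fin n) | True}.ncard := by
    have : {Γ : LOT (Fin n) | True} = Set.univ := by
      ext Γ; simp
    rw [this, Set.ncard_univ]
  rw [h0, ncard_lot]
  have h1 : ∀ (G : TreeOn (Fin n)) (o : Orient G.1),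
      {label : G.1.edgeSet → Fin n | True}.ncard = n ^ (n - 1) := by
    intro G o
    have : {label : G.1.edgeSet → Fin n | True} = Set.univ := by
      ext l; simp
    rw [this, Set.ncard_univ, ncard_all_labels]
  rw [Finset.sum_congr rfl (fun G _ => Finset.sum_congr rfl (fun o _ => h1 G o))]
  rw [Finset.sum_congr rfl (fun G _ => by rw [Finset.sum_const, Finset.card_univ, card_orient'])]
  rw [Finset.sum_const, Finset.card_univ, smul_eq_mul, smul_eq_mul]

theorem main_ineq_all (Q : ∀ n : ℕ, LOT (Fin n) → Prop) (C K n D : ℕ)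
    (hQ : ∀ (Δ : ℕ) (G : TreeOn (Fin n)) (_ : ∀ v, (G.1.neighborSet v).ncard ≤ Δ)
      (o : Orient G.1),
      (n - 1) * {label : G.1.edgeSet → Fin n | Q n (mkLOT G o label)}.ncard ≤
        C * Δ ^ K * n ^ (n - 1)) :
    ((n - 1 : ℕ) : ℝ) * {Γ : LOT (Fin n) | Q n Γ}.ncard ≤
      (C * D ^ K + n ^ 2 / D !) * Nat.card (LOT (Fin n)) := by
  classical
  set N := Fintype.card (TreeOn (Fin n)) with hN
  set w := 2 ^ (n - 1) * n ^ (n - 1) with hw
  rw [card_lot n, ← hN, ← hw, ncard_lot]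
  set a : TreeOn (Fin n) → ℕ := fun G => ∑ o : Orient G.1,
    {label : G.1.edgeSet → Fin n | Q n (mkLOT G o label)}.ncard with ha
  set good := Finset.univ.filter fun G : TreeOn (Fin n) => ∀ v, (G.1.neighborSet v).ncard ≤ D
    with hgood
  set bad := Finset.univ.filter fun G : TreeOn (Fin n) => ¬ ∀ v, (G.1.neighborSet v).ncard ≤ D
    with hbad
  have hsplit : ∑ G, a G = ∑ G ∈ good, a G + ∑ G ∈ bad, a G :=
    (Finset.sum_filter_add_sum_filter_not _ _ _).symm
  have h1 : ∀ G ∈ good, (n - 1) * a G ≤ C * D ^ K * w := by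
    intro G hG
    rw [hgood, Finset.mem_filter] at hG
    rw [ha]
    simp only
    rw [Finset.mul_sum]
    refine (Finset.sum_le_card_nsmul _ _ (C * D ^ K * n ^ (n - 1)) (fun o _ => hQ D G hG.2 o)).trans
      (le_of_eq ?_)
    rw [Finset.card_univ, card_orient', smul_eq_mul, hw]
    ring
  have h2 : ∀ G, a G ≤ w := by
    intro G
    rw [ha]
    simp only
    refine (Finset.sum_le_card_nsmul _ _ (n ^ (n - 1)) (fun o _ => ncard_labels_le G _)).trans
      (le_of_eq ?_)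
    rw [Finset.card_univ, card_orient', smul_eq_mul]
  have h3 : (n - 1) * ∑ G ∈ good, a G ≤ N * (C * D ^ K * w) := by
    rw [Finset.mul_sum]
    refine (Finset.sum_le_card_nsmul _ _ _ h1).trans ?_
    rw [smul_eq_mul]
    refine Nat.mul_le_mul_right _ ?_
    rw [hN, ← Finset.card_univ]
    exact Finset.card_le_card (Finset.filter_subset _ _)
  have h4 : D ! * ((n - 1) * ∑ G ∈ bad, a G) ≤ n ^ 2 * (N * w) := by
    have h5 : ∑ G ∈ bad, a G ≤ bad.card * w := by
      refine (Finset.sum_le_card_nsmul _ _ _ (fun G _ => h2 G)).trans ?_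
      rw [smul_eq_mul]
    have h6 := card_bad_trees n D
    rw [← hbad, ← hN] at h6
    calc D ! * ((n - 1) * ∑ G ∈ bad, a G) ≤ D ! * (n * (bad.card * w)) :=
          Nat.mul_le_mul_left _ (Nat.mul_le_mul (Nat.sub_le n 1) h5)
      _ = n * (D ! * bad.card) * w := by ring
      _ ≤ n * (n * N) * w := Nat.mul_le_mul_right _ (Nat.mul_le_mul_left _ h6)
      _ = n ^ 2 * (N * w) := by ring
  have hDf : (0 : ℝ) < (D ! : ℝ) := by exact_mod_cast Nat.factorial_pos D
  have h3' : ((n - 1 : ℕ) : ℝ) * ((∑ G ∈ good, a G : ℕ) : ℝ) ≤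
      C * D ^ K * ((N * w : ℕ) : ℝ) := by
    have h7 : (((n - 1) * ∑ G ∈ good, a G : ℕ) : ℝ) ≤ ((N * (C * D ^ K * w) : ℕ) : ℝ) := by
      exact_mod_cast h3
    have h8 : ((N * (C * D ^ K * w) : ℕ) : ℝ) = C * D ^ K * ((N * w : ℕ) : ℝ) := by
      push_cast
      ring
    rw [h8, Nat.cast_mul] at h7
    exact h7
  have h4' : ((n - 1 : ℕ) : ℝ) * ((∑ G ∈ bad, a G : ℕ) : ℝ) ≤
      n ^ 2 / D ! * ((N * w : ℕ) : ℝ) := by
    have h7 : ((D ! * ((n - 1) * ∑ G ∈ bad, a G) : ℕ) : ℝ) ≤ ((n ^ 2 * (N * w) : ℕ) : ℝ) := by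
      exact_mod_cast h4
    rw [Nat.cast_mul, Nat.cast_mul (n - 1), Nat.cast_mul (n ^ 2), Nat.cast_pow] at h7
    rw [div_mul_eq_mul_div, le_div_iff₀ hDf]
    linarith
  rw [hsplit, Nat.cast_add, mul_add, add_mul]
  exact add_le_add h3' h4'

/-- If a property `Q` is rare among the labellings of every oriented tree, with a bound that is
polynomial in the maximal degree, then it is rare among all labelled oriented trees. -/
theorem rare_all (Q : ∀ n : ℕ, LOT (Fin n) → Prop) (C K : ℕ)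
    (hQ : ∀ (n Δ : ℕ) (G : TreeOn (Fin n)) (_ : ∀ v, (G.1.neighborSet v).ncard ≤ Δ)
      (o : Orient G.1),
      (n - 1) * {label : G.1.edgeSet → Fin n | Q n (mkLOT G o label)}.ncard ≤
        C * Δ ^ K * n ^ (n - 1)) :
    ∀ᶠ n : ℕ in atTop, ({Γ : LOT (Fin n) | Q n Γ}.ncard : ℝ) ≤
      (Real.log n) ^ (K + 1) / n * Nat.card (LOT (Fin n)) := by
  have hlog : Tendsto (fun n : ℕ => Real.log (n : ℝ)) atTop atTop :=
    Real.tendsto_log_atTop.comp tendsto_natCast_atTop_atTop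
  have hfl : Tendsto (fun n : ℕ => ⌊Real.log (n : ℝ)⌋₊) atTop atTop :=
    tendsto_nat_floor_atTop.comp hlog
  have hfac : ∀ᶠ D : ℕ in atTop, (Real.exp 2) ^ D / (D ! : ℝ) < 1 / Real.exp 2 :=
    (FloorSemiring.tendsto_pow_div_factorial_atTop (Real.exp 2)).eventually_lt_const (by positivity)
  filter_upwards [eventually_ge_atTop 2, hfl.eventually hfac,
    hlog.eventually_ge_atTop (2 * ((C : ℝ) + 1))] with n hn2 hf hL
  set L := Real.log (n : ℝ) with hLdef
  set D := ⌊L⌋₊ with hDdef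
  have hC : (0 : ℝ) ≤ C := Nat.cast_nonneg C
  have hL1 : 1 ≤ L := by linarith
  have hL0 : 0 ≤ L := by linarith
  have hn0 : (0 : ℝ) < n := by exact_mod_cast (show 0 < n by omega)
  have hDL : (D : ℝ) ≤ L := Nat.floor_le hL0
  have hLD : L < D + 1 := Nat.lt_floor_add_one L
  have hnexp : (n : ℝ) = Real.exp L := (Real.exp_log hn0).symm
  have hDf : (0 : ℝ) < (D ! : ℝ) := by exact_mod_cast Nat.factorial_pos D
  have hbig : (n : ℝ) ^ 2 ≤ D ! := by
    have h1 : (n : ℝ) ^ 2 ≤ Real.exp 2 * Real.exp 2 ^ D := by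
      rw [hnexp, ← Real.exp_nat_mul, ← Real.exp_nat_mul, ← Real.exp_add]
      refine Real.exp_le_exp.mpr ?_
      push_cast
      linarith
    have h2 : Real.exp 2 ^ D < 1 / Real.exp 2 * D ! := by
      rw [div_lt_iff₀ hDf] at hf
      exact hf
    have h3 : Real.exp 2 * Real.exp 2 ^ D ≤ Real.exp 2 * (1 / Real.exp 2 * D !) :=
      mul_le_mul_of_nonneg_left h2.le (Real.exp_pos 2).le
    have h4 : Real.exp 2 * (1 / Real.exp 2 * D !) = (D ! : ℝ) := by
      field_simp
    linarith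
  have hmain := main_ineq_all Q C K n D (hQ n)
  set A := ({Γ : LOT (Fin n) | Q n Γ}.ncard : ℝ) with hA
  set B := (Nat.card (LOT (Fin n)) : ℝ) with hB
  have hA0 : 0 ≤ A := Nat.cast_nonneg _
  have hB0 : 0 ≤ B := Nat.cast_nonneg _
  have he : (n : ℝ) ^ 2 / D ! ≤ 1 := by
    rw [div_le_one hDf]
    exact hbig
  have hcoef : (C : ℝ) * D ^ K + n ^ 2 / D ! ≤ L ^ (K + 1) / 2 := by
    have h1 : (D : ℝ) ^ K ≤ L ^ K := pow_le_pow_left₀ (Nat.cast_nonneg D) hDL K
    have h2 : (1 : ℝ) ≤ L ^ K := one_le_pow₀ hL1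
    have h3 : (C : ℝ) * D ^ K ≤ C * L ^ K := mul_le_mul_of_nonneg_left h1 hC
    have h4 : ((C : ℝ) + 1) * L ^ K ≤ L ^ (K + 1) / 2 := by
      rw [pow_succ]
      have h5 : (0 : ℝ) ≤ L ^ K := by positivity
      nlinarith
    linarith
  have hn12 : (n : ℝ) / 2 ≤ ((n - 1 : ℕ) : ℝ) := by
    rw [Nat.cast_sub (by omega)]
    have : (2 : ℝ) ≤ n := by exact_mod_cast hn2
    push_cast
    linarith
  have h6 : (n : ℝ) / 2 * A ≤ L ^ (K + 1) / 2 * B := by
    calc (n : ℝ) / 2 * A ≤ ((n - 1 : ℕ) : ℝ) * A := mul_le_mul_of_nonneg_right hn12 hA0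
      _ ≤ _ := hmain
      _ ≤ L ^ (K + 1) / 2 * B := mul_le_mul_of_nonneg_right hcoef hB0
  rw [div_mul_eq_mul_div, le_div_iff₀ hn0]
  linarith

end Pool.Agent.WT
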