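import Pool.Agent.FoxAsph.Defs

/-!
# Relators of length 4 and closed paths in their link
-/

set_option autoImplicit false

open scoped BigOperators

namespace Pool.Agent.WT

open Pool.Agent.FoxAsph

variable {X ι : Type}

/-- the inverse letter -/
def inv (l : X × Bool) : X × Bool := (l.1, !l.2)

/-- the relators as words -/
abbrev words (R : ι → Fin 4 → X × Bool) : ι → Word X := fun i => List.ofFn (R i)

/-- first end of an oriented corner `(i, q, direction)`: corner `q` of relator `i` joins the link
vertices `inv (R i q)` and `R i (q + 1)` -/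
def src (R : ι → Fin 4 → X × Bool) (o : ι × Fin 4 × Bool) : X × Bool :=
  if o.2.2 then inv (R o.1 o.2.1) else R o.1 (o.2.1 + 1)

/-- second end of an oriented corner -/
def tgt (R : ι → Fin 4 → X × Bool) (o : ι × Fin 4 × Bool) : X × Bool :=
  if o.2.2 then R o.1 (o.2.1 + 1) else inv (R o.1 o.2.1)

/-- a closed, cyclically reduced path of length `m` in the link, as a periodic sequence -/
structure IsClosedReduced (R : ι → Fin 4 → X × Bool) (m : ℕ) (γ : ℕ → ι × Fin 4 × Bool) : Prop where
  pos : 0 < m
  per : ∀ j, γ (j + m) = γ j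
  conn : ∀ j, tgt R (γ j) = src R (γ (j + 1))
  red : ∀ j, γ (j + 1) ≠ ((γ j).1, (γ j).2.1, !(γ j).2.2)

end Pool.Agent.WT
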