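import Pool.Agent.WT.LotDefs
import Pool.Agent.FoxAsph.Kernel

/-!
# One more 2-cell makes the complex of a labelled oriented tree contractible
-/

set_option autoImplicit false

open scoped BigOperators

namespace Pool.Agent.WT

open Pool.Agent.FoxAsph

variable {V : Type}

theorem val_rel {X ι : Type} (rel : ι → Word X) (i : ι) : val rel (rel i) = 1 :=
  PresentedGroup.one_of_mem ⟨i, rfl⟩

theorem val_inv {X ι : Type} (rel : ι → Word X) (x : X) :
    val rel [(x, false)] = (val rel [(x, true)])⁻¹ := by
  rw [eq_inv_iff_mul_eq_one, ← val_append]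
  unfold val
  have : FreeGroup.mk ([(x, false)] ++ [(x, true)]) = 1 := by
    rw [← FreeGroup.mul_mk, FreeGroup.one_eq_mk]
    have h : FreeGroup.mk [(x, false)] = (FreeGroup.mk [(x, true)])⁻¹ := by
      rw [FreeGroup.inv_mk]; rfl
    rw [h, inv_mul_cancel]
    rfl
  rw [this, map_one]

/-- in the group with the additional relator every generator is trivial -/
theorem LOT.gen_trivial (Γ : LOT V) (v x : V) : val (Γ.relPlus v) [(x, true)] = 1 := by
  have hv : val (Γ.relPlus v) [(v, true)] = 1 := val_rel (Γ.relPlus v) none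
  have hedge : ∀ e : Γ.graph.edgeSet,
      val (Γ.relPlus v) [(Γ.tail e, true)] = 1 ↔ val (Γ.relPlus v) [(Γ.head e, true)] = 1 := by
    intro e
    have h : val (Γ.relPlus v) (Γ.rel e) = 1 := val_rel (Γ.relPlus v) (some e)
    unfold LOT.rel at h
    rw [val_cons, val_cons _ _ [_, _], val_cons _ _ [_], val_inv, val_inv] at h
    constructor
    · intro h1
      rw [h1, one_mul] at h
      have h2 := congrArg (fun t => (val (Γ.relPlus v) [(Γ.label e, true)])⁻¹ * t *
        val (Γ.relPlus v) [(Γ.label e, true)]) h
      simp only [mul_one, inv_mul_cancel] at h2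
      rw [← mul_assoc, ← mul_assoc] at h2
      simpa using h2
    · intro h1
      rw [h1] at h
      simpa using h
  have hadj : ∀ a b : V, Γ.graph.Adj a b → val (Γ.relPlus v) [(a, true)] = 1 →
      val (Γ.relPlus v) [(b, true)] = 1 := by
    intro a b hab h1
    have h2 := Γ.ends ⟨s(a, b), hab⟩
    rw [Sym2.eq_iff] at h2
    rcases h2 with ⟨h2, h3⟩ | ⟨h2, h3⟩
    · rw [h3]
      rw [h2] at h1
      exact (hedge _).mp h1
    · rw [h3]
      rw [h2] at h1
      exact (hedge _).mpr h1
  have hreach := Γ.isTree.connected.preconnected v x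
  rw [SimpleGraph.reachable_iff_reflTransGen] at hreach
  induction hreach with
  | refl => exact hv
  | tail _ hab ih => exact hadj _ _ hab ih

theorem LOT.group_trivial (Γ : LOT V) (v : V) : Subsingleton (Grp (Γ.relPlus v)) := by
  have h : (MonoidHom.id (Grp (Γ.relPlus v))) = 1 := by
    refine PresentedGroup.ext (fun x => ?_)
    have h1 := Γ.gen_trivial v x
    unfold val at h1
    simp only [MonoidHom.id_apply, MonoidHom.one_apply]
    exact h1
  refine ⟨fun a b => ?_⟩
  have ha := DFunLike.congr_fun h a
  have hb := DFunLike.congr_fun h b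
  simp only [MonoidHom.id_apply, MonoidHom.one_apply] at ha hb
  rw [ha, hb]

open Classical in
/-- The presentation complex with the additional relator has trivial second homology. -/
theorem LOT.relPlus_aspherical [Fintype V] (Γ : LOT V) [Fintype Γ.graph.edgeSet] (v : V) :
    Aspherical (Γ.relPlus v) := by
  have hsub := Γ.group_trivial v
  have hof : ∀ g : Grp (Γ.relPlus v), MonoidAlgebra.of ℤ (Grp (Γ.relPlus v)) g = 1 := by
    intro g
    rw [Subsingleton.elim g 1, map_one]
  intro z hz
  have hfox : ∀ (x : V) (e : Γ.graph.edgeSet), fox (Γ.relPlus v) x (Γ.rel e) =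
      (if Γ.tail e = x then 1 else 0) - (if Γ.head e = x then 1 else 0) := by
    intro x e
    unfold LOT.rel
    simp only [fox, hof, one_mul, mul_zero, add_zero]
    abel
  have hfox0 : ∀ x : V, fox (Γ.relPlus v) x [(v, true)] = if v = x then 1 else 0 := by
    intro x
    simp only [fox, hof, one_mul, add_zero]
  have hz' : ∀ x : V, (if v = x then z none else 0) +
      ∑ e : Γ.graph.edgeSet, ((if Γ.tail e = x then z (some e) else 0) -
        (if Γ.head e = x then z (some e) else 0)) = 0 := by
    intro x
    have h := hz x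
    rw [Fintype.sum_option] at h
    have h1 : fox (Γ.relPlus v) x (Γ.relPlus v none) = if v = x then 1 else 0 := hfox0 x
    rw [h1] at h
    rw [mul_ite, mul_one, mul_zero] at h
    refine Eq.trans ?_ h
    congr 1
    refine Finset.sum_congr rfl (fun e _ => ?_)
    have h2 : fox (Γ.relPlus v) x (Γ.relPlus v (some e)) = _ := hfox x e
    rw [h2, mul_sub, mul_ite, mul_ite, mul_one, mul_zero]
  -- sum over a set of vertices
  have hsum : ∀ A : Finset V, (if v ∈ A then z none else 0) +
      ∑ e : Γ.graph.edgeSet, ((if Γ.tail e ∈ A then z (some e) else 0) -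
        (if Γ.head e ∈ A then z (some e) else 0)) = 0 := by
    intro A
    have h := Finset.sum_congr (rfl : A = A) (fun x _ => hz' x)
    rw [Finset.sum_const_zero, Finset.sum_add_distrib, Finset.sum_comm] at h
    refine Eq.trans ?_ h
    congr 1
    · rw [Finset.sum_ite_eq]
    · refine Finset.sum_congr rfl (fun e _ => ?_)
      rw [Finset.sum_sub_distrib, Finset.sum_ite_eq, Finset.sum_ite_eq]
  have h0 : z none = 0 := by
    have h := hsum Finset.univ
    simpa using h
  have h1 : ∀ e0 : Γ.graph.edgeSet, z (some e0) = 0 := by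
    intro e0
    have hbr : Γ.graph.IsBridge (e0 : Sym2 V) :=
      (SimpleGraph.isAcyclic_iff_forall_isBridge.mp Γ.isTree.isAcyclic) e0.2
    rw [Γ.ends e0] at hbr
    have hnr : ¬ (Γ.graph.deleteEdges {s(Γ.tail e0, Γ.head e0)}).Reachable
        (Γ.tail e0) (Γ.head e0) := SimpleGraph.isBridge_iff.mp hbr
    set H := Γ.graph.deleteEdges {s(Γ.tail e0, Γ.head e0)} with hH
    set A : Finset V := Finset.univ.filter fun x => H.Reachable (Γ.tail e0) x with hA
    have h := hsum A
    rw [h0] at h
    rw [ite_self, zero_add] at h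
    rw [Finset.sum_eq_single e0] at h
    · have ht : Γ.tail e0 ∈ A := by
        rw [hA, Finset.mem_filter]
        exact ⟨Finset.mem_univ _, SimpleGraph.Reachable.refl _⟩
      have hh : Γ.head e0 ∉ A := by
        rw [hA, Finset.mem_filter]
        exact fun h => hnr h.2
      rw [if_pos ht, if_neg hh, sub_zero] at h
      exact h
    · intro e _ hne
      have hadj : H.Adj (Γ.tail e) (Γ.head e) := by
        rw [hH, SimpleGraph.deleteEdges_adj]
        refine ⟨?_, ?_⟩
        · have := e.2
          rw [Γ.ends e] at this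
          exact this
        · intro hmem
          rw [Set.mem_singleton_iff, ← Γ.ends e, ← Γ.ends e0] at hmem
          exact hne (Subtype.ext hmem)
      have hiff : Γ.tail e ∈ A ↔ Γ.head e ∈ A := by
        rw [hA, Finset.mem_filter, Finset.mem_filter]
        constructor
        · rintro ⟨h1, h2⟩
          exact ⟨Finset.mem_univ _, h2.trans hadj.reachable⟩
        · rintro ⟨h1, h2⟩
          exact ⟨Finset.mem_univ _, h2.trans hadj.symm.reachable⟩
      by_cases ht : Γ.tail e ∈ A
      · rw [if_pos ht, if_pos (hiff.mp ht), sub_self]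
      · rw [if_neg ht, if_neg (fun h => ht (hiff.mpr h)), sub_self]
    · intro h
      exact absurd (Finset.mem_univ _) h
  funext i
  rcases i with _ | e
  · exact h0
  · exact h1 e

theorem LOT.contractible [Fintype V] (Γ : LOT V) (v : V) : Γ.Contractible v :=
  ⟨Γ.group_trivial v, fun _ => Γ.relPlus_aspherical v⟩

end Pool.Agent.WT
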