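import Pool.Agent.FoxAsph.Defs

/-!
# Labelled oriented trees
-/

set_option autoImplicit false

namespace Pool.Agent.WT

open Pool.Agent.FoxAsph

/-- A labelled oriented tree with vertex set `V`: a tree, an orientation of its edges (a tail and a
head for every edge) and a label, which is a vertex, for every edge. -/
structure LOT (V : Type) where
  graph : SimpleGraph V
  isTree : graph.IsTree
  tail : graph.edgeSet → V
  head : graph.edgeSet → V
  ends : ∀ e : graph.edgeSet, (e : Sym2 V) = s(tail e, head e)
  label : graph.edgeSet → V

/-- The relator `a c b⁻¹ c⁻¹` of an edge with tail `a`, head `b` and label `c`. -/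
def LOT.rel {V : Type} (Γ : LOT V) (e : Γ.graph.edgeSet) : Word V :=
  [(Γ.tail e, true), (Γ.label e, true), (Γ.head e, false), (Γ.label e, false)]

/-- Reduced labelled oriented trees (compressed and interior reduced): the label of an edge is not an
end of the edge, and two edges with the same tail, or with the same head, have different labels. -/
def LOT.Reduced {V : Type} (Γ : LOT V) : Prop :=
  (∀ e, Γ.label e ≠ Γ.tail e ∧ Γ.label e ≠ Γ.head e) ∧
    ∀ e f, e ≠ f → (Γ.tail e = Γ.tail f ∨ Γ.head e = Γ.head f) → Γ.label e ≠ Γ.label f

/-- Every subcomplex of the presentation complex with generators `V` and relators `Γ.rel e` is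
aspherical: for every set `U` of generators and every finite set `S` of edges with both ends and label
in `U`, the presentation with generators `U` and the relators of the edges in `S` is aspherical. -/
def LOT.SubAspherical {V : Type} (Γ : LOT V) : Prop :=
  ∀ (U : Set V) (S : Finset Γ.graph.edgeSet)
    (h : ∀ e ∈ S, Γ.tail e ∈ U ∧ Γ.head e ∈ U ∧ Γ.label e ∈ U),
    Aspherical fun e : S => ([(⟨Γ.tail e, (h e e.2).1⟩, true), (⟨Γ.label e, (h e e.2).2.2⟩, true),
      (⟨Γ.head e, (h e e.2).2.1⟩, false), (⟨Γ.label e, (h e e.2).2.2⟩, false)] : Word U)

/-- The relators of the labelled oriented tree `Γ` together with the relator `v`. -/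
def LOT.relPlus {V : Type} (Γ : LOT V) (v : V) : Option Γ.graph.edgeSet → Word V
  | none => [(v, true)]
  | some e => Γ.rel e

/-- The complex `K(Γ, v)` with one vertex, 1-cells `V` and 2-cells the relators `Γ.rel e` and `v` is
contractible: its fundamental group is trivial and the second homology of its universal covering
is 0. -/
def LOT.Contractible {V : Type} (Γ : LOT V) (v : V) : Prop :=
  Subsingleton (Grp (Γ.relPlus v)) ∧ ∀ _ : Fintype Γ.graph.edgeSet, Aspherical (Γ.relPlus v)

end Pool.Agent.WT
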