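import Mathlib
import Pool.Agent.WT.LotDefs
import Pool.Agent.WT.Trees
import Pool.Agent.RandomLOT.Count

/-!
# From single trees to all labelled oriented trees (module U)
-/

set_option autoImplicit false

open scoped BigOperators Nat
open Filter

namespace Pool.Agent.WT

open Pool.Agent

/-- trees on a vertex set -/
abbrev TreeOn (V : Type) : Type := {G : SimpleGraph V // G.IsTree}

/-- orientations of the edges of a graph -/
abbrev Orient {V : Type} (G : SimpleGraph V) : Type :=
  {o : (G.edgeSet → V) × (G.edgeSet → V) // ∀ e : G.edgeSet, (e : Sym2 V) = s(o.1 e, o.2 e)}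

/-- a labelled oriented tree from its pieces -/
def mkLOT {V : Type} (G : TreeOn V) (o : Orient G.1) (label : G.1.edgeSet → V) : LOT V :=
  ⟨G.1, G.2, o.1.1, o.1.2, o.2, label⟩

/-- labelled oriented trees with a property -/
def lotSubEquiv {V : Type} (P : LOT V → Prop) : {Γ : LOT V // P Γ} ≃
    (Σ G : TreeOn V, Σ o : Orient G.1, {label : G.1.edgeSet → V // P (mkLOT G o label)}) where
  toFun Γ := ⟨⟨Γ.1.graph, Γ.1.isTree⟩, ⟨(Γ.1.tail, Γ.1.head), Γ.1.ends⟩, ⟨Γ.1.label, Γ.2⟩⟩
  invFun x := ⟨mkLOT x.1 x.2.1 x.2.2.1, x.2.2.2⟩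
  left_inv _ := rfl
  right_inv _ := rfl

noncomputable instance {V : Type} [Fintype V] : Fintype (TreeOn V) :=
  Fintype.ofFinite _

noncomputable instance {V : Type} [Fintype V] (G : SimpleGraph V) : Fintype (Orient G) :=
  Fintype.ofFinite _

theorem ncard_lot {V : Type} [Fintype V] (P : LOT V → Prop) :
    {Γ : LOT V | P Γ}.ncard = ∑ G : TreeOn V, ∑ o : Orient G.1,
      {label : G.1.edgeSet → V | P (mkLOT G o label)}.ncard := by
  rw [← Nat.card_coe_set_eq]
  have h1 : Nat.card {Γ : LOT V | P Γ} = Nat.card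
      (Σ G : TreeOn V, Σ o : Orient G.1, {label : G.1.edgeSet → V // P (mkLOT G o label)}) :=
    Nat.card_congr (lotSubEquiv P)
  rw [h1, Nat.card_sigma]
  refine Finset.sum_congr rfl (fun G _ => ?_)
  rw [Nat.card_sigma]
  refine Finset.sum_congr rfl (fun o _ => ?_)
  rw [← Nat.card_coe_set_eq]
  rfl

theorem card_pairs {V : Type} [Fintype V] (G : SimpleGraph V) (e : G.edgeSet) :
    Nat.card {p : V × V // (e : Sym2 V) = s(p.1, p.2)} = 2 := by
  classical
  obtain ⟨e, he⟩ := e
  induction e using Sym2.ind with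
  | _ a b =>
    have hab : a ≠ b := G.ne_of_adj he
    have h1 : Nat.card {p : V × V // (s(a, b) : Sym2 V) = s(p.1, p.2)} =
        ({(a, b), (b, a)} : Finset (V × V)).card := by
      rw [← Nat.card_eq_finsetCard]
      refine Nat.card_congr (Equiv.subtypeEquivRight ?_)
      rintro ⟨x, y⟩
      rw [Sym2.eq_iff]
      simp only [Finset.mem_insert, Finset.mem_singleton, Prod.mk.injEq]
      constructor
      · rintro (⟨rfl, rfl⟩ | ⟨rfl, rfl⟩)
        · exact Or.inl ⟨rfl, rfl⟩
        · exact Or.inr ⟨rfl, rfl⟩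
      · rintro (⟨rfl, rfl⟩ | ⟨rfl, rfl⟩)
        · exact Or.inl ⟨rfl, rfl⟩
        · exact Or.inr ⟨rfl, rfl⟩
    show Nat.card {p : V × V // (s(a, b) : Sym2 V) = s(p.1, p.2)} = 2
    rw [h1, Finset.card_pair]
    intro h
    exact hab (congrArg Prod.fst h)

theorem card_orient {V : Type} [Fintype V] (G : SimpleGraph V) :
    Fintype.card (Orient G) = 2 ^ Nat.card G.edgeSet := by
  classical
  have h1 : Nat.card (Orient G) =
      Nat.card ((e : G.edgeSet) → {p : V × V // (e : Sym2 V) = s(p.1, p.2)}) := by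
    refine Nat.card_congr
      { toFun := fun o e => ⟨(o.1.1 e, o.1.2 e), o.2 e⟩
        invFun := fun f => ⟨(fun e => (f e).1.1, fun e => (f e).1.2), fun e => (f e).2⟩
        left_inv := fun _ => rfl
        right_inv := fun _ => rfl }
  rw [← Nat.card_eq_fintype_card, h1, Nat.card_pi]
  rw [Finset.prod_congr rfl (fun e _ => card_pairs G e)]
  rw [Finset.prod_const, Finset.card_univ, Nat.card_eq_fintype_card]

theorem card_edges {V : Type} [Fintype V] (G : SimpleGraph V) (hG : G.IsTree) :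
    Nat.card G.edgeSet + 1 = Fintype.card V := by
  classical
  have h := hG.card_edgeFinset
  rw [Nat.card_eq_fintype_card, ← SimpleGraph.edgeFinset_card]
  omega

theorem deg_le {V : Type} [Fintype V] [DecidableEq V] (G : SimpleGraph V) [Fintype G.edgeSet]
    (tail head : G.edgeSet → V) (h : ∀ e : G.edgeSet, (e : Sym2 V) = s(tail e, head e)) (v : V) :
    RandomLOT.deg tail head v ≤ (G.neighborSet v).ncard := by
  unfold RandomLOT.deg
  rw [← Set.ncard_coe_finset]
  have hadj : ∀ e : G.edgeSet, G.Adj (tail e) (head e) := by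
    intro e
    have := e.2
    rw [h e] at this
    exact this
  have key : ∀ e : G.edgeSet, (tail e = v ∨ head e = v) →
      (e : Sym2 V) = s(v, if tail e = v then head e else tail e) := by
    intro e he
    rw [h e]
    by_cases h1 : tail e = v
    · rw [if_pos h1, h1]
    · rw [if_neg h1]
      rcases he with he | he
      · exact absurd he h1
      · rw [he]
        exact Sym2.eq_swap
  refine Set.ncard_le_ncard_of_injOn (fun e => if tail e = v then head e else tail e) ?_ ?_
    (Set.toFinite _)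
  · intro e he
    rw [Finset.mem_coe, Finset.mem_filter] at he
    show G.Adj v (if tail e = v then head e else tail e)
    by_cases h1 : tail e = v
    · rw [if_pos h1]
      have := hadj e
      rw [h1] at this
      exact this
    · rw [if_neg h1]
      rcases he.2 with he | he
      · exact absurd he h1
      · have := hadj e
        rw [he] at this
        exact this.symm
  · intro e he f hf hef
    rw [Finset.mem_coe, Finset.mem_filter] at he hf
    apply Subtype.ext
    rw [key e he.2, key f hf.2]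
    exact congrArg (fun z => s(v, z)) hef

theorem conn_tree {V : Type} (G : SimpleGraph V) (hG : G.IsTree)
    (tail head : G.edgeSet → V) (h : ∀ e : G.edgeSet, (e : Sym2 V) = s(tail e, head e)) (u v : V) :
    Relation.ReflTransGen (RandomLOT.Adj tail head) u v := by
  have h1 : G.Reachable u v := hG.connected.preconnected u v
  rw [SimpleGraph.reachable_iff_reflTransGen] at h1
  have hsub : G.Adj ≤ RandomLOT.Adj tail head := by
    intro a b hab
    refine ⟨⟨s(a, b), hab⟩, ?_⟩
    have h2 := h ⟨s(a, b), hab⟩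
    rw [Sym2.eq_iff] at h2
    rcases h2 with ⟨h2, h3⟩ | ⟨h2, h3⟩
    · exact Or.inl ⟨h2.symm, h3.symm⟩
    · exact Or.inr ⟨h3.symm, h2.symm⟩
  exact Relation.ReflTransGen.mono hsub u v h1

theorem reduced_iff {V : Type} (G : TreeOn V) (o : Orient G.1) (label : G.1.edgeSet → V) :
    (mkLOT G o label).Reduced ↔ RandomLOT.Reduced o.1.1 o.1.2 label := by
  unfold LOT.Reduced RandomLOT.Reduced
  refine and_congr Iff.rfl ?_
  constructor
  · intro h e f hne hl
    exact ⟨fun h1 => h e f hne (Or.inl h1) hl, fun h1 => h e f hne (Or.inr h1) hl⟩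
  · intro h e f hne hor hl
    have := h e f hne hl
    rcases hor with h1 | h1
    · exact this.1 h1
    · exact this.2 h1

/-- there is a reduced labelling if there are enough vertices -/
theorem exists_reduced {V E : Type} [Fintype V] [DecidableEq V] [Fintype E] [DecidableEq E]
    (src tgt : E → V) (Δ : ℕ) (hdeg : ∀ v, RandomLOT.deg src tgt v ≤ Δ)
    (hV : 2 * Δ < Fintype.card V) : ∃ lab : E → V, RandomLOT.Reduced src tgt lab := by
  have hpos : 0 < Fintype.card V := by omega
  obtain ⟨v0⟩ : Nonempty V := Fintype.card_pos_iff.mp hpos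
  have key : ∀ A : Finset E, ∃ lab : E → V, (∀ e ∈ A, lab e ≠ src e ∧ lab e ≠ tgt e) ∧
      ∀ e ∈ A, ∀ f ∈ A, e ≠ f → lab e = lab f → src e ≠ src f ∧ tgt e ≠ tgt f := by
    intro A
    induction A using Finset.induction_on with
    | empty => exact ⟨fun _ => v0, by simp, by simp⟩
    | insert e A he ih =>
      obtain ⟨lab, h1, h2⟩ := ih
      obtain ⟨v, hv⟩ : ∃ v, v ∉ RandomLOT.Cnt.forb src tgt lab e := by
        by_contra hno
        push Not at hno
        have h3 : RandomLOT.Cnt.forb src tgt lab e = Finset.univ := by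
          ext v; simp [hno v]
        have h4 := RandomLOT.Cnt.card_forb_le src tgt Δ hdeg lab e
        rw [h3, Finset.card_univ] at h4
        omega
      unfold RandomLOT.Cnt.forb at hv
      simp only [Finset.mem_union, Finset.mem_insert, Finset.mem_singleton, Finset.mem_image,
        Finset.mem_erase, Finset.mem_filter, Finset.mem_univ, true_and, not_or, not_exists,
        not_and] at hv
      obtain ⟨⟨hv1, hv2⟩, hv3, hv4⟩ := hv
      have hne : ∀ f ∈ A, f ≠ e := fun f hf h => he (h ▸ hf)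
      have hk : ∀ f ∈ A, lab f = v → src e ≠ src f ∧ tgt e ≠ tgt f := by
        intro f hf hl
        constructor
        · intro h
          exact hv3 f ⟨hne f hf, Or.inl h.symm⟩ hl
        · intro h
          exact hv4 f ⟨hne f hf, Or.inr h.symm⟩ hl
      refine ⟨Function.update lab e v, ?_, ?_⟩
      · intro f hf
        rcases Finset.mem_insert.mp hf with rfl | hf
        · rw [Function.update_self]
          exact ⟨hv1, hv2⟩
        · rw [Function.update_of_ne (hne f hf)]
          exact h1 f hf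
      · intro f hf g hg hfg hl
        rcases Finset.mem_insert.mp hf with rfl | hf'
        · rcases Finset.mem_insert.mp hg with rfl | hg'
          · exact absurd rfl hfg
          · rw [Function.update_self, Function.update_of_ne (hne g hg')] at hl
            exact hk g hg' hl.symm
        · rcases Finset.mem_insert.mp hg with rfl | hg'
          · rw [Function.update_self, Function.update_of_ne (hne f hf')] at hl
            have := hk f hf' hl
            exact ⟨this.1.symm, this.2.symm⟩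
          · rw [Function.update_of_ne (hne f hf'), Function.update_of_ne (hne g hg')] at hl
            exact h2 f hf' g hg' hfg hl
  obtain ⟨lab, h1, h2⟩ := key Finset.univ
  exact ⟨lab, fun e => h1 e (Finset.mem_univ _),
    fun e f hne hl => h2 e (Finset.mem_univ _) f (Finset.mem_univ _) hne hl⟩

theorem red_lower {V E : Type} [Fintype V] [DecidableEq V] [Fintype E] [DecidableEq E]
    (src tgt : E → V) (Δ : ℕ) (hdeg : ∀ v, RandomLOT.deg src tgt v ≤ Δ)
    (hV : 2 * Δ < Fintype.card V) :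
    (Fintype.card V - 2 * Δ) ^ Fintype.card E ≤ {lab : E → V | RandomLOT.Reduced src tgt lab}.ncard := by
  classical
  obtain ⟨lab, hlab⟩ := exists_reduced src tgt Δ hdeg hV
  have h1 := RandomLOT.Cnt.card_agree_le src tgt Δ hdeg Finset.univ lab
  have h2 : 1 ≤ (RandomLOT.Cnt.agree src tgt Finset.univ lab).card := by
    rw [Nat.one_le_iff_ne_zero, ← Nat.pos_iff_ne_zero, Finset.card_pos]
    exact ⟨lab, RandomLOT.Cnt.mem_agree.mpr ⟨hlab, fun _ _ => rfl⟩⟩
  have h3 : {lab : E → V | RandomLOT.Reduced src tgt lab}.ncard =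
      (RandomLOT.Cnt.red src tgt).card := by
    rw [← Set.ncard_coe_finset]
    congr 1
    ext l
    rw [Finset.mem_coe, RandomLOT.Cnt.mem_red]
    rfl
  rw [h3, ← Finset.card_univ (α := E)]
  refine le_trans ?_ h1
  exact Nat.le_mul_of_pos_left _ h2

/-- comparison of the numbers of all and of reduced labellings -/
theorem pow_le_exp (n D : ℕ) (hD : 4 * D ≤ n) (m : ℕ) (hm : m ≤ n) :
    (n : ℝ) ^ m ≤ Real.exp (4 * D) * ((n - 2 * D : ℕ) : ℝ) ^ m := by
  rcases Nat.eq_zero_or_pos n with hn | hn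
  · subst hn
    have : m = 0 := by omega
    subst this
    simp
  have hn' : (0 : ℝ) < n := by exact_mod_cast hn
  have h1 : ((n - 2 * D : ℕ) : ℝ) = n - 2 * D := by
    rw [Nat.cast_sub (by omega)]
    push_cast
    ring
  rw [h1]
  have hD' : (4 : ℝ) * D ≤ n := by exact_mod_cast hD
  have hDn : (0 : ℝ) ≤ D := Nat.cast_nonneg D
  have hpos : (0 : ℝ) < n - 2 * D := by linarith
  have h2 : (n : ℝ) ≤ Real.exp (4 * D / n) * (n - 2 * D) := by
    have h3 := Real.add_one_le_exp (4 * (D : ℝ) / n)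
    have h4 : (n : ℝ) ≤ (4 * D / n + 1) * (n - 2 * D) := by
      have h5 : (4 * (D : ℝ) / n + 1) * (n - 2 * D) = n + 2 * D - 8 * D ^ 2 / n := by
        field_simp
        ring
      rw [h5]
      have h6 : 8 * (D : ℝ) ^ 2 / n ≤ 2 * D := by
        rw [div_le_iff₀ hn']
        nlinarith
      linarith
    exact h4.trans (mul_le_mul_of_nonneg_right h3 hpos.le)
  calc (n : ℝ) ^ m ≤ (Real.exp (4 * D / n) * (n - 2 * D)) ^ m :=
        pow_le_pow_left₀ hn'.le h2 m
    _ = Real.exp (m * (4 * D / n)) * (n - 2 * D) ^ m := by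
        rw [mul_pow, ← Real.exp_nat_mul]
    _ ≤ Real.exp (4 * D) * (n - 2 * D) ^ m := by
        refine mul_le_mul_of_nonneg_right (Real.exp_le_exp.mpr ?_) (pow_nonneg hpos.le m)
        have h7 : (m : ℝ) ≤ n := by exact_mod_cast hm
        have h8 : (m : ℝ) * (4 * D / n) = 4 * D * (m / n) := by ring
        rw [h8]
        have h9 : (m : ℝ) / n ≤ 1 := by
          rw [div_le_one hn']
          exact h7
        nlinarith

/-- number of trees with a vertex of large degree -/
theorem card_bad_trees (n D : ℕ) :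
    D ! * (Finset.univ.filter fun G : TreeOn (Fin n) =>
      ¬ ∀ v, (G.1.neighborSet v).ncard ≤ D).card ≤ n * Fintype.card (TreeOn (Fin n)) := by
  classical
  have h0 : {G : SimpleGraph (Fin n) | G.IsTree}.ncard = Fintype.card (TreeOn (Fin n)) := by
    rw [← Nat.card_coe_set_eq, ← Nat.card_eq_fintype_card]
    rfl
  have h1 : (Finset.univ.filter fun G : TreeOn (Fin n) =>
      ¬ ∀ v, (G.1.neighborSet v).ncard ≤ D) ⊆
      Finset.univ.biUnion fun v : Fin n => Finset.univ.filter fun G : TreeOn (Fin n) =>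
        D < (G.1.neighborSet v).ncard := by
    intro G hG
    rw [Finset.mem_filter] at hG
    have h2 := hG.2
    push Not at h2
    obtain ⟨v, hv⟩ := h2
    rw [Finset.mem_biUnion]
    exact ⟨v, Finset.mem_univ _, by rw [Finset.mem_filter]; exact ⟨Finset.mem_univ _, hv⟩⟩
  have h2 : ∀ v : Fin n, (Finset.univ.filter fun G : TreeOn (Fin n) =>
        D < (G.1.neighborSet v).ncard).card =
      {G : SimpleGraph (Fin n) | G.IsTree ∧ D < (G.neighborSet v).ncard}.ncard := by
    intro v
    rw [← Set.ncard_coe_finset]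
    have h3 : {G : SimpleGraph (Fin n) | G.IsTree ∧ D < (G.neighborSet v).ncard} =
        (fun G : TreeOn (Fin n) => G.1) '' ((Finset.univ.filter fun G : TreeOn (Fin n) =>
        D < (G.1.neighborSet v).ncard : Finset (TreeOn (Fin n))) : Set (TreeOn (Fin n))) := by
      ext G
      simp only [Set.mem_ofPred_eq, Set.mem_image, Finset.mem_coe, Finset.mem_filter,
        Finset.mem_univ, true_and]
      constructor
      · rintro ⟨hG, hd⟩
        exact ⟨⟨G, hG⟩, hd, rfl⟩
      · rintro ⟨G', hd, rfl⟩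
        exact ⟨G'.2, hd⟩
    rw [h3, Set.ncard_image_of_injective _ Subtype.val_injective]
  calc D ! * (Finset.univ.filter fun G : TreeOn (Fin n) =>
      ¬ ∀ v, (G.1.neighborSet v).ncard ≤ D).card
      ≤ D ! * ∑ v : Fin n, (Finset.univ.filter fun G : TreeOn (Fin n) =>
        D < (G.1.neighborSet v).ncard).card :=
        Nat.mul_le_mul_left _ ((Finset.card_le_card h1).trans Finset.card_biUnion_le)
    _ = ∑ v : Fin n, D ! * (Finset.univ.filter fun G : TreeOn (Fin n) =>
        D < (G.1.neighborSet v).ncard).card := Finset.mul_sum _ _ _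
    _ ≤ ∑ _v : Fin n, Fintype.card (TreeOn (Fin n)) := by
        refine Finset.sum_le_sum (fun v _ => ?_)
        rw [h2 v, ← h0]
        exact factorial_mul_card_le v D
    _ = n * Fintype.card (TreeOn (Fin n)) := by
        rw [Finset.sum_const, Finset.card_univ, Fintype.card_fin, smul_eq_mul]

/-- the number of all labellings of a tree -/
theorem ncard_labels_le {n : ℕ} (G : TreeOn (Fin n)) (P : (G.1.edgeSet → Fin n) → Prop) :
    {label : G.1.edgeSet → Fin n | P label}.ncard ≤ n ^ (n - 1) := by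
  classical
  have h1 := Set.ncard_le_card {label : G.1.edgeSet → Fin n | P label}
  have h2 : Nat.card (G.1.edgeSet → Fin n) = n ^ (n - 1) := by
    rw [Nat.card_fun, Nat.card_eq_fintype_card (α := Fin n), Fintype.card_fin]
    have := card_edges G.1 G.2
    rw [Fintype.card_fin] at this
    congr 1
    omega
  omega

theorem card_orient' {n : ℕ} (G : TreeOn (Fin n)) :
    Fintype.card (Orient G.1) = 2 ^ (n - 1) := by
  rw [card_orient]
  have := card_edges G.1 G.2
  rw [Fintype.card_fin] at this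
  congr 1
  omega

/-- lower bound for the number of reduced labellings of a tree with small degrees -/
theorem ncard_reduced_ge {n D : ℕ} (G : TreeOn (Fin n)) (o : Orient G.1)
    (hG : ∀ v, (G.1.neighborSet v).ncard ≤ D) (hD : 2 * D < n) :
    (n - 2 * D) ^ (n - 1) ≤ {label : G.1.edgeSet → Fin n | (mkLOT G o label).Reduced}.ncard := by
  classical
  have h1 := red_lower o.1.1 o.1.2 D
    (fun v => (deg_le G.1 o.1.1 o.1.2 o.2 v).trans (hG v)) (by rw [Fintype.card_fin]; exact hD)
  rw [Fintype.card_fin, ← Nat.card_eq_fintype_card] at h1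
  have h2 := card_edges G.1 G.2
  rw [Fintype.card_fin] at h2
  have h3 : Nat.card G.1.edgeSet = n - 1 := by omega
  rw [h3] at h1
  have h4 : {label : G.1.edgeSet → Fin n | (mkLOT G o label).Reduced} =
      {lab | RandomLOT.Reduced o.1.1 o.1.2 lab} := by
    ext lab
    exact reduced_iff G o lab
  rw [h4]
  exact h1

theorem main_ineq (Q : ∀ n : ℕ, LOT (Fin n) → Prop) (C K n D : ℕ)
    (hQ : ∀ (Δ : ℕ) (G : TreeOn (Fin n)) (_ : ∀ v, (G.1.neighborSet v).ncard ≤ Δ)
      (o : Orient G.1),
      (n - 1) * {label : G.1.edgeSet → Fin n |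
        (mkLOT G o label).Reduced ∧ Q n (mkLOT G o label)}.ncard ≤
        C * Δ ^ K * {label : G.1.edgeSet → Fin n | (mkLOT G o label).Reduced}.ncard)
    (hn : 1 ≤ n) (hD : 4 * D ≤ n) (hfac : 2 * n ≤ D !) :
    ((n - 1 : ℕ) : ℝ) * {Γ : LOT (Fin n) | Γ.Reduced ∧ Q n Γ}.ncard ≤
      (C * D ^ K + 2 * n ^ 2 * Real.exp (4 * D) / D !) *
        {Γ : LOT (Fin n) | Γ.Reduced}.ncard := by
  classical
  rw [ncard_lot, ncard_lot]
  push_cast
  set a : TreeOn (Fin n) → ℝ := fun G => ∑ o : Orient G.1,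
    ({label : G.1.edgeSet → Fin n |
        (mkLOT G o label).Reduced ∧ Q n (mkLOT G o label)}.ncard : ℝ) with ha
  set r : TreeOn (Fin n) → ℝ := fun G => ∑ o : Orient G.1,
    ({label : G.1.edgeSet → Fin n | (mkLOT G o label).Reduced}.ncard : ℝ) with hr
  have hr0 : ∀ G, 0 ≤ r G := fun G => Finset.sum_nonneg (fun o _ => Nat.cast_nonneg _)
  set good := Finset.univ.filter fun G : TreeOn (Fin n) => ∀ v, (G.1.neighborSet v).ncard ≤ D
    with hgood
  set bad := Finset.univ.filter fun G : TreeOn (Fin n) => ¬ ∀ v, (G.1.neighborSet v).ncard ≤ D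
    with hbad
  have hsplit : ∀ f : TreeOn (Fin n) → ℝ, ∑ G, f G = ∑ G ∈ good, f G + ∑ G ∈ bad, f G := fun f =>
    (Finset.sum_filter_add_sum_filter_not _ _ _).symm
  have hcard : Fintype.card (TreeOn (Fin n)) = good.card + bad.card := by
    rw [← Finset.card_univ]
    exact (Finset.card_filter_add_card_filter_not _).symm
  -- the good trees
  have h1 : ∀ G ∈ good, ((n - 1 : ℕ) : ℝ) * a G ≤ C * D ^ K * r G := by
    intro G hG
    rw [hgood, Finset.mem_filter] at hG
    rw [ha, hr]
    simp only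
    rw [Finset.mul_sum, Finset.mul_sum]
    refine Finset.sum_le_sum (fun o _ => ?_)
    have := hQ D G hG.2 o
    exact_mod_cast this
  have h2 : ∀ G, a G ≤ 2 ^ (n - 1) * (n : ℝ) ^ (n - 1) := by
    intro G
    rw [ha]
    simp only
    refine (Finset.sum_le_card_nsmul _ _ ((n : ℝ) ^ (n - 1)) ?_).trans (le_of_eq ?_)
    · intro o _
      exact_mod_cast ncard_labels_le G _
    · rw [Finset.card_univ, card_orient', nsmul_eq_mul]
      push_cast
      ring
  have h3 : ∀ G ∈ good, (2 : ℝ) ^ (n - 1) * ((n - 2 * D : ℕ) : ℝ) ^ (n - 1) ≤ r G := by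
    intro G hG
    rw [hgood, Finset.mem_filter] at hG
    rw [hr]
    simp only
    refine le_trans (le_of_eq ?_) (Finset.card_nsmul_le_sum _ _ (((n - 2 * D : ℕ) : ℝ) ^ (n - 1)) ?_)
    · rw [Finset.card_univ, card_orient', nsmul_eq_mul]
      push_cast
      ring
    · intro o _
      exact_mod_cast ncard_reduced_ge G o hG.2 (by omega)
  -- the numbers of good and of bad trees
  have h4 := card_bad_trees n D
  rw [← hbad, hcard] at h4
  have h5 : bad.card ≤ good.card := by
    have h6 : 2 * n * bad.card ≤ n * (good.card + bad.card) :=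
      (Nat.mul_le_mul_right _ hfac).trans h4
    have h7 : 2 * bad.card ≤ good.card + bad.card := by
      refine Nat.le_of_mul_le_mul_left ?_ hn
      calc n * (2 * bad.card) = 2 * n * bad.card := by ring
        _ ≤ _ := h6
    omega
  have h8 : (bad.card : ℝ) ≤ 2 * n * good.card / D ! := by
    rw [le_div_iff₀ (by exact_mod_cast Nat.factorial_pos D)]
    have h9 : D ! * bad.card ≤ n * (2 * good.card) := h4.trans (Nat.mul_le_mul_left _ (by omega))
    have h10 : ((D ! * bad.card : ℕ) : ℝ) ≤ ((n * (2 * good.card) : ℕ) : ℝ) := by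
      exact_mod_cast h9
    push_cast at h10
    linarith
  have hexp := pow_le_exp n D hD (n - 1) (by omega)
  have hgoodsum : (good.card : ℝ) * (2 ^ (n - 1) * ((n - 2 * D : ℕ) : ℝ) ^ (n - 1)) ≤
      ∑ G ∈ good, r G := by
    have := Finset.card_nsmul_le_sum good r _ h3
    rwa [nsmul_eq_mul] at this
  have hrle : ∑ G ∈ good, r G ≤ ∑ G, r G :=
    Finset.sum_le_univ_sum_of_nonneg hr0
  have hA : ∑ G ∈ good, ((n - 1 : ℕ) : ℝ) * a G ≤ C * D ^ K * ∑ G, r G := by
    refine (Finset.sum_le_sum h1).trans ?_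
    rw [← Finset.mul_sum]
    exact mul_le_mul_of_nonneg_left hrle (by positivity)
  have hB : ∑ G ∈ bad, ((n - 1 : ℕ) : ℝ) * a G ≤
      2 * n ^ 2 * Real.exp (4 * D) / D ! * ∑ G, r G := by
    have hnn : ((n - 1 : ℕ) : ℝ) ≤ n := by exact_mod_cast Nat.sub_le n 1
    calc ∑ G ∈ bad, ((n - 1 : ℕ) : ℝ) * a G
        ≤ ∑ _G ∈ bad, (n : ℝ) * (2 ^ (n - 1) * (n : ℝ) ^ (n - 1)) := by
          refine Finset.sum_le_sum (fun G _ => ?_)
          exact mul_le_mul hnn (h2 G) (Finset.sum_nonneg (fun o _ => Nat.cast_nonneg _))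
            (Nat.cast_nonneg _)
      _ = bad.card * ((n : ℝ) * (2 ^ (n - 1) * (n : ℝ) ^ (n - 1))) := by
          rw [Finset.sum_const, nsmul_eq_mul]
      _ ≤ (2 * n * good.card / D !) * ((n : ℝ) * (2 ^ (n - 1) * (n : ℝ) ^ (n - 1))) :=
          mul_le_mul_of_nonneg_right h8 (by positivity)
      _ ≤ (2 * n * good.card / D !) * ((n : ℝ) * (2 ^ (n - 1) *
            (Real.exp (4 * D) * ((n - 2 * D : ℕ) : ℝ) ^ (n - 1)))) := by
          refine mul_le_mul_of_nonneg_left ?_ (by positivity)
          refine mul_le_mul_of_nonneg_left ?_ (by positivity)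
          exact mul_le_mul_of_nonneg_left hexp (by positivity)
      _ = 2 * n ^ 2 * Real.exp (4 * D) / D ! *
            (good.card * (2 ^ (n - 1) * ((n - 2 * D : ℕ) : ℝ) ^ (n - 1))) := by
          ring
      _ ≤ 2 * n ^ 2 * Real.exp (4 * D) / D ! * ∑ G, r G :=
          mul_le_mul_of_nonneg_left (hgoodsum.trans hrle) (by positivity)
  rw [Finset.mul_sum, hsplit, add_mul]
  exact add_le_add hA hB

/-- If a property `Q` is rare among the reduced labellings of every oriented tree, with a bound that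
is polynomial in the maximal degree, then it is rare among all reduced labelled oriented trees. -/
theorem rare (Q : ∀ n : ℕ, LOT (Fin n) → Prop) (C K : ℕ)
    (hQ : ∀ (n Δ : ℕ) (G : TreeOn (Fin n)) (_ : ∀ v, (G.1.neighborSet v).ncard ≤ Δ)
      (o : Orient G.1),
      (n - 1) * {label : G.1.edgeSet → Fin n |
        (mkLOT G o label).Reduced ∧ Q n (mkLOT G o label)}.ncard ≤
        C * Δ ^ K * {label : G.1.edgeSet → Fin n | (mkLOT G o label).Reduced}.ncard) :
    ∀ᶠ n : ℕ in atTop, ({Γ : LOT (Fin n) | Γ.Reduced ∧ Q n Γ}.ncard : ℝ) ≤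
      (Real.log n) ^ (K + 1) / n * {Γ : LOT (Fin n) | Γ.Reduced}.ncard := by
  have hlog : Tendsto (fun n : ℕ => Real.log (n : ℝ)) atTop atTop :=
    Real.tendsto_log_atTop.comp tendsto_natCast_atTop_atTop
  have hfl : Tendsto (fun n : ℕ => ⌊Real.log (n : ℝ)⌋₊) atTop atTop :=
    tendsto_nat_floor_atTop.comp hlog
  have hfac : ∀ᶠ D : ℕ in atTop, (Real.exp 6) ^ D / (D ! : ℝ) < 1 / (2 * Real.exp 6) :=
    (FloorSemiring.tendsto_pow_div_factorial_atTop (Real.exp 6)).eventually_lt_const (by positivity)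
  have hlin : ∀ᶠ n : ℕ in atTop, Real.log (n : ℝ) ≤ (1 / 4) * (n : ℝ) := by
    have h1 := (Real.isLittleO_log_id_atTop.bound (show (0 : ℝ) < 1 / 4 by norm_num))
    have h2 := tendsto_natCast_atTop_atTop (R := ℝ) |>.eventually h1
    filter_upwards [h2] with n hn
    refine (le_abs_self _).trans ?_
    rw [Real.norm_eq_abs] at hn
    simpa using hn
  filter_upwards [eventually_ge_atTop 2, hfl.eventually hfac, hlin,
    hlog.eventually_ge_atTop (2 * (C + 1))] with n hn2 hf hl hL
  set L := Real.log (n : ℝ) with hLdef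
  set D := ⌊L⌋₊ with hDdef
  have hC : (0 : ℝ) ≤ C := Nat.cast_nonneg C
  have hL1 : 1 ≤ L := by linarith
  have hL0 : 0 ≤ L := by linarith
  have hn0 : (0 : ℝ) < n := by exact_mod_cast (show 0 < n by omega)
  have hDL : (D : ℝ) ≤ L := Nat.floor_le hL0
  have hLD : L < D + 1 := Nat.lt_floor_add_one L
  have hD4 : 4 * D ≤ n := by
    have : (4 : ℝ) * D ≤ n := by linarith
    exact_mod_cast this
  have hnexp : (n : ℝ) = Real.exp L := (Real.exp_log hn0).symm
  have hDf : (0 : ℝ) < (D ! : ℝ) := by exact_mod_cast Nat.factorial_pos D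
  have hbig : 2 * (n : ℝ) ^ 6 ≤ D ! := by
    have h1 : (n : ℝ) ^ 6 ≤ Real.exp 6 * Real.exp 6 ^ D := by
      rw [hnexp, ← Real.exp_nat_mul, ← Real.exp_nat_mul, ← Real.exp_add]
      refine Real.exp_le_exp.mpr ?_
      push_cast
      linarith
    have h2 : Real.exp 6 ^ D < 1 / (2 * Real.exp 6) * D ! := by
      rw [div_lt_iff₀ hDf] at hf
      exact hf
    have h3 : Real.exp 6 * Real.exp 6 ^ D ≤ Real.exp 6 * (1 / (2 * Real.exp 6) * D !) :=
      mul_le_mul_of_nonneg_left h2.le (Real.exp_pos 6).le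
    have h4 : Real.exp 6 * (1 / (2 * Real.exp 6) * D !) = (D ! : ℝ) / 2 := by
      field_simp
    linarith
  have hn1 : (1 : ℝ) ≤ n := by exact_mod_cast (show 1 ≤ n by omega)
  have hfac2 : 2 * n ≤ D ! := by
    have h1 : (n : ℝ) ≤ (n : ℝ) ^ 6 := by
      calc (n : ℝ) = (n : ℝ) ^ 1 := (pow_one _).symm
        _ ≤ (n : ℝ) ^ 6 := pow_le_pow_right₀ hn1 (by norm_num)
    have h2 : 2 * (n : ℝ) ≤ D ! := by linarith
    exact_mod_cast h2
  have hmain := main_ineq Q C K n D (hQ n) (by omega) hD4 hfac2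
  set A := ({Γ : LOT (Fin n) | Γ.Reduced ∧ Q n Γ}.ncard : ℝ) with hA
  set B := ({Γ : LOT (Fin n) | Γ.Reduced}.ncard : ℝ) with hB
  have hA0 : 0 ≤ A := Nat.cast_nonneg _
  have hB0 : 0 ≤ B := Nat.cast_nonneg _
  have he : 2 * (n : ℝ) ^ 2 * Real.exp (4 * D) / D ! ≤ 1 := by
    rw [div_le_one hDf]
    refine le_trans ?_ hbig
    have h1 : Real.exp (4 * D) ≤ (n : ℝ) ^ 4 := by
      rw [hnexp, ← Real.exp_nat_mul]
      refine Real.exp_le_exp.mpr ?_
      push_cast
      linarith
    calc 2 * (n : ℝ) ^ 2 * Real.exp (4 * D) ≤ 2 * (n : ℝ) ^ 2 * (n : ℝ) ^ 4 :=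
          mul_le_mul_of_nonneg_left h1 (by positivity)
      _ = 2 * (n : ℝ) ^ 6 := by ring
  have hcoef : (C : ℝ) * D ^ K + 2 * n ^ 2 * Real.exp (4 * D) / D ! ≤ L ^ (K + 1) / 2 := by
    have h1 : (D : ℝ) ^ K ≤ L ^ K := pow_le_pow_left₀ (Nat.cast_nonneg D) hDL K
    have h2 : (1 : ℝ) ≤ L ^ K := one_le_pow₀ hL1
    have h3 : (C : ℝ) * D ^ K ≤ C * L ^ K := mul_le_mul_of_nonneg_left h1 hC
    have h4 : (C + 1) * L ^ K ≤ L ^ (K + 1) / 2 := by
      rw [pow_succ]
      have h5 : (0 : ℝ) ≤ L ^ K := by positivity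
      nlinarith
    linarith
  have hn12 : (n : ℝ) / 2 ≤ ((n - 1 : ℕ) : ℝ) := by
    rw [Nat.cast_sub (by omega)]
    have : (2 : ℝ) ≤ n := by exact_mod_cast hn2
    push_cast
    linarith
  have h6 : (n : ℝ) / 2 * A ≤ L ^ (K + 1) / 2 * B := by
    calc (n : ℝ) / 2 * A ≤ ((n - 1 : ℕ) : ℝ) * A := mul_le_mul_of_nonneg_right hn12 hA0
      _ ≤ _ := hmain
      _ ≤ L ^ (K + 1) / 2 * B := mul_le_mul_of_nonneg_right hcoef hB0
  rw [div_mul_eq_mul_div, le_div_iff₀ hn0]
  linarith

end Pool.Agent.WT
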