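import Pool.Agent.WT.Lot
import Pool.Agent.WT.Random

/-!
# Almost all reduced labelled oriented trees are aspherical: assembly
-/

set_option autoImplicit false

open scoped BigOperators
open Filter

namespace Pool.Agent.WT

open Pool.Agent

theorem sparse_iff {V E : Type} [DecidableEq V] (tail head label : E → V) :
    Link.Sparse (hub label) (RandomLOT.base tail head) ↔ RandomLOT.Sparse 8 tail head label := by
  unfold Link.Sparse RandomLOT.Sparse Link.nbh
  refine forall_congr' (fun S => forall_congr' (fun _ => ?_))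
  rw [Finset.union_comm]
  rfl

/-- the bound for one oriented tree -/
theorem per_tree {V : Type} [Fintype V] (Δ : ℕ) (G : TreeOn V)
    (hG : ∀ v, (G.1.neighborSet v).ncard ≤ Δ) (o : Orient G.1) :
    (Fintype.card V - 1) * {label : G.1.edgeSet → V |
      (mkLOT G o label).Reduced ∧ ¬ (mkLOT G o label).SubAspherical}.ncard ≤
        RandomLOT.Cnt.Ctot 8 * Δ ^ 8 *
          {label : G.1.edgeSet → V | (mkLOT G o label).Reduced}.ncard := by
  classical
  have hE := card_edges G.1 G.2
  rw [Nat.card_eq_fintype_card] at hE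
  have h1 := RandomLOT.Cnt.card_nsp_le (src := o.1.1) (tgt := o.1.2) 8 Δ hE.symm
    (conn_tree G.1 G.2 o.1.1 o.1.2 o.2)
    (fun v => (deg_le G.1 o.1.1 o.1.2 o.2 v).trans (hG v))
  have h2 : {label : G.1.edgeSet → V | (mkLOT G o label).Reduced}.ncard =
      (RandomLOT.Cnt.red o.1.1 o.1.2).card := by
    rw [← Set.ncard_coe_finset]
    congr 1
    ext l
    rw [Finset.mem_coe, RandomLOT.Cnt.mem_red]
    exact reduced_iff G o l
  have h3 : {label : G.1.edgeSet → V |
      (mkLOT G o label).Reduced ∧ ¬ (mkLOT G o label).SubAspherical}.ncard ≤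
      (RandomLOT.Cnt.nsp 8 o.1.1 o.1.2).card := by
    rw [← Set.ncard_coe_finset]
    refine Set.ncard_le_ncard ?_ (Set.toFinite _)
    rintro l ⟨hl1, hl2⟩
    rw [Finset.mem_coe]
    unfold RandomLOT.Cnt.nsp
    rw [Finset.mem_filter]
    refine ⟨Finset.mem_univ _, (reduced_iff G o l).mp hl1, ?_⟩
    intro hs
    apply hl2
    refine subAspherical_of_sparse (mkLOT G o l) hl1 ?_
    exact (sparse_iff o.1.1 o.1.2 l).mpr hs
  rw [h2]
  have h4 : Fintype.card V - 1 = Fintype.card G.1.edgeSet := by omega
  rw [h4]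
  exact (Nat.mul_le_mul_left _ h3).trans h1

end Pool.Agent.WT
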