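import Pool.Agent.RandomLOT.Defs

/-!
# Sparse labelled oriented graphs that are not reduced: combinatorics

In a sparse labelled oriented graph the edges whose label is one of their ends, and the pairs of edges
with a common label and a common tail (or head), are pairwise disjoint. Dropping these edges, and one
edge of every pair, and identifying the vertices that become equal in the group, gives a reduced
labelled oriented graph that is still sparse.
-/

set_option autoImplicit false
set_option linter.unusedSectionVars false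

open scoped BigOperators

namespace Pool.Agent.WT.Glue

open Pool.Agent.RandomLOT

variable {V E : Type}

/-- the label of `e` is the end `(e, !c)` -/
def IsL (tail head label : E → V) (e : E) (c : Bool) : Prop := label e = base tail head (e, !c)

/-- two edges with the same label and a common end on the side `!c` -/
def IsF (tail head label : E → V) (e f : E) (c : Bool) : Prop :=
  e ≠ f ∧ label e = label f ∧ base tail head (e, !c) = base tail head (f, !c)

theorem IsF.symm {tail head label : E → V} {e f : E} {c : Bool} (h : IsF tail head label e f c) :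
    IsF tail head label f e c := ⟨h.1.symm, h.2.1.symm, h.2.2.symm⟩

theorem base_cases (tail head : E → V) (e : E) (c b : Bool) :
    base tail head (e, b) = base tail head (e, c) ∨
      base tail head (e, b) = base tail head (e, !c) := by
  cases c <;> cases b <;> simp

variable [DecidableEq V]

/-- the vertices of a set of half-edges -/
def nv (tail head label : E → V) (S : Finset (E × Bool)) : Finset V :=
  S.image (base tail head) ∪ S.image (fun h => label h.1)

theorem mem_nv {tail head label : E → V} {S : Finset (E × Bool)} {v : V} :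
    v ∈ nv tail head label S ↔ ∃ h ∈ S, base tail head h = v ∨ label h.1 = v := by
  unfold nv
  rw [Finset.mem_union, Finset.mem_image, Finset.mem_image]
  constructor
  · rintro (⟨h, h1, h2⟩ | ⟨h, h1, h2⟩)
    · exact ⟨h, h1, Or.inl h2⟩
    · exact ⟨h, h1, Or.inr h2⟩
  · rintro ⟨h, h1, h2 | h2⟩
    · exact Or.inl ⟨h, h1, h2⟩
    · exact Or.inr ⟨h, h1, h2⟩

/-- the vertices of a set of edges -/
def ns (tail head label : E → V) (P : Finset E) : Finset V :=
  nv tail head label (P ×ˢ (Finset.univ : Finset Bool))

theorem mem_ns {tail head label : E → V} {P : Finset E} {v : V} :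
    v ∈ ns tail head label P ↔ ∃ e ∈ P, (∃ b, base tail head (e, b) = v) ∨ label e = v := by
  unfold ns
  rw [mem_nv]
  constructor
  · rintro ⟨⟨e, b⟩, h1, h2⟩
    rw [Finset.mem_product] at h1
    rcases h2 with h2 | h2
    · exact ⟨e, h1.1, Or.inl ⟨b, h2⟩⟩
    · exact ⟨e, h1.1, Or.inr h2⟩
  · rintro ⟨e, he, ⟨b, hb⟩ | hl⟩
    · exact ⟨(e, b), Finset.mem_product.mpr ⟨he, Finset.mem_univ _⟩, Or.inl hb⟩
    · exact ⟨(e, true), Finset.mem_product.mpr ⟨he, Finset.mem_univ _⟩, Or.inr hl⟩

section Sparse

variable {tail head label : E → V} {T : ℕ} (hsp : Sparse T tail head label)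

include hsp

theorem card_ns_ge (P : Finset E) (hP : 2 * P.card ≤ T) :
    2 * P.card ≤ (ns tail head label P).card := by
  have h := hsp (P ×ˢ (Finset.univ : Finset Bool)) (by
    rw [Finset.card_product, Finset.card_univ, Fintype.card_bool]; omega)
  rw [Finset.card_product, Finset.card_univ, Fintype.card_bool] at h
  rw [mul_comm]
  exact h

/-- a set of edges whose vertices are covered by a small set -/
theorem cover_le (P : Finset E) (hP : 2 * P.card ≤ T) (W : Finset V)
    (hW : ns tail head label P ⊆ W) : 2 * P.card ≤ W.card :=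
  (card_ns_ge hsp P hP).trans (Finset.card_le_card hW)

theorem disjoint_ns [DecidableEq E] (P Q : Finset E) (hPQ : Disjoint P Q)
    (h1 : (ns tail head label P).card ≤ 2 * P.card)
    (h2 : (ns tail head label Q).card ≤ 2 * Q.card) (hT : 2 * P.card + 2 * Q.card ≤ T) :
    Disjoint (ns tail head label P) (ns tail head label Q) := by
  rw [Finset.disjoint_iff_inter_eq_empty, ← Finset.card_eq_zero]
  have h3 := cover_le hsp (P ∪ Q) (by rw [Finset.card_union_of_disjoint hPQ]; omega)
    (ns tail head label P ∪ ns tail head label Q) (by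
      intro v hv
      rw [mem_ns] at hv
      obtain ⟨e, he, h⟩ := hv
      rw [Finset.mem_union]
      rcases Finset.mem_union.mp he with he | he
      · exact Or.inl (mem_ns.mpr ⟨e, he, h⟩)
      · exact Or.inr (mem_ns.mpr ⟨e, he, h⟩))
  rw [Finset.card_union_of_disjoint hPQ] at h3
  have h4 := Finset.card_union_add_card_inter (ns tail head label P) (ns tail head label Q)
  omega

end Sparse

/-- vertices of an edge whose label is an end -/
theorem ns_L {tail head label : E → V} {e : E} {c : Bool} (h : IsL tail head label e c) :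
    ns tail head label {e} ⊆ {base tail head (e, c), label e} := by
  intro v hv
  rw [mem_ns] at hv
  obtain ⟨e', he', hv⟩ := hv
  rw [Finset.mem_singleton] at he'
  subst he'
  rw [Finset.mem_insert, Finset.mem_singleton]
  rcases hv with ⟨b, rfl⟩ | rfl
  · rcases base_cases tail head e' c b with hb | hb
    · exact Or.inl hb
    · exact Or.inr (hb.trans h.symm)
  · exact Or.inr rfl

theorem ns_F [DecidableEq E] {tail head label : E → V} {e f : E} {c : Bool}
    (h : IsF tail head label e f c) :
    ns tail head label {e, f} ⊆ {base tail head (e, c), base tail head (f, c), label e,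
      base tail head (e, !c)} := by
  intro v hv
  rw [mem_ns] at hv
  obtain ⟨e', he', hv⟩ := hv
  rw [Finset.mem_insert, Finset.mem_singleton] at he'
  simp only [Finset.mem_insert, Finset.mem_singleton]
  rcases he' with rfl | rfl
  · rcases hv with ⟨b, rfl⟩ | rfl
    · rcases base_cases tail head e' c b with hb | hb
      · exact Or.inl hb
      · exact Or.inr (Or.inr (Or.inr hb))
    · exact Or.inr (Or.inr (Or.inl rfl))
  · rcases hv with ⟨b, rfl⟩ | rfl
    · rcases base_cases tail head e' c b with hb | hb
      · exact Or.inr (Or.inl hb)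
      · exact Or.inr (Or.inr (Or.inr (hb.trans h.2.2.symm)))
    · exact Or.inr (Or.inr (Or.inl h.2.1.symm))

theorem card4_ne {a b c d : V} (h : 4 ≤ ({a, b, c, d} : Finset V).card) :
    a ≠ b ∧ a ≠ c ∧ a ≠ d ∧ b ≠ c ∧ b ≠ d ∧ c ≠ d := by
  have h3 : ∀ x y z : V, ({x, y, z} : Finset V).card ≤ 3 := fun x y z => Finset.card_le_three
  refine ⟨?_, ?_, ?_, ?_, ?_, ?_⟩
  · rintro rfl
    have := h3 a c d
    rw [Finset.insert_eq_of_mem (by simp)] at h
    omega
  · rintro rfl
    have := h3 b a d
    rw [Finset.insert_eq_of_mem (by simp)] at h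
    omega
  · rintro rfl
    have := h3 b c a
    rw [Finset.insert_eq_of_mem (by simp)] at h
    omega
  · rintro rfl
    have := h3 a b d
    rw [Finset.insert_eq_of_mem (a := b) (s := {b, d}) (by simp)] at h
    have := Finset.card_insert_le a ({b, d} : Finset V)
    have := Finset.card_le_two (a := b) (b := d)
    omega
  · rintro rfl
    rw [Finset.insert_eq_of_mem (a := b) (s := {c, b}) (by simp)] at h
    have := Finset.card_insert_le a ({c, b} : Finset V)
    have := Finset.card_le_two (a := c) (b := b)
    omega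
  · rintro rfl
    rw [Finset.insert_eq_of_mem (a := c) (s := {c}) (by simp)] at h
    have := Finset.card_insert_le a ({b, c} : Finset V)
    have := Finset.card_le_two (a := b) (b := c)
    omega

theorem card2_ne {a b : V} (h : 2 ≤ ({a, b} : Finset V).card) : a ≠ b := by
  rintro rfl
  simp at h

section Sparse

variable [DecidableEq E] {tail head label : E → V} {T : ℕ} (hsp : Sparse T tail head label)
  (hT : 8 ≤ T)

include hsp hT

theorem not_L_F {e f : E} {c c' : Bool} (hL : IsL tail head label e c)
    (hF : IsF tail head label e f c') : False := by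
  have h1 := cover_le hsp {e, f} (by rw [Finset.card_pair hF.1]; omega) _ (ns_F hF)
  rw [Finset.card_pair hF.1] at h1
  obtain ⟨_, h2, _, _, _, h3⟩ := card4_ne h1
  rcases base_cases tail head e c' (!c) with h | h
  · exact h2 (h.symm.trans hL.symm)
  · exact h3 (hL.trans h)

theorem F_unique {e f f' : E} {c c' : Bool} (h1 : IsF tail head label e f c)
    (h2 : IsF tail head label e f' c') : f = f' := by
  by_contra hne
  have hcard : ({e, f, f'} : Finset E).card = 3 := Finset.card_eq_three.mpr
    ⟨e, f, f', h1.1, h2.1, hne, rfl⟩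
  have h3 := cover_le hsp {e, f, f'} (by rw [hcard]; omega)
    {label e, base tail head (e, c), base tail head (e, !c), base tail head (f, c),
      base tail head (f', c')} (by
    intro v hv
    rw [mem_ns] at hv
    obtain ⟨e', he', hv⟩ := hv
    simp only [Finset.mem_insert, Finset.mem_singleton] at he' ⊢
    rcases he' with rfl | rfl | rfl
    · rcases hv with ⟨b, rfl⟩ | rfl
      · rcases base_cases tail head e' c b with hb | hb
        · exact Or.inr (Or.inl hb)
        · exact Or.inr (Or.inr (Or.inl hb))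
      · exact Or.inl rfl
    · rcases hv with ⟨b, rfl⟩ | rfl
      · rcases base_cases tail head e' c b with hb | hb
        · exact Or.inr (Or.inr (Or.inr (Or.inl hb)))
        · exact Or.inr (Or.inr (Or.inl (hb.trans h1.2.2.symm)))
      · exact Or.inl h1.2.1.symm
    · rcases hv with ⟨b, rfl⟩ | rfl
      · rcases base_cases tail head e' c' b with hb | hb
        · exact Or.inr (Or.inr (Or.inr (Or.inr hb)))
        · rw [hb, ← h2.2.2]
          rcases base_cases tail head e c (!c') with hb' | hb'
          · exact Or.inr (Or.inl hb')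
          · exact Or.inr (Or.inr (Or.inl hb'))
      · exact Or.inl h2.2.1.symm)
  rw [hcard] at h3
  have h4 : ({label e, base tail head (e, c), base tail head (e, !c), base tail head (f, c),
      base tail head (f', c')} : Finset V).card ≤ 5 := Finset.card_le_five
  omega

end Sparse

/-- A choice of edges to be dropped: all edges whose label is an end, and one edge of every pair with
the same label and a common end. -/
structure Drop [DecidableEq E] (tail head label : E → V) where
  D : Finset E
  k : E → E
  b : E → Bool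
  p1 : ∀ e c, IsL tail head label e c → e ∈ D
  p2 : ∀ e f c, IsF tail head label e f c → e ∈ D ∨ f ∈ D
  p3 : ∀ d ∈ D, (IsL tail head label d (b d) ∧ k d = d) ∨
    (IsF tail head label d (k d) (b d) ∧ k d ∉ D)

theorem exists_drop [DecidableEq E] [Fintype E] {tail head label : E → V} {T : ℕ}
    (hsp : Sparse T tail head label) (hT : 8 ≤ T) : Nonempty (Drop tail head label) := by
  classical
  let ord : E → ℕ := fun e => (Fintype.equivFin E e : ℕ)
  have hord : ∀ e f, ord e = ord f → e = f := by
    intro e f h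
    exact (Fintype.equivFin E).injective (Fin.ext h)
  have hch : ∀ e : E, ∃ p : E × Bool,
      ((∃ f c, IsF tail head label e f c ∧ ord f < ord e) →
        IsF tail head label e p.1 p.2 ∧ ord p.1 < ord e) ∧
      (¬ (∃ f c, IsF tail head label e f c ∧ ord f < ord e) → (∃ c, IsL tail head label e c) →
        IsL tail head label e p.2 ∧ p.1 = e) := by
    intro e
    by_cases h : ∃ f c, IsF tail head label e f c ∧ ord f < ord e
    · obtain ⟨f, c, h1⟩ := h
      exact ⟨(f, c), fun _ => h1, fun h2 => absurd ⟨f, c, h1⟩ h2⟩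
    · by_cases h' : ∃ c, IsL tail head label e c
      · obtain ⟨c, hc⟩ := h'
        exact ⟨(e, c), fun h1 => absurd h1 h, fun _ _ => ⟨hc, rfl⟩⟩
      · exact ⟨(e, true), fun h1 => absurd h1 h, fun _ h1 => absurd h1 h'⟩
  choose p hp1 hp2 using hch
  refine ⟨{ D := Finset.univ.filter fun e => (∃ c, IsL tail head label e c) ∨
              ∃ f c, IsF tail head label e f c ∧ ord f < ord e
            k := fun e => (p e).1
            b := fun e => (p e).2
            p1 := ?_
            p2 := ?_
            p3 := ?_ }⟩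
  · intro e c h
    rw [Finset.mem_filter]
    exact ⟨Finset.mem_univ _, Or.inl ⟨c, h⟩⟩
  · intro e f c h
    rw [Finset.mem_filter, Finset.mem_filter]
    rcases lt_trichotomy (ord e) (ord f) with h1 | h1 | h1
    · exact Or.inr ⟨Finset.mem_univ _, Or.inr ⟨e, c, h.symm, h1⟩⟩
    · exact absurd (hord e f h1) h.1
    · exact Or.inl ⟨Finset.mem_univ _, Or.inr ⟨f, c, h, h1⟩⟩
  · intro d hd
    rw [Finset.mem_filter] at hd
    by_cases h : ∃ f c, IsF tail head label d f c ∧ ord f < ord d
    · right
      obtain ⟨h1, h2⟩ := hp1 d h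
      refine ⟨h1, ?_⟩
      rw [Finset.mem_filter]
      rintro ⟨_, ⟨c, hc⟩ | ⟨f, c, hf, hlt⟩⟩
      · exact not_L_F hsp hT hc h1.symm
      · have := F_unique hsp hT h1.symm hf
        rw [← this] at hlt
        omega
    · left
      rcases hd.2 with h1 | h1
      · exact hp2 d h h1
      · exact absurd h1 h

namespace Drop

variable [DecidableEq E] {tail head label : E → V} (δ : Drop tail head label)

/-- the vertex to be removed -/
def y (d : E) : V := base tail head (d, δ.b d)

/-- the vertex that replaces it -/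
def x (d : E) : V := if δ.k d = d then label d else base tail head (δ.k d, δ.b d)

/-- the vertices of the pair of `d` -/
def W (d : E) : Finset V := ns tail head label {d, δ.k d}

theorem x_L {d : E} (h : δ.k d = d) : δ.x d = label d := if_pos h

theorem x_F {d : E} (h : δ.k d ≠ d) : δ.x d = base tail head (δ.k d, δ.b d) := if_neg h

theorem y_mem (d : E) : δ.y d ∈ δ.W d :=
  mem_ns.mpr ⟨d, Finset.mem_insert_self _ _, Or.inl ⟨_, rfl⟩⟩

theorem base_mem (d : E) (b : Bool) : base tail head (d, b) ∈ δ.W d :=
  mem_ns.mpr ⟨d, Finset.mem_insert_self _ _, Or.inl ⟨_, rfl⟩⟩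

theorem label_mem (d : E) : label d ∈ δ.W d :=
  mem_ns.mpr ⟨d, Finset.mem_insert_self _ _, Or.inr rfl⟩

theorem base_mem' (d : E) (b : Bool) : base tail head (δ.k d, b) ∈ δ.W d :=
  mem_ns.mpr ⟨δ.k d, Finset.mem_insert_of_mem (Finset.mem_singleton_self _), Or.inl ⟨_, rfl⟩⟩

theorem label_mem' (d : E) : label (δ.k d) ∈ δ.W d :=
  mem_ns.mpr ⟨δ.k d, Finset.mem_insert_of_mem (Finset.mem_singleton_self _), Or.inr rfl⟩

theorem x_mem (d : E) : δ.x d ∈ δ.W d := by
  by_cases h : δ.k d = d
  · rw [δ.x_L h]; exact δ.label_mem d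
  · rw [δ.x_F h]; exact δ.base_mem' d _

theorem isL {d : E} (hd : d ∈ δ.D) (h : δ.k d = d) : IsL tail head label d (δ.b d) := by
  rcases δ.p3 d hd with h1 | h1
  · exact h1.1
  · exact absurd h.symm h1.1.1

theorem isF {d : E} (hd : d ∈ δ.D) (h : δ.k d ≠ d) :
    IsF tail head label d (δ.k d) (δ.b d) ∧ δ.k d ∉ δ.D := by
  rcases δ.p3 d hd with h1 | h1
  · exact absurd h1.2 h
  · exact h1

variable {T : ℕ} (hsp : Sparse T tail head label) (hT : 8 ≤ T)

include hsp hT

theorem F_ne {d : E} (hd : d ∈ δ.D) (h : δ.k d ≠ d) :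
    δ.y d ≠ δ.x d ∧ δ.y d ≠ label d ∧ δ.y d ≠ base tail head (d, !(δ.b d)) ∧ δ.x d ≠ label d ∧
      δ.x d ≠ base tail head (d, !(δ.b d)) ∧ label d ≠ base tail head (d, !(δ.b d)) := by
  have hF := (δ.isF hd h).1
  have h1 := cover_le hsp {d, δ.k d} (by rw [Finset.card_pair hF.1]; omega) _ (ns_F hF)
  rw [Finset.card_pair hF.1] at h1
  rw [δ.x_F h]
  exact card4_ne h1

theorem x_ne_y {d : E} (hd : d ∈ δ.D) : δ.x d ≠ δ.y d := by
  by_cases h : δ.k d = d
  · have hL := δ.isL hd h
    have h1 := cover_le hsp {d} (by rw [Finset.card_singleton]; omega) _ (ns_L hL)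
    rw [Finset.card_singleton] at h1
    rw [δ.x_L h]
    exact (card2_ne h1).symm
  · exact (δ.F_ne hsp hT hd h).1.symm

theorem card_W {d : E} (hd : d ∈ δ.D) : (δ.W d).card ≤ 2 * ({d, δ.k d} : Finset E).card := by
  by_cases h : δ.k d = d
  · have hL := δ.isL hd h
    unfold W
    rw [h, Finset.insert_eq_of_mem (Finset.mem_singleton_self d), Finset.card_singleton]
    exact (Finset.card_le_card (ns_L hL)).trans Finset.card_le_two
  · have hF := (δ.isF hd h).1
    rw [Finset.card_pair hF.1]
    exact (Finset.card_le_card (ns_F hF)).trans Finset.card_le_four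

theorem k_ne {d d' : E} (hd : d ∈ δ.D) (hd' : d' ∈ δ.D) (hne : d ≠ d') : d ≠ δ.k d' := by
  intro h
  by_cases h' : δ.k d' = d'
  · exact hne (h.trans h')
  · exact (δ.isF hd' h').2 (h ▸ hd)

theorem disj {d d' : E} (hd : d ∈ δ.D) (hd' : d' ∈ δ.D) (hne : d ≠ d') :
    Disjoint (δ.W d) (δ.W d') := by
  refine disjoint_ns hsp _ _ ?_ (δ.card_W hsp hT hd) (δ.card_W hsp hT hd') ?_
  · rw [Finset.disjoint_left]
    intro e he he'
    rw [Finset.mem_insert, Finset.mem_singleton] at he he'
    rcases he with rfl | rfl
    · rcases he' with h | h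
      · exact hne h
      · exact δ.k_ne hsp hT hd hd' hne h
    · rcases he' with h | h
      · exact δ.k_ne hsp hT hd' hd hne.symm h.symm
      · by_cases h1 : δ.k d = d
        · rw [h1] at h
          exact δ.k_ne hsp hT hd hd' hne h
        · by_cases h2 : δ.k d' = d'
          · rw [h2] at h
            exact δ.k_ne hsp hT hd' hd hne.symm h.symm
          · have h3 := (δ.isF hd h1).1.symm
            have h4 := (δ.isF hd' h2).1.symm
            rw [← h] at h4
            exact hne (F_unique hsp hT h3 h4)
  · have h1 := Finset.card_le_two (a := d) (b := δ.k d)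
    have h2 := Finset.card_le_two (a := d') (b := δ.k d')
    omega

theorem ne_of_mem {d d' : E} (hd : d ∈ δ.D) (hd' : d' ∈ δ.D) (hne : d ≠ d') {v v' : V}
    (hv : v ∈ δ.W d) (hv' : v' ∈ δ.W d') : v ≠ v' := by
  rintro rfl
  exact (Finset.disjoint_left.mp (δ.disj hsp hT hd hd' hne)) hv hv'

end Drop

open Classical in
/-- every removed vertex is replaced -/
noncomputable def Drop.rho [DecidableEq E] {tail head label : E → V} (δ : Drop tail head label)
    (v : V) : V :=
  if h : ∃ d ∈ δ.D, δ.y d = v then δ.x h.choose else v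

namespace Drop

variable [DecidableEq E] {tail head label : E → V} (δ : Drop tail head label)

theorem rho_of_ne {v : V} (h : ∀ d ∈ δ.D, δ.y d ≠ v) : δ.rho v = v := by
  unfold rho
  rw [dif_neg]
  rintro ⟨d, hd, h1⟩
  exact h d hd h1

variable {T : ℕ} (hsp : Sparse T tail head label) (hT : 8 ≤ T)

include hsp hT

theorem rho_y {d : E} (hd : d ∈ δ.D) : δ.rho (δ.y d) = δ.x d := by
  have h : ∃ d' ∈ δ.D, δ.y d' = δ.y d := ⟨d, hd, rfl⟩
  unfold rho
  rw [dif_pos h]
  congr 1
  by_contra hne
  exact δ.ne_of_mem hsp hT h.choose_spec.1 hd hne (δ.y_mem _) (δ.y_mem _) h.choose_spec.2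

theorem rho_fix {d : E} (hd : d ∈ δ.D) {v : V} (hv : v ∈ δ.W d) (hne : δ.y d ≠ v) :
    δ.rho v = v := by
  refine δ.rho_of_ne (fun d' hd' => ?_)
  by_cases h : d' = d
  · rw [h]; exact hne
  · exact δ.ne_of_mem hsp hT hd' hd h (δ.y_mem _) hv

theorem rho_x {d : E} (hd : d ∈ δ.D) : δ.rho (δ.x d) = δ.x d :=
  δ.rho_fix hsp hT hd (δ.x_mem d) (δ.x_ne_y hsp hT hd).symm

/-- the images of the ends of the two edges of a pair agree -/
theorem rho_pair {d : E} (hd : d ∈ δ.D) (h : δ.k d ≠ d) (b : Bool) :
    δ.rho (base tail head (d, b)) = δ.rho (base tail head (δ.k d, b)) := by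
  have hF := (δ.isF hd h).1
  by_cases hb : b = δ.b d
  · rw [hb]
    have h1 : δ.rho (base tail head (d, δ.b d)) = δ.x d := δ.rho_y hsp hT hd
    rw [h1, ← δ.x_F h, δ.rho_x hsp hT hd]
  · have hb' : b = !(δ.b d) := by
      cases b <;> cases hbd : δ.b d <;> simp_all
    rw [hb', hF.2.2]

/-- the ends of a dropped edge whose label is an end -/
theorem rho_L {d : E} (hd : d ∈ δ.D) (h : δ.k d = d) (b : Bool) :
    δ.rho (base tail head (d, b)) = δ.x d := by
  have hL := δ.isL hd h
  by_cases hb : b = δ.b d
  · rw [hb]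
    exact δ.rho_y hsp hT hd
  · have hb' : b = !(δ.b d) := by
      cases b <;> cases hbd : δ.b d <;> simp_all
    rw [hb', ← hL, ← δ.x_L h, δ.rho_x hsp hT hd]

theorem rho_label {d : E} (hd : d ∈ δ.D) : δ.rho (label d) = label d := by
  by_cases h : δ.k d = d
  · rw [← δ.x_L h, δ.rho_x hsp hT hd]
  · exact δ.rho_fix hsp hT hd (δ.label_mem d) (δ.F_ne hsp hT hd h).2.1

/-- The counting argument: sets of half-edges that are kept have many vertices after the
identification, and more if they touch identified vertices. -/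
theorem lift (A : Finset (E × Bool)) (hA : ∀ h ∈ A, h.1 ∉ δ.D)
    (hcard : A.card + 4 * ((nv tail head label A).image δ.rho).card ≤ T) :
    A.card + (δ.D.filter fun d => δ.x d ∈ (nv tail head label A).image δ.rho).card ≤
      ((nv tail head label A).image δ.rho).card := by
  classical
  set N' := (nv tail head label A).image δ.rho with hN'
  set Dt := δ.D.filter fun d => δ.x d ∈ N' with hDt
  set K := (Dt.filter fun d => δ.k d ≠ d).image δ.k with hK
  set A2 := A ∪ K ×ˢ (Finset.univ : Finset Bool) with hA2
  set N2 := (nv tail head label A2).image δ.rho with hN2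
  have hbase : ∀ B : Finset (E × Bool), ∀ h ∈ B,
      δ.rho (base tail head h) ∈ (nv tail head label B).image δ.rho := fun B h hh =>
    Finset.mem_image_of_mem _ (mem_nv.mpr ⟨h, hh, Or.inl rfl⟩)
  have hlab : ∀ B : Finset (E × Bool), ∀ h ∈ B,
      δ.rho (label h.1) ∈ (nv tail head label B).image δ.rho := fun B h hh =>
    Finset.mem_image_of_mem _ (mem_nv.mpr ⟨h, hh, Or.inr rfl⟩)
  have hDtmem : ∀ d ∈ Dt, d ∈ δ.D ∧ δ.x d ∈ N' := fun d hd => Finset.mem_filter.mp hd
  have hKmem : ∀ e ∈ K, ∃ d ∈ Dt, δ.k d ≠ d ∧ δ.k d = e := by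
    intro e he
    rw [hK, Finset.mem_image] at he
    obtain ⟨d, hd, rfl⟩ := he
    rw [Finset.mem_filter] at hd
    exact ⟨d, hd.1, hd.2, rfl⟩
  have hN'N2 : N' ⊆ N2 := by
    rw [hN', hN2]
    apply Finset.image_subset_image
    intro v hv
    rw [mem_nv] at hv ⊢
    obtain ⟨h, hh, hv⟩ := hv
    exact ⟨h, Finset.mem_union_left _ hh, hv⟩
  -- step 1
  have step1 : N2 \ N' ⊆ (A2 \ A).image
      (fun h => if δ.rho (base tail head h) ∈ N' then δ.rho (label h.1)
        else δ.rho (base tail head h)) := by
    intro v hv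
    rw [Finset.mem_sdiff] at hv
    obtain ⟨hv2, hv1⟩ := hv
    rw [hN2, Finset.mem_image] at hv2
    obtain ⟨w, hw, rfl⟩ := hv2
    rw [mem_nv] at hw
    obtain ⟨h, hh, hor⟩ := hw
    rw [Finset.mem_image]
    rcases hor with hor | hor
    · refine ⟨h, ?_, ?_⟩
      · rw [Finset.mem_sdiff]
        refine ⟨hh, fun hhA => hv1 ?_⟩
        rw [← hor]
        exact hbase A h hhA
      · rw [hor, if_neg hv1]
    · have hnot : ∀ b : Bool, (h.1, b) ∉ A := by
        intro b hb
        apply hv1
        rw [← hor]
        exact hlab A (h.1, b) hb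
      have hhK : h.1 ∈ K := by
        rw [hA2, Finset.mem_union] at hh
        rcases hh with hh | hh
        · exact absurd hh (hnot h.2)
        · exact (Finset.mem_product.mp hh).1
      obtain ⟨d, hd, hkd, hkd'⟩ := hKmem h.1 hhK
      obtain ⟨hdD, hdx⟩ := hDtmem d hd
      refine ⟨(h.1, δ.b d), ?_, ?_⟩
      · rw [Finset.mem_sdiff]
        refine ⟨?_, hnot _⟩
        rw [hA2]
        exact Finset.mem_union_right _ (Finset.mem_product.mpr ⟨hhK, Finset.mem_univ _⟩)
      · have h1 : δ.rho (base tail head (h.1, δ.b d)) = δ.x d := by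
          rw [← hkd', ← δ.x_F hkd, δ.rho_x hsp hT hdD]
        rw [h1, if_pos hdx, hor]
  have hc1 : N2.card + A.card ≤ N'.card + A2.card := by
    have h1 := (Finset.card_le_card step1).trans Finset.card_image_le
    have h2 := Finset.card_sdiff_add_card_eq_card hN'N2
    have h3 := Finset.card_sdiff_add_card_eq_card (show A ⊆ A2 from Finset.subset_union_left)
    omega
  -- identified vertices touched by the larger set
  have hx2 : ∀ d' ∈ δ.D, δ.x d' ∈ N2 → δ.x d' ∈ N' := by
    intro d' hd' hx
    rw [hN2, Finset.mem_image] at hx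
    obtain ⟨w, hw, hwx⟩ := hx
    rw [mem_nv] at hw
    obtain ⟨h, hh, hor⟩ := hw
    rw [hA2, Finset.mem_union] at hh
    rcases hh with hh | hh
    · rw [← hwx]
      rcases hor with hor | hor
      · rw [← hor]; exact hbase A h hh
      · rw [← hor]; exact hlab A h hh
    · obtain ⟨d, hd, hkd, hkd'⟩ := hKmem h.1 (Finset.mem_product.mp hh).1
      obtain ⟨hdD, hdx⟩ := hDtmem d hd
      have hF := (δ.isF hdD hkd).1
      have hne := δ.F_ne hsp hT hdD hkd
      have key : ∀ v ∈ δ.W d, v ≠ δ.x d → δ.x d' ≠ v := by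
        intro v hv hvx heq
        by_cases hdd : d' = d
        · rw [hdd] at heq; exact hvx heq.symm
        · exact δ.ne_of_mem hsp hT hd' hdD hdd (δ.x_mem d') hv heq
      rcases hor with hor | hor
      · obtain ⟨h1, h2⟩ := h
        simp only at hkd'
        subst hkd'
        by_cases hb : h2 = δ.b d
        · rw [← hwx, ← hor, hb, ← δ.x_F hkd, δ.rho_x hsp hT hdD]
          exact hdx
        · exfalso
          have hb' : h2 = !(δ.b d) := by
            cases h2 <;> cases hbd : δ.b d <;> simp_all
          rw [← hor, hb', ← hF.2.2,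
            δ.rho_fix hsp hT hdD (δ.base_mem d _) hne.2.2.1] at hwx
          exact key _ (δ.base_mem d _) hne.2.2.2.2.1.symm hwx.symm
      · exfalso
        rw [← hor, ← hkd', ← hF.2.1, δ.rho_label hsp hT hdD] at hwx
        exact key _ (δ.label_mem d) hne.2.2.2.1.symm hwx.symm
  -- step 2
  set S := A2 ∪ Dt ×ˢ (Finset.univ : Finset Bool) with hS
  have hA2D : ∀ h ∈ A2, h.1 ∉ δ.D := by
    intro h hh
    rw [hA2, Finset.mem_union] at hh
    rcases hh with hh | hh
    · exact hA h hh
    · obtain ⟨d, hd, hkd, hkd'⟩ := hKmem h.1 (Finset.mem_product.mp hh).1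
      rw [← hkd']
      exact (δ.isF (hDtmem d hd).1 hkd).2
  have hScard : S.card = A2.card + 2 * Dt.card := by
    rw [hS, Finset.card_union_of_disjoint, Finset.card_product, Finset.card_univ,
      Fintype.card_bool, mul_comm]
    rw [Finset.disjoint_left]
    intro h hh hh'
    exact hA2D h hh (hDtmem _ (Finset.mem_product.mp hh').1).1
  have hA2card : A2.card ≤ A.card + 2 * Dt.card := by
    rw [hA2]
    refine (Finset.card_union_le _ _).trans ?_
    rw [Finset.card_product, Finset.card_univ, Fintype.card_bool, mul_comm]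
    have h1 : K.card ≤ Dt.card :=
      Finset.card_image_le.trans (Finset.card_le_card (Finset.filter_subset _ _))
    omega
  have hDtcard : Dt.card ≤ N'.card := by
    refine Finset.card_le_card_of_injOn δ.x (fun d hd => (hDtmem d hd).2) ?_
    intro d hd d' hd' heq
    by_contra hne
    exact δ.ne_of_mem hsp hT (hDtmem d hd).1 (hDtmem d' hd').1 hne (δ.x_mem d) (δ.x_mem d') heq
  have hnvS : ∀ v ∈ nv tail head label S, δ.rho v ∈ N2 := by
    intro v hv
    rw [mem_nv] at hv
    obtain ⟨h, hh, hor⟩ := hv
    rw [hS, Finset.mem_union] at hh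
    rcases hh with hh | hh
    · rcases hor with hor | hor
      · rw [← hor]; exact hbase A2 h hh
      · rw [← hor]; exact hlab A2 h hh
    · obtain ⟨d, b⟩ := h
      have hd : d ∈ Dt := (Finset.mem_product.mp hh).1
      obtain ⟨hdD, hdx⟩ := hDtmem d hd
      by_cases hk : δ.k d = d
      · rcases hor with hor | hor
        · rw [← hor, δ.rho_L hsp hT hdD hk]
          exact hN'N2 hdx
        · rw [← hor]
          show δ.rho (label d) ∈ N2
          rw [← δ.x_L hk, δ.rho_x hsp hT hdD]
          exact hN'N2 hdx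
      · have hkK : ∀ b, (δ.k d, b) ∈ A2 := by
          intro b
          rw [hA2]
          refine Finset.mem_union_right _ (Finset.mem_product.mpr ⟨?_, Finset.mem_univ _⟩)
          rw [hK]
          exact Finset.mem_image_of_mem _ (Finset.mem_filter.mpr ⟨hd, hk⟩)
        rcases hor with hor | hor
        · rw [← hor, δ.rho_pair hsp hT hdD hk]
          exact hbase A2 _ (hkK b)
        · rw [← hor]
          show δ.rho (label d) ∈ N2
          rw [(δ.isF hdD hk).1.2.1]
          exact hlab A2 (δ.k d, b) (hkK b)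
  have hsub : nv tail head label S ⊆ N2 ∪ Dt.image δ.y := by
    intro v hv
    have h1 := hnvS v hv
    rw [Finset.mem_union]
    by_cases h : ∃ d ∈ δ.D, δ.y d = v
    · obtain ⟨d, hd, rfl⟩ := h
      right
      rw [δ.rho_y hsp hT hd] at h1
      exact Finset.mem_image_of_mem _ (Finset.mem_filter.mpr ⟨hd, hx2 d hd h1⟩)
    · left
      push Not at h
      rw [δ.rho_of_ne h] at h1
      exact h1
  have h4 := (hsp S (by omega)).trans ((Finset.card_le_card hsub).trans (Finset.card_union_le _ _))
  have h5 : (Dt.image δ.y).card ≤ Dt.card := Finset.card_image_le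
  omega

/-- a set of half-edges that does not touch identified vertices -/
theorem lift_eq (A : Finset (E × Bool)) (hA : ∀ h ∈ A, h.1 ∉ δ.D)
    (hcard : A.card + 4 * ((nv tail head label A).image δ.rho).card ≤ T)
    (hle : ((nv tail head label A).image δ.rho).card ≤ A.card) :
    ∀ v ∈ nv tail head label A, δ.rho v = v := by
  have h1 := δ.lift hsp hT A hA hcard
  have h2 : (δ.D.filter fun d => δ.x d ∈ (nv tail head label A).image δ.rho) = ∅ := by
    rw [← Finset.card_eq_zero]
    omega
  intro v hv
  refine δ.rho_of_ne (fun d hd hy => ?_)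
  have h3 : d ∈ δ.D.filter fun d => δ.x d ∈ (nv tail head label A).image δ.rho := by
    rw [Finset.mem_filter]
    refine ⟨hd, ?_⟩
    rw [← δ.rho_y hsp hT hd, hy]
    exact Finset.mem_image_of_mem _ hv
  rw [h2] at h3
  exact absurd h3 (Finset.notMem_empty d)

theorem reduced (hT2 : 10 ≤ T) : Reduced (fun e : {e // e ∉ δ.D} => δ.rho (tail e))
    (fun e => δ.rho (head e)) (fun e => δ.rho (label e)) := by
  have h1 : ∀ e : E, e ∉ δ.D → ∀ c : Bool,
      δ.rho (label e) ≠ δ.rho (base tail head (e, c)) := by
    intro e he c heq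
    have hA : ∀ h ∈ ({(e, c)} : Finset (E × Bool)), h.1 ∉ δ.D := by
      intro h hh
      rw [Finset.mem_singleton] at hh
      rw [hh]
      exact he
    have hN : ((nv tail head label {(e, c)}).image δ.rho).card ≤ 1 := by
      rw [Finset.card_le_one]
      intro a ha b hb
      have key : ∀ v ∈ (nv tail head label {(e, c)}).image δ.rho, v = δ.rho (label e) := by
        intro v hv
        rw [Finset.mem_image] at hv
        obtain ⟨w, hw, rfl⟩ := hv
        rw [mem_nv] at hw
        obtain ⟨h, hh, hor⟩ := hw
        rw [Finset.mem_singleton] at hh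
        subst hh
        rcases hor with hor | hor
        · rw [← hor, heq]
        · rw [← hor]
      rw [key a ha, key b hb]
    have h2 := δ.lift_eq hsp hT {(e, c)} hA (by rw [Finset.card_singleton]; omega)
      (by rw [Finset.card_singleton]; exact hN)
    have h3 := h2 (label e) (mem_nv.mpr ⟨_, Finset.mem_singleton_self _, Or.inr rfl⟩)
    have h4 := h2 (base tail head (e, c)) (mem_nv.mpr ⟨_, Finset.mem_singleton_self _, Or.inl rfl⟩)
    rw [h3, h4] at heq
    refine he (δ.p1 e (!c) ?_)
    unfold IsL
    rw [Bool.not_not]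
    exact heq
  have h2 : ∀ e f : E, e ∉ δ.D → f ∉ δ.D → e ≠ f → δ.rho (label e) = δ.rho (label f) →
      ∀ c : Bool, δ.rho (base tail head (e, c)) ≠ δ.rho (base tail head (f, c)) := by
    intro e f he hf hne hl c heq
    have hcard : ({(e, c), (f, c)} : Finset (E × Bool)).card = 2 := by
      rw [Finset.card_pair]
      intro h
      exact hne (congrArg Prod.fst h)
    have hA : ∀ h ∈ ({(e, c), (f, c)} : Finset (E × Bool)), h.1 ∉ δ.D := by
      intro h hh
      rw [Finset.mem_insert, Finset.mem_singleton] at hh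
      rcases hh with hh | hh
      · rw [hh]; exact he
      · rw [hh]; exact hf
    have hN : ((nv tail head label {(e, c), (f, c)}).image δ.rho).card ≤ 2 := by
      refine (Finset.card_le_card (t := {δ.rho (label e), δ.rho (base tail head (e, c))})
        ?_).trans Finset.card_le_two
      intro v hv
      rw [Finset.mem_image] at hv
      obtain ⟨w, hw, rfl⟩ := hv
      rw [mem_nv] at hw
      obtain ⟨h, hh, hor⟩ := hw
      rw [Finset.mem_insert, Finset.mem_singleton] at hh
      rw [Finset.mem_insert, Finset.mem_singleton]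
      rcases hh with rfl | rfl
      · rcases hor with hor | hor
        · exact Or.inr (by rw [← hor])
        · exact Or.inl (by rw [← hor])
      · rcases hor with hor | hor
        · exact Or.inr (by rw [← hor, heq])
        · exact Or.inl (by rw [← hor, hl])
    have h2 := δ.lift_eq hsp hT {(e, c), (f, c)} hA (by rw [hcard]; omega)
      (by rw [hcard]; exact hN)
    have me : (e, c) ∈ ({(e, c), (f, c)} : Finset (E × Bool)) := Finset.mem_insert_self _ _
    have mf : (f, c) ∈ ({(e, c), (f, c)} : Finset (E × Bool)) :=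
      Finset.mem_insert_of_mem (Finset.mem_singleton_self _)
    have h3 := h2 (label e) (mem_nv.mpr ⟨_, me, Or.inr rfl⟩)
    have h4 := h2 (label f) (mem_nv.mpr ⟨_, mf, Or.inr rfl⟩)
    have h5 := h2 (base tail head (e, c)) (mem_nv.mpr ⟨_, me, Or.inl rfl⟩)
    have h6 := h2 (base tail head (f, c)) (mem_nv.mpr ⟨_, mf, Or.inl rfl⟩)
    rw [h3, h4] at hl
    rw [h5, h6] at heq
    have h7 : IsF tail head label e f (!c) := ⟨hne, hl, by rw [Bool.not_not]; exact heq⟩
    rcases δ.p2 e f _ h7 with h8 | h8
    · exact he h8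
    · exact hf h8
  refine ⟨fun e => ⟨h1 e.1 e.2 true, h1 e.1 e.2 false⟩, ?_⟩
  intro e f hne hl
  have hne' : e.1 ≠ f.1 := fun h => hne (Subtype.ext h)
  exact ⟨h2 e.1 f.1 e.2 f.2 hne' hl true, h2 e.1 f.1 e.2 f.2 hne' hl false⟩

theorem sparse (m : ℕ) (hT2 : 5 * m ≤ T + 4) :
    Sparse m (fun e : {e // e ∉ δ.D} => δ.rho (tail e))
      (fun e => δ.rho (head e)) (fun e => δ.rho (label e)) := by
  intro A' hA'
  by_contra hlt
  push Not at hlt
  let F : {e // e ∉ δ.D} × Bool ↪ E × Bool := ⟨fun h => (h.1.1, h.2), by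
    rintro ⟨a, b⟩ ⟨c, d⟩ h
    have h1 : a.1 = c.1 := congrArg Prod.fst h
    have h2 : b = d := congrArg Prod.snd h
    exact Prod.ext (Subtype.ext h1) h2⟩
  have hcard : (A'.map F).card = A'.card := Finset.card_map _
  have hN : (nv tail head label (A'.map F)).image δ.rho =
      A'.image (base (fun e : {e // e ∉ δ.D} => δ.rho (tail e)) (fun e => δ.rho (head e))) ∪
        A'.image (fun h => δ.rho (label h.1)) := by
    have hb : ∀ h : {e // e ∉ δ.D} × Bool, δ.rho (base tail head (F h)) =
        base (fun e : {e // e ∉ δ.D} => δ.rho (tail e)) (fun e => δ.rho (head e)) h := by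
      rintro ⟨e, c⟩
      cases c <;> rfl
    ext v
    rw [Finset.mem_image, Finset.mem_union, Finset.mem_image, Finset.mem_image]
    constructor
    · rintro ⟨w, hw, rfl⟩
      rw [mem_nv] at hw
      obtain ⟨h, hh, hor⟩ := hw
      rw [Finset.mem_map] at hh
      obtain ⟨h', hh', rfl⟩ := hh
      rcases hor with hor | hor
      · exact Or.inl ⟨h', hh', by rw [← hor, hb]⟩
      · exact Or.inr ⟨h', hh', by rw [← hor]; rfl⟩
    · rintro (⟨h', hh', rfl⟩ | ⟨h', hh', rfl⟩)
      · exact ⟨base tail head (F h'), mem_nv.mpr ⟨F h', Finset.mem_map_of_mem _ hh', Or.inl rfl⟩,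
          hb h'⟩
      · exact ⟨label h'.1, mem_nv.mpr ⟨F h', Finset.mem_map_of_mem _ hh', Or.inr rfl⟩, rfl⟩
  rw [← hN] at hlt
  have h1 := δ.lift hsp hT (A'.map F) (by
    intro h hh
    rw [Finset.mem_map] at hh
    obtain ⟨h', _, rfl⟩ := hh
    exact h'.1.2) (by rw [hcard]; omega)
  rw [hcard] at h1
  omega

end Drop

end Pool.Agent.WT.Glue
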