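import Mathlib

/-!
# Short cycles in the link of a labelled oriented tree (module F)

A spoke `σ` has a hub `hub σ : V × Bool` (the label of the edge with a sign) and an end `fin σ : V`.
The corner `(σ, τ)` joins the link vertices `hub σ` and `(fin σ, τ)`.
-/

set_option autoImplicit false
set_option linter.unusedSectionVars false

open scoped BigOperators

namespace Pool.Agent.WT.Link

variable {V Sp : Type} (hub : Sp → V × Bool) (fin : Sp → V)

/-- the corner `(σ, τ)` lies on a short cycle and is raised -/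
def Raised (σ : Sp) (τ : Bool) : Prop :=
  ∃ ζ, hub ζ = (fin σ, τ) ∧
    (fin ζ = (hub σ).1 ∨ (∃ ξ, ξ ≠ σ ∧ hub ξ = hub σ ∧ fin ξ = fin ζ) ∨
      (∃ ξ, (hub ξ).1 = fin ζ ∧ fin ξ = (hub σ).1))

open Classical in
/-- weight of a corner -/
noncomputable def wt (κ : Sp × Bool) : ℕ :=
  if Raised hub fin κ.1 κ.2 then 2 else if Raised hub fin κ.1 (!κ.2) then 0 else 1

/-- the corner `κ` joins the link vertices `p` and `q` -/
def Joins (κ : Sp × Bool) (p q : V × Bool) : Prop :=
  (p = hub κ.1 ∧ q = (fin κ.1, κ.2)) ∨ (p = (fin κ.1, κ.2) ∧ q = hub κ.1)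

variable [DecidableEq V]

/-- vertices touched by a set of spokes -/
def nbh (S : Finset Sp) : Finset V := S.image (fun σ => (hub σ).1) ∪ S.image fin

/-- no small set of spokes touches fewer vertices than it has elements -/
def Sparse : Prop := ∀ S : Finset Sp, S.card ≤ 8 → S.card ≤ (nbh hub fin S).card

/-- the spoke `σ` is incident with the vertex `v` -/
def Inc (σ : Sp) (v : V) : Prop := (hub σ).1 = v ∨ fin σ = v

/-- each end of each spoke of `S` is shared by another spoke of `S` -/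
def Full (S : Finset Sp) : Prop :=
  ∀ σ ∈ S, (∃ σ' ∈ S, σ' ≠ σ ∧ Inc hub fin σ' (hub σ).1) ∧
    (∃ σ' ∈ S, σ' ≠ σ ∧ Inc hub fin σ' (fin σ))

variable {hub fin}

theorem Joins.symm {κ : Sp × Bool} {p q : V × Bool} (h : Joins hub fin κ p q) :
    Joins hub fin κ q p := by
  rcases h with ⟨h1, h2⟩ | ⟨h1, h2⟩
  · exact Or.inr ⟨h2, h1⟩
  · exact Or.inl ⟨h2, h1⟩

theorem Joins.inc_left {κ : Sp × Bool} {p q : V × Bool} (h : Joins hub fin κ p q) :
    Inc hub fin κ.1 p.1 := by
  rcases h with ⟨h1, h2⟩ | ⟨h1, h2⟩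
  · left; rw [h1]
  · right; rw [h1]

theorem Joins.inc_right {κ : Sp × Bool} {p q : V × Bool} (h : Joins hub fin κ p q) :
    Inc hub fin κ.1 q.1 := h.symm.inc_left

theorem deg_lemma (hcomp : ∀ σ, (hub σ).1 ≠ fin σ) (hsp : Sparse hub fin) (S : Finset Sp)
    (hcard : S.card ≤ 8) (hfull : Full hub fin S) (v : V) (a b c : Sp) (ha : a ∈ S) (hb : b ∈ S)
    (hc : c ∈ S) (hab : a ≠ b) (hac : a ≠ c) (hbc : b ≠ c) (ia : Inc hub fin a v)
    (ib : Inc hub fin b v) (ic : Inc hub fin c v) : False := by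
  classical
  set d : V → ℕ := fun v => (S.filter fun σ => Inc hub fin σ v).card with hd
  -- double counting
  have h1 : ∑ v ∈ nbh hub fin S, d v = 2 * S.card := by
    rw [hd]
    simp only [Finset.card_filter]
    rw [Finset.sum_comm]
    have h2 : ∀ σ ∈ S, (∑ v ∈ nbh hub fin S, if Inc hub fin σ v then 1 else 0) = 2 := by
      intro σ hσ
      rw [← Finset.card_filter]
      have h3 : (nbh hub fin S).filter (fun v => Inc hub fin σ v) = {(hub σ).1, fin σ} := by
        ext v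
        rw [Finset.mem_filter, Finset.mem_insert, Finset.mem_singleton]
        unfold nbh Inc
        rw [Finset.mem_union, Finset.mem_image, Finset.mem_image]
        constructor
        · rintro ⟨_, h | h⟩
          · exact Or.inl h.symm
          · exact Or.inr h.symm
        · rintro (h | h)
          · exact ⟨Or.inl ⟨σ, hσ, h.symm⟩, Or.inl h.symm⟩
          · exact ⟨Or.inr ⟨σ, hσ, h.symm⟩, Or.inr h.symm⟩
      rw [h3, Finset.card_pair (hcomp σ)]
    rw [Finset.sum_congr rfl h2, Finset.sum_const, smul_eq_mul, mul_comm]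
  have hdeg : ∀ v ∈ nbh hub fin S, 2 ≤ d v := by
    intro v hv
    obtain ⟨σ, hσ, hσv⟩ : ∃ σ ∈ S, Inc hub fin σ v := by
      unfold nbh at hv
      rw [Finset.mem_union, Finset.mem_image, Finset.mem_image] at hv
      rcases hv with ⟨σ, hσ, h⟩ | ⟨σ, hσ, h⟩
      · exact ⟨σ, hσ, Or.inl h⟩
      · exact ⟨σ, hσ, Or.inr h⟩
    obtain ⟨σ', hσ', hne, hi⟩ : ∃ σ' ∈ S, σ' ≠ σ ∧ Inc hub fin σ' v := by
      rcases hσv with h | h
      · rw [← h]; exact (hfull σ hσ).1
      · rw [← h]; exact (hfull σ hσ).2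
    have h3 : ({σ, σ'} : Finset Sp) ⊆ S.filter fun σ => Inc hub fin σ v := by
      intro x hx
      rw [Finset.mem_insert, Finset.mem_singleton] at hx
      rw [Finset.mem_filter]
      rcases hx with rfl | rfl
      · exact ⟨hσ, hσv⟩
      · exact ⟨hσ', hi⟩
    have h4 := Finset.card_le_card h3
    rw [Finset.card_pair hne.symm] at h4
    exact h4
  have hv : v ∈ nbh hub fin S := by
    unfold nbh
    rw [Finset.mem_union, Finset.mem_image, Finset.mem_image]
    rcases ia with h | h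
    · exact Or.inl ⟨a, ha, h⟩
    · exact Or.inr ⟨a, ha, h⟩
  have hv3 : 3 ≤ d v := by
    have h3 : ({a, b, c} : Finset Sp) ⊆ S.filter fun σ => Inc hub fin σ v := by
      intro x hx
      rw [Finset.mem_insert, Finset.mem_insert, Finset.mem_singleton] at hx
      rw [Finset.mem_filter]
      rcases hx with rfl | rfl | rfl
      · exact ⟨ha, ia⟩
      · exact ⟨hb, ib⟩
      · exact ⟨hc, ic⟩
    have h4 := Finset.card_le_card h3
    rw [Finset.card_eq_three.mpr ⟨a, b, c, hab, hac, hbc, rfl⟩] at h4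
    exact h4
  have h5 : 2 * (nbh hub fin S).card < ∑ v ∈ nbh hub fin S, d v := by
    calc 2 * (nbh hub fin S).card = ∑ _v ∈ nbh hub fin S, 2 := by
          rw [Finset.sum_const, smul_eq_mul, mul_comm]
      _ < ∑ v ∈ nbh hub fin S, d v := Finset.sum_lt_sum hdeg ⟨v, hv, by omega⟩
  have h6 := hsp S hcard
  omega

theorem Full.union [DecidableEq Sp] {S T : Finset Sp} (hS : Full hub fin S)
    (hT : Full hub fin T) : Full hub fin (S ∪ T) := by
  intro σ hσ
  rw [Finset.mem_union] at hσ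
  rcases hσ with h | h
  · obtain ⟨⟨a, ha, ha'⟩, ⟨b, hb, hb'⟩⟩ := hS σ h
    exact ⟨⟨a, Finset.mem_union_left _ ha, ha'⟩, ⟨b, Finset.mem_union_left _ hb, hb'⟩⟩
  · obtain ⟨⟨a, ha, ha'⟩, ⟨b, hb, hb'⟩⟩ := hT σ h
    exact ⟨⟨a, Finset.mem_union_right _ ha, ha'⟩, ⟨b, Finset.mem_union_right _ hb, hb'⟩⟩

/-- The short cycle of a raised corner. -/
theorem exists_Z (hcomp : ∀ σ, (hub σ).1 ≠ fin σ) {σ : Sp} {τ : Bool}
    (h : Raised hub fin σ τ) :
    ∃ (ζ : Sp) (Z : Finset Sp), Z.card ≤ 3 ∧ Full hub fin Z ∧ σ ∈ Z ∧ ζ ∈ Z ∧ ζ ≠ σ ∧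
      hub ζ = (fin σ, τ) ∧ ∀ σ' ∈ Z, σ' ≠ σ → hub σ' = hub σ → fin σ' = fin ζ := by
  classical
  obtain ⟨ζ, hζ, h⟩ := h
  have hζσ : ζ ≠ σ := by
    rintro rfl
    exact hcomp ζ (by rw [hζ])
  have hζh : hub ζ ≠ hub σ := by
    intro h1
    apply hcomp σ
    rw [← h1, hζ]
  rcases h with h | ⟨ξ, hξ1, hξ2, hξ3⟩ | ⟨ξ, hξ1, hξ2⟩
  · refine ⟨ζ, {σ, ζ}, ?_, ?_, by simp, by simp, hζσ, hζ, ?_⟩
    · exact (Finset.card_le_two).trans (by norm_num)
    · intro x hx
      rw [Finset.mem_insert, Finset.mem_singleton] at hx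
      rcases hx with rfl | rfl
      · exact ⟨⟨ζ, by simp, hζσ, Or.inr h⟩, ⟨ζ, by simp, hζσ, Or.inl (by rw [hζ])⟩⟩
      · exact ⟨⟨σ, by simp, hζσ.symm, Or.inr (by rw [hζ])⟩, ⟨σ, by simp, hζσ.symm, Or.inl h.symm⟩⟩
    · intro σ' hσ' hne hh
      rw [Finset.mem_insert, Finset.mem_singleton] at hσ'
      rcases hσ' with rfl | rfl
      · exact absurd rfl hne
      · rfl
  · have hξζ : ξ ≠ ζ := by
      rintro rfl
      exact hζh hξ2
    refine ⟨ζ, {σ, ζ, ξ}, ?_, ?_, by simp, by simp, hζσ, hζ, ?_⟩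
    · exact Finset.card_le_three
    · intro x hx
      rw [Finset.mem_insert, Finset.mem_insert, Finset.mem_singleton] at hx
      rcases hx with rfl | rfl | rfl
      · exact ⟨⟨ξ, by simp, hξ1, Or.inl (by rw [hξ2])⟩, ⟨ζ, by simp, hζσ, Or.inl (by rw [hζ])⟩⟩
      · exact ⟨⟨σ, by simp, hζσ.symm, Or.inr (by rw [hζ])⟩, ⟨ξ, by simp, hξζ, Or.inr hξ3⟩⟩
      · exact ⟨⟨σ, by simp, hξ1.symm, Or.inl (by rw [hξ2])⟩, ⟨ζ, by simp, hξζ.symm, Or.inr hξ3.symm⟩⟩
    · intro σ' hσ' hne hh
      rw [Finset.mem_insert, Finset.mem_insert, Finset.mem_singleton] at hσ'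
      rcases hσ' with rfl | rfl | rfl
      · exact absurd rfl hne
      · rfl
      · exact hξ3
  · have hξσ : ξ ≠ σ := by
      rintro rfl
      exact hcomp ξ hξ2.symm
    have hξζ : ξ ≠ ζ := by
      rintro rfl
      exact hcomp ξ hξ1
    refine ⟨ζ, {σ, ζ, ξ}, ?_, ?_, by simp, by simp, hζσ, hζ, ?_⟩
    · exact Finset.card_le_three
    · intro x hx
      rw [Finset.mem_insert, Finset.mem_insert, Finset.mem_singleton] at hx
      rcases hx with rfl | rfl | rfl
      · exact ⟨⟨ξ, by simp, hξσ, Or.inr hξ2⟩, ⟨ζ, by simp, hζσ, Or.inl (by rw [hζ])⟩⟩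
      · exact ⟨⟨σ, by simp, hζσ.symm, Or.inr (by rw [hζ])⟩, ⟨ξ, by simp, hξζ, Or.inl hξ1⟩⟩
      · exact ⟨⟨ζ, by simp, hξζ.symm, Or.inr hξ1.symm⟩, ⟨σ, by simp, hξσ.symm, Or.inl hξ2.symm⟩⟩
    · intro σ' hσ' hne hh
      rw [Finset.mem_insert, Finset.mem_insert, Finset.mem_singleton] at hσ'
      rcases hσ' with rfl | rfl | rfl
      · exact absurd rfl hne
      · rfl
      · exfalso
        apply hcomp σ'
        rw [hh, hξ2]

theorem not_raised_both (hcomp : ∀ σ, (hub σ).1 ≠ fin σ) (hsp : Sparse hub fin) (σ : Sp)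
    (h1 : Raised hub fin σ true) (h2 : Raised hub fin σ false) : False := by
  classical
  obtain ⟨ζ, Z, hZ1, hZ2, hZ3, hZ4, hZ5, hZ6, _⟩ := exists_Z hcomp h1
  obtain ⟨ζ', Z', hZ1', hZ2', hZ3', hZ4', hZ5', hZ6', _⟩ := exists_Z hcomp h2
  refine deg_lemma hcomp hsp (Z ∪ Z') ?_ (hZ2.union hZ2') (fin σ) σ ζ ζ'
    (Finset.mem_union_left _ hZ3) (Finset.mem_union_left _ hZ4) (Finset.mem_union_right _ hZ4')
    hZ5.symm hZ5'.symm ?_ (Or.inr rfl) (Or.inl (by rw [hZ6])) (Or.inl (by rw [hZ6']))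
  · exact (Finset.card_union_le _ _).trans (by omega)
  · rintro rfl
    rw [hZ6] at hZ6'
    exact absurd (congrArg Prod.snd hZ6') (by simp)

variable (hub fin) in
theorem wt_add (hcomp : ∀ σ, (hub σ).1 ≠ fin σ)
    (hred : ∀ σ σ', σ ≠ σ' → hub σ = hub σ' → fin σ ≠ fin σ') (hsp : Sparse hub fin) (σ : Sp) :
    wt hub fin (σ, false) + wt hub fin (σ, true) = 2 := by
  unfold wt
  by_cases h1 : Raised hub fin σ true
  · have h2 : ¬ Raised hub fin σ false := fun h => not_raised_both hcomp hsp σ h1 h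
    rw [if_neg (show ¬ Raised hub fin (σ, false).1 (σ, false).2 from h2),
      if_pos (show Raised hub fin (σ, false).1 (!(σ, false).2) from h1),
      if_pos (show Raised hub fin (σ, true).1 (σ, true).2 from h1)]
  · by_cases h2 : Raised hub fin σ false
    · rw [if_pos (show Raised hub fin (σ, false).1 (σ, false).2 from h2),
        if_neg (show ¬ Raised hub fin (σ, true).1 (σ, true).2 from h1),
        if_pos (show Raised hub fin (σ, true).1 (!(σ, true).2) from h2)]
    · rw [if_neg (show ¬ Raised hub fin (σ, false).1 (σ, false).2 from h2),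
        if_neg (show ¬ Raised hub fin (σ, false).1 (!(σ, false).2) from h1),
        if_neg (show ¬ Raised hub fin (σ, true).1 (σ, true).2 from h1),
        if_neg (show ¬ Raised hub fin (σ, true).1 (!(σ, true).2) from h2)]

theorem wt_add' (hcomp : ∀ σ, (hub σ).1 ≠ fin σ)
    (hred : ∀ σ σ', σ ≠ σ' → hub σ = hub σ' → fin σ ≠ fin σ') (hsp : Sparse hub fin)
    (κ κ' : Sp × Bool) (h : κ.1 = κ'.1) (hne : κ ≠ κ') : wt hub fin κ + wt hub fin κ' = 2 := by
  obtain ⟨σ, b⟩ := κ
  obtain ⟨σ', b'⟩ := κ'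
  simp only at h
  subst h
  have := wt_add hub fin hcomp hred hsp σ
  cases b <;> cases b'
  · exact absurd rfl hne
  · exact this
  · rw [add_comm]; exact this
  · exact absurd rfl hne

theorem raised_of_wt_zero {κ : Sp × Bool} (h : wt hub fin κ = 0) :
    Raised hub fin κ.1 (!κ.2) := by
  unfold wt at h
  split_ifs at h with h1 h2
  exact h2

theorem wt_eq_two {κ : Sp × Bool} (h : Raised hub fin κ.1 κ.2) : wt hub fin κ = 2 := by
  unfold wt
  rw [if_pos h]

/-- At the fin end of a lowered corner there is no other spoke of a full set. -/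
theorem fin_end (hcomp : ∀ σ, (hub σ).1 ≠ fin σ) (hsp : Sparse hub fin) (S : Finset Sp)
    (hcard : S.card ≤ 8) (hfull : Full hub fin S) {σ ζ : Sp} {τ : Bool} (hσ : σ ∈ S) (hζ : ζ ∈ S)
    (hζσ : ζ ≠ σ) (hh : hub ζ = (fin σ, !τ)) {κ' : Sp × Bool} (hκ' : κ'.1 ∈ S)
    (hne : κ'.1 ≠ σ) {q : V × Bool} (hj : Joins hub fin κ' (fin σ, τ) q) : False := by
  have h1 : κ'.1 = ζ := by
    by_contra h
    refine deg_lemma hcomp hsp S hcard hfull (fin σ) σ ζ κ'.1 hσ hζ hκ' hζσ.symm hne.symm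
      (fun h' => h h'.symm) (Or.inr rfl) (Or.inl (by rw [hh])) hj.inc_left
  rcases hj with ⟨h2, _⟩ | ⟨h2, _⟩
  · rw [h1, hh] at h2
    have := congrArg Prod.snd h2
    simp at this
  · rw [h1] at h2
    apply hcomp ζ
    rw [hh]
    exact congrArg Prod.fst h2

/-- (i) two consecutive corners over different spokes are not both lowered -/
theorem pair_ge (hcomp : ∀ σ, (hub σ).1 ≠ fin σ)
    (hred : ∀ σ σ', σ ≠ σ' → hub σ = hub σ' → fin σ ≠ fin σ') (hsp : Sparse hub fin)
    {κ κ' : Sp × Bool} {p q r : V × Bool} (h1 : Joins hub fin κ p q)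
    (h2 : Joins hub fin κ' q r) (hne : κ.1 ≠ κ'.1) :
    1 ≤ wt hub fin κ + wt hub fin κ' := by
  classical
  by_contra hlt
  have w1 : wt hub fin κ = 0 := by omega
  have w2 : wt hub fin κ' = 0 := by omega
  obtain ⟨ζ, Z, hZ1, hZ2, hZ3, hZ4, hZ5, hZ6, hZ7⟩ := exists_Z hcomp (raised_of_wt_zero w1)
  obtain ⟨ζ', Z', hZ1', hZ2', hZ3', hZ4', hZ5', hZ6', hZ7'⟩ :=
    exists_Z hcomp (raised_of_wt_zero w2)
  have hcard : (Z ∪ Z').card ≤ 8 := (Finset.card_union_le _ _).trans (by omega)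
  have hF := hZ2.union hZ2'
  rcases h1 with ⟨a1, a2⟩ | ⟨a1, a2⟩
  · -- q is the fin end of κ
    rw [a2] at h2
    exact fin_end hcomp hsp (Z ∪ Z') hcard hF (Finset.mem_union_left _ hZ3)
      (Finset.mem_union_left _ hZ4) hZ5 hZ6 (Finset.mem_union_right _ hZ3') hne.symm h2
  · rcases h2 with ⟨b1, b2⟩ | ⟨b1, b2⟩
    · -- both hubs
      have hhub : hub κ.1 = hub κ'.1 := by rw [← a2, ← b1]
      have e1 : κ'.1 ∈ Z := by
        obtain ⟨x, hx, hxne, hxi⟩ := (hZ2 κ.1 hZ3).1
        by_contra hcon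
        have hx' : x ≠ κ'.1 := by
          rintro rfl
          exact hcon hx
        exact deg_lemma hcomp hsp (Z ∪ Z') hcard hF (hub κ.1).1 κ.1 κ'.1 x
          (Finset.mem_union_left _ hZ3) (Finset.mem_union_right _ hZ3')
          (Finset.mem_union_left _ hx) hne hxne.symm hx'.symm (Or.inl rfl)
          (Or.inl (by rw [hhub])) hxi
      have e2 : κ.1 ∈ Z' := by
        obtain ⟨x, hx, hxne, hxi⟩ := (hZ2' κ'.1 hZ3').1
        by_contra hcon
        have hx' : x ≠ κ.1 := by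
          rintro rfl
          exact hcon hx
        exact deg_lemma hcomp hsp (Z ∪ Z') hcard hF (hub κ'.1).1 κ'.1 κ.1 x
          (Finset.mem_union_right _ hZ3') (Finset.mem_union_left _ hZ3)
          (Finset.mem_union_right _ hx) hne.symm hxne.symm hx'.symm (Or.inl rfl)
          (Or.inl (by rw [hhub])) hxi
      have f1 := hZ7 κ'.1 e1 hne.symm hhub.symm
      have f2 := hZ7' κ.1 e2 hne hhub
      refine deg_lemma hcomp hsp (Z ∪ Z') hcard hF (fin κ.1) κ.1 ζ ζ'
        (Finset.mem_union_left _ hZ3) (Finset.mem_union_left _ hZ4)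
        (Finset.mem_union_right _ hZ4') hZ5.symm ?_ ?_ (Or.inr rfl) (Or.inl (by rw [hZ6]))
        (Or.inr f2.symm)
      · intro h
        apply hcomp κ'.1
        rw [← hhub, h, hZ6']
      · intro h
        apply hred κ.1 κ'.1 hne hhub
        rw [f1, f2, h]
    · -- q is the fin end of κ'
      have h1' : Joins hub fin κ q p := Or.inl ⟨a2, a1⟩
      rw [b1] at h1'
      exact fin_end hcomp hsp (Z ∪ Z') hcard hF (Finset.mem_union_right _ hZ3')
        (Finset.mem_union_right _ hZ4') hZ5' hZ6' (Finset.mem_union_left _ hZ3) hne h1'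

/-- a two step path that returns to the same vertex -/
theorem two_step (hcomp : ∀ σ, (hub σ).1 ≠ fin σ) (hsp : Sparse hub fin)
    {κ κ' : Sp × Bool} {p q r : V × Bool} (h1 : Joins hub fin κ p q)
    (h2 : Joins hub fin κ' q r) (hne : κ.1 ≠ κ'.1) (hpr : p.1 = r.1)
    (w : wt hub fin κ = 0) : wt hub fin κ' = 2 := by
  classical
  obtain ⟨ζ, Z, hZ1, hZ2, hZ3, hZ4, hZ5, hZ6, hZ7⟩ := exists_Z hcomp (raised_of_wt_zero w)
  have hpair : Full hub fin {κ.1, κ'.1} := by
    intro x hx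
    rw [Finset.mem_insert, Finset.mem_singleton] at hx
    rcases hx with rfl | rfl
    · have : ∀ v, Inc hub fin κ.1 v → Inc hub fin κ'.1 v := by
        intro v hv
        have hv' : v = p.1 ∨ v = q.1 := by
          rcases h1 with ⟨c1, c2⟩ | ⟨c1, c2⟩ <;> rcases hv with hv | hv <;>
            rw [← hv, c1, c2] <;> simp
        rcases hv' with rfl | rfl
        · rw [hpr]; exact h2.inc_right
        · exact h2.inc_left
      exact ⟨⟨κ'.1, by simp, hne.symm, this _ (Or.inl rfl)⟩,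
        ⟨κ'.1, by simp, hne.symm, this _ (Or.inr rfl)⟩⟩
    · have : ∀ v, Inc hub fin κ'.1 v → Inc hub fin κ.1 v := by
        intro v hv
        have hv' : v = q.1 ∨ v = r.1 := by
          rcases h2 with ⟨c1, c2⟩ | ⟨c1, c2⟩ <;> rcases hv with hv | hv <;>
            rw [← hv, c1, c2] <;> simp
        rcases hv' with rfl | rfl
        · exact h1.inc_right
        · rw [← hpr]; exact h1.inc_left
      exact ⟨⟨κ.1, by simp, hne, this _ (Or.inl rfl)⟩,
        ⟨κ.1, by simp, hne, this _ (Or.inr rfl)⟩⟩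
  have hF := hpair.union hZ2
  have hcard : (({κ.1, κ'.1} : Finset Sp) ∪ Z).card ≤ 8 := by
    refine (Finset.card_union_le _ _).trans ?_
    have := Finset.card_le_two (a := κ.1) (b := κ'.1)
    omega
  have m1 : κ.1 ∈ ({κ.1, κ'.1} : Finset Sp) ∪ Z := by simp
  have m2 : κ'.1 ∈ ({κ.1, κ'.1} : Finset Sp) ∪ Z := by simp
  have m3 : ζ ∈ ({κ.1, κ'.1} : Finset Sp) ∪ Z := Finset.mem_union_right _ hZ4
  rcases h1 with ⟨a1, a2⟩ | ⟨a1, a2⟩
  · exfalso
    rw [a2] at h2
    exact fin_end hcomp hsp _ hcard hF m1 m3 hZ5 hZ6 m2 hne.symm h2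
  · -- p is the fin end of κ, so κ' has spoke ζ
    have hζ : κ'.1 = ζ := by
      by_contra h
      refine deg_lemma hcomp hsp _ hcard hF (fin κ.1) κ.1 ζ κ'.1 m1 m3 m2 hZ5.symm hne
        (fun h' => h h'.symm) (Or.inr rfl) (Or.inl (by rw [hZ6])) ?_
      have h3 := h2.inc_right
      rw [← hpr, a1] at h3
      exact h3
    rcases h2 with ⟨b1, b2⟩ | ⟨b1, b2⟩
    · exfalso
      apply hcomp κ.1
      rw [← a2, b1, hζ, hZ6]
    · apply wt_eq_two
      refine ⟨κ.1, by rw [← a2, b1], Or.inl ?_⟩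
      rw [hζ, hZ6]

/-- The ends of a spoke are the vertices of the two link vertices joined by a corner over it. -/
theorem Joins.cases_inc {κ : Sp × Bool} {p q : V × Bool} (h : Joins hub fin κ p q) {v : V}
    (hv : Inc hub fin κ.1 v) : v = p.1 ∨ v = q.1 := by
  rcases h with ⟨c1, c2⟩ | ⟨c1, c2⟩ <;> rcases hv with hv | hv <;>
    rw [← hv, c1, c2] <;> simp

theorem Joins.ne (hcomp : ∀ σ, (hub σ).1 ≠ fin σ) {κ : Sp × Bool} {p q : V × Bool}
    (h : Joins hub fin κ p q) : p.1 ≠ q.1 := by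
  rcases h with ⟨c1, c2⟩ | ⟨c1, c2⟩
  · rw [c1, c2]; exact hcomp _
  · rw [c1, c2]; exact (hcomp _).symm

/-- a three step path that returns to the same vertex -/
theorem three_step (hcomp : ∀ σ, (hub σ).1 ≠ fin σ) (hsp : Sparse hub fin)
    {κ₁ κ₂ κ₃ : Sp × Bool} {p q r s : V × Bool} (h1 : Joins hub fin κ₁ p q)
    (h2 : Joins hub fin κ₂ q r) (h3 : Joins hub fin κ₃ r s) (h12 : κ₁.1 ≠ κ₂.1)
    (h23 : κ₂.1 ≠ κ₃.1) (hps : p.1 = s.1)
    (w1 : wt hub fin κ₁ = 0) (w3 : wt hub fin κ₃ = 0) : False := by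
  classical
  have hqr := h2.ne hcomp
  have h13 : κ₁.1 ≠ κ₃.1 := by
    intro h
    have i1 : Inc hub fin κ₁.1 r.1 := by rw [h]; exact h3.inc_left
    rcases h1.cases_inc i1 with h' | h'
    · exact (h3.ne hcomp) (h'.trans hps)
    · exact hqr h'.symm
  have htri : Full hub fin {κ₁.1, κ₂.1, κ₃.1} := by
    intro x hx
    rw [Finset.mem_insert, Finset.mem_insert, Finset.mem_singleton] at hx
    rcases hx with rfl | rfl | rfl
    · have : ∀ v, Inc hub fin κ₁.1 v → ∃ σ' ∈ ({κ₁.1, κ₂.1, κ₃.1} : Finset Sp), σ' ≠ κ₁.1 ∧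
          Inc hub fin σ' v := by
        intro v hv
        rcases h1.cases_inc hv with rfl | rfl
        · exact ⟨κ₃.1, by simp, h13.symm, by rw [hps]; exact h3.inc_right⟩
        · exact ⟨κ₂.1, by simp, h12.symm, h2.inc_left⟩
      exact ⟨this _ (Or.inl rfl), this _ (Or.inr rfl)⟩
    · have : ∀ v, Inc hub fin κ₂.1 v → ∃ σ' ∈ ({κ₁.1, κ₂.1, κ₃.1} : Finset Sp), σ' ≠ κ₂.1 ∧
          Inc hub fin σ' v := by
        intro v hv
        rcases h2.cases_inc hv with rfl | rfl
        · exact ⟨κ₁.1, by simp, h12, h1.inc_right⟩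
        · exact ⟨κ₃.1, by simp, h23.symm, h3.inc_left⟩
      exact ⟨this _ (Or.inl rfl), this _ (Or.inr rfl)⟩
    · have : ∀ v, Inc hub fin κ₃.1 v → ∃ σ' ∈ ({κ₁.1, κ₂.1, κ₃.1} : Finset Sp), σ' ≠ κ₃.1 ∧
          Inc hub fin σ' v := by
        intro v hv
        rcases h3.cases_inc hv with rfl | rfl
        · exact ⟨κ₂.1, by simp, h23, h2.inc_right⟩
        · exact ⟨κ₁.1, by simp, h13, by rw [← hps]; exact h1.inc_left⟩
      exact ⟨this _ (Or.inl rfl), this _ (Or.inr rfl)⟩
  have hc3 : ({κ₁.1, κ₂.1, κ₃.1} : Finset Sp).card ≤ 3 := Finset.card_le_three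
  obtain ⟨ζ, Z, hZ1, hZ2, hZ3, hZ4, hZ5, hZ6, hZ7⟩ := exists_Z hcomp (raised_of_wt_zero w1)
  obtain ⟨ζ', Z', hZ1', hZ2', hZ3', hZ4', hZ5', hZ6', hZ7'⟩ :=
    exists_Z hcomp (raised_of_wt_zero w3)
  have hF := htri.union hZ2
  have hF' := htri.union hZ2'
  have hcard : (({κ₁.1, κ₂.1, κ₃.1} : Finset Sp) ∪ Z).card ≤ 8 :=
    (Finset.card_union_le _ _).trans (by omega)
  have hcard' : (({κ₁.1, κ₂.1, κ₃.1} : Finset Sp) ∪ Z').card ≤ 8 :=
    (Finset.card_union_le _ _).trans (by omega)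
  -- κ₁
  rcases h1 with ⟨a1, a2⟩ | ⟨a1, a2⟩
  · rw [a2] at h2
    exact fin_end hcomp hsp _ hcard hF (by simp) (Finset.mem_union_right _ hZ4) hZ5 hZ6
      (by simp) h12.symm h2
  · have hζ : κ₃.1 = ζ := by
      by_contra h
      refine deg_lemma hcomp hsp _ hcard hF (fin κ₁.1) κ₁.1 ζ κ₃.1 (by simp)
        (Finset.mem_union_right _ hZ4) (by simp) hZ5.symm h13
        (fun h' => h h'.symm) (Or.inr rfl) (Or.inl (by rw [hZ6])) ?_
      have h4 := h3.inc_right
      rw [← hps, a1] at h4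
      exact h4
    -- κ₃
    rcases h3 with ⟨b1, b2⟩ | ⟨b1, b2⟩
    · -- the fin end of κ₃ is at s
      apply hcomp κ₃.1
      have e1 : s.1 = fin κ₃.1 := by rw [b2]
      have e2 : p.1 = fin κ₁.1 := by rw [a1]
      rw [← e1, ← hps, e2]
      rw [hζ, hZ6]
    · have h2' := h2.symm
      rw [b1] at h2'
      exact fin_end hcomp hsp _ hcard' hF' (by simp) (Finset.mem_union_right _ hZ4') hZ5' hZ6'
        (by simp) h23 h2'

/-- Lemma R: a path from `(v, θ)` to `(v, !θ)` whose consecutive spokes are different has weight at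
least two. -/
theorem lemmaR (hcomp : ∀ σ, (hub σ).1 ≠ fin σ)
    (hred : ∀ σ σ', σ ≠ σ' → hub σ = hub σ' → fin σ ≠ fin σ') (hsp : Sparse hub fin)
    (l : ℕ) (hl : 0 < l) (κ : ℕ → Sp × Bool) (p : ℕ → V × Bool)
    (hj : ∀ j < l, Joins hub fin (κ j) (p j) (p (j + 1)))
    (hd : ∀ j, j + 1 < l → (κ j).1 ≠ (κ (j + 1)).1) (hend : (p 0).1 = (p l).1) :
    2 ≤ ∑ j ∈ Finset.range l, wt hub fin (κ j) := by
  have hpair : ∀ j, j + 1 < l → 1 ≤ wt hub fin (κ j) + wt hub fin (κ (j + 1)) := fun j hjl =>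
    pair_ge hcomp hred hsp (hj j (by omega)) (hj (j + 1) hjl) (hd j hjl)
  rcases Nat.lt_or_ge l 4 with h4 | h4
  · obtain rfl | rfl | rfl : l = 1 ∨ l = 2 ∨ l = 3 := by omega
    · exact absurd hend ((hj 0 (by omega)).ne hcomp)
    · rw [Finset.sum_range_succ, Finset.sum_range_one]
      by_contra hlt
      have h0 := hj 0 (by omega)
      have h1 := hj 1 (by omega)
      have hne := hd 0 (by omega)
      by_cases hw : wt hub fin (κ 0) = 0
      · have := two_step hcomp hsp h0 h1 hne hend hw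
        omega
      · have hw1 : wt hub fin (κ 1) = 0 := by omega
        have := two_step hcomp hsp h1.symm h0.symm hne.symm hend.symm hw1
        omega
    · rw [Finset.sum_range_succ, Finset.sum_range_succ, Finset.sum_range_one]
      by_contra hlt
      have p0 := hpair 0 (by omega)
      have p1 := hpair 1 (by omega)
      simp only [zero_add] at p0
      have e : (1 : ℕ) + 1 = 2 := rfl
      rw [e] at p1
      have w0 : wt hub fin (κ 0) = 0 := by omega
      have w2 : wt hub fin (κ 2) = 0 := by omega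
      exact three_step hcomp hsp (hj 0 (by omega)) (hj 1 (by omega)) (hj 2 (by omega))
        (hd 0 (by omega)) (hd 1 (by omega)) hend w0 w2
  · have p0 := hpair 0 (by omega)
    have p2 := hpair 2 (by omega)
    have hsub : Finset.range 4 ⊆ Finset.range l := Finset.range_subset_range.mpr h4
    refine le_trans ?_ (Finset.sum_le_sum_of_subset hsub)
    rw [Finset.sum_range_succ, Finset.sum_range_succ, Finset.sum_range_succ,
      Finset.sum_range_one]
    simp only [zero_add] at p0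
    have e : (2 : ℕ) + 1 = 3 := rfl
    rw [e] at p2
    omega

theorem sum_shift_one (m : ℕ) (f : ℕ → ℕ) (hf : ∀ j, f (j + m) = f j) :
    ∑ j ∈ Finset.range m, f (j + 1) = ∑ j ∈ Finset.range m, f j := by
  have h1 := Finset.sum_range_succ f m
  have h2 := Finset.sum_range_succ' f m
  have h3 := hf 0
  rw [zero_add] at h3
  omega

theorem sum_shift (m : ℕ) (f : ℕ → ℕ) (hf : ∀ j, f (j + m) = f j) (a : ℕ) :
    ∑ j ∈ Finset.range m, f (j + a) = ∑ j ∈ Finset.range m, f j := by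
  induction a with
  | zero => rfl
  | succ a ih =>
    rw [← ih]
    have := sum_shift_one m (fun j => f (j + a)) (fun j => by
      show f (j + m + a) = f (j + a)
      rw [show j + m + a = (j + a) + m by ring, hf])
    rw [← this]
    refine Finset.sum_congr rfl (fun j _ => ?_)
    show f (j + (a + 1)) = f (j + 1 + a)
    rw [show j + (a + 1) = j + 1 + a by ring]

/-- Junction of two corners where the first has its fin end and the second its hub -/
theorem raised_triangle {α β γ : Sp × Bool} {p q r : V × Bool}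
    (h1 : p = hub α.1) (h2 : q = (fin α.1, α.2)) (h3 : q = hub β.1) (h4 : r = (fin β.1, β.2))
    (h5 : Joins hub fin γ r p) (hne : γ.1 ≠ α.1) : wt hub fin α = 2 := by
  apply wt_eq_two
  refine ⟨β.1, by rw [← h3, h2], ?_⟩
  rcases h5 with ⟨c1, c2⟩ | ⟨c1, c2⟩
  · -- r = hub γ, p = fin γ
    right; right
    exact ⟨γ.1, by rw [← c1, h4], by rw [← h1, c2]⟩
  · right; left
    refine ⟨γ.1, hne, by rw [← c2, h1], ?_⟩
    have e1 : r.1 = fin γ.1 := by rw [c1]
    have e2 : r.1 = fin β.1 := by rw [h4]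
    rw [← e1, e2]

/-- Lemma C: a closed path whose (cyclically) consecutive spokes are different has weight at least
four. -/
theorem lemmaC (hcomp : ∀ σ, (hub σ).1 ≠ fin σ)
    (hred : ∀ σ σ', σ ≠ σ' → hub σ = hub σ' → fin σ ≠ fin σ') (hsp : Sparse hub fin)
    (m : ℕ) (hm : 2 ≤ m) (κ : ℕ → Sp × Bool) (p : ℕ → V × Bool)
    (hκ : ∀ j, κ (j + m) = κ j) (hp : ∀ j, p (j + m) = p j)
    (hj : ∀ j, Joins hub fin (κ j) (p j) (p (j + 1)))
    (hd : ∀ j, (κ j).1 ≠ (κ (j + 1)).1) :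
    4 ≤ ∑ j ∈ Finset.range m, wt hub fin (κ j) := by
  classical
  by_contra hlt
  have hpair : ∀ j, 1 ≤ wt hub fin (κ j) + wt hub fin (κ (j + 1)) := fun j =>
    pair_ge hcomp hred hsp (hj j) (hj (j + 1)) (hd j)
  have hm6 : m ≤ 6 := by
    have h1 : ∑ j ∈ Finset.range m, (wt hub fin (κ j) + wt hub fin (κ (j + 1))) =
        2 * ∑ j ∈ Finset.range m, wt hub fin (κ j) := by
      rw [Finset.sum_add_distrib, sum_shift_one m (fun j => wt hub fin (κ j))
        (fun j => by show wt hub fin (κ (j + m)) = wt hub fin (κ j); rw [hκ j]), two_mul]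
    have h2 : m ≤ ∑ j ∈ Finset.range m, (wt hub fin (κ j) + wt hub fin (κ (j + 1))) := by
      have := Finset.card_nsmul_le_sum (Finset.range m)
        (fun j => wt hub fin (κ j) + wt hub fin (κ (j + 1))) 1 (fun j _ => hpair j)
      rw [Finset.card_range, smul_eq_mul, mul_one] at this
      exact this
    omega
  -- the set of spokes of the path
  set S₀ : Finset Sp := (Finset.range m).image (fun j => (κ j).1) with hS₀
  have hmem : ∀ j, (κ j).1 ∈ S₀ := by
    intro j
    have h1 : ∀ k, κ (j % m + k * m) = κ (j % m) := by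
      intro k
      induction k with
      | zero => rw [zero_mul, add_zero]
      | succ k ih => rw [← ih, ← hκ (j % m + k * m)]; congr 1; ring
    have h2 := h1 (j / m)
    rw [Nat.mod_add_div' j m] at h2
    rw [hS₀, Finset.mem_image]
    exact ⟨j % m, Finset.mem_range.mpr (Nat.mod_lt _ (by omega)), by rw [h2]⟩
  have hS₀c : S₀.card ≤ 6 := by
    refine Finset.card_image_le.trans ?_
    rw [Finset.card_range]
    exact hm6
  have hfull : Full hub fin S₀ := by
    intro σ hσ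
    rw [hS₀, Finset.mem_image] at hσ
    obtain ⟨j, _, rfl⟩ := hσ
    have key : ∀ v, Inc hub fin (κ j).1 v → ∃ σ' ∈ S₀, σ' ≠ (κ j).1 ∧ Inc hub fin σ' v := by
      intro v hv
      rcases (hj j).cases_inc hv with rfl | rfl
      · -- previous corner
        refine ⟨(κ (j + m - 1)).1, hmem _, ?_, ?_⟩
        · have := hd (j + m - 1)
          rw [show j + m - 1 + 1 = j + m by omega, hκ] at this
          exact this
        · have := (hj (j + m - 1)).inc_right
          rw [show j + m - 1 + 1 = j + m by omega, hp] at this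
          exact this
      · exact ⟨(κ (j + 1)).1, hmem _, (hd j).symm, (hj (j + 1)).inc_left⟩
    exact ⟨key _ (Or.inl rfl), key _ (Or.inr rfl)⟩
  have hpos : ∀ j, 1 ≤ wt hub fin (κ j) := by
    intro j
    by_contra hw
    have hw0 : wt hub fin (κ j) = 0 := by omega
    obtain ⟨ζ, Z, hZ1, hZ2, hZ3, hZ4, hZ5, hZ6, hZ7⟩ := exists_Z hcomp (raised_of_wt_zero hw0)
    have hF := hfull.union hZ2
    have hcard : (S₀ ∪ Z).card ≤ 8 := by
      have h1 : S₀ ∪ Z = S₀ ∪ Z.erase (κ j).1 := by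
        ext x
        rw [Finset.mem_union, Finset.mem_union, Finset.mem_erase]
        constructor
        · rintro (h | h)
          · exact Or.inl h
          · by_cases hx : x = (κ j).1
            · left; rw [hx]; exact hmem j
            · exact Or.inr ⟨hx, h⟩
        · rintro (h | h)
          · exact Or.inl h
          · exact Or.inr h.2
      rw [h1]
      refine (Finset.card_union_le _ _).trans ?_
      rw [Finset.card_erase_of_mem hZ3]
      omega
    rcases hj j with ⟨a1, a2⟩ | ⟨a1, a2⟩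
    · have h2 := hj (j + 1)
      rw [a2] at h2
      exact fin_end hcomp hsp _ hcard hF (Finset.mem_union_left _ (hmem j))
        (Finset.mem_union_right _ hZ4) hZ5 hZ6 (Finset.mem_union_left _ (hmem _)) (hd j).symm h2
    · have h2 := (hj (j + m - 1)).symm
      have h3 := hd (j + m - 1)
      rw [show j + m - 1 + 1 = j + m by omega, hp, a1] at h2
      rw [show j + m - 1 + 1 = j + m by omega, hκ] at h3
      exact fin_end hcomp hsp _ hcard hF (Finset.mem_union_left _ (hmem j))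
        (Finset.mem_union_right _ hZ4) hZ5 hZ6 (Finset.mem_union_left _ (hmem _)) h3 h2
  have hm3 : m ≤ 3 := by
    have := Finset.card_nsmul_le_sum (Finset.range m)
      (fun j => wt hub fin (κ j)) 1 (fun j _ => hpos j)
    rw [Finset.card_range, smul_eq_mul, mul_one] at this
    omega
  have j0 := hj 0
  have j1 := hj 1
  have j2 := hj 2
  have d0 := hd 0
  have d1 := hd 1
  have d2 := hd 2
  have w0 := hpos 0
  have w1 := hpos 1
  have w2 := hpos 2
  simp only [zero_add, Nat.reduceAdd] at j0 j1 j2 d0 d1 d2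
  obtain rfl | rfl : m = 2 ∨ m = 3 := by omega
  · have hp2 : p 2 = p 0 := hp 0
    have hk2 : κ 2 = κ 0 := hκ 0
    rw [hp2] at j1
    rw [Finset.sum_range_succ, Finset.sum_range_one] at hlt
    rcases j0 with ⟨a1, a2⟩ | ⟨a1, a2⟩ <;> rcases j1 with ⟨b1, b2⟩ | ⟨b1, b2⟩
    · -- p1 fin of κ0, hub of κ1; p0 hub of κ0, fin of κ1: both raised
      have e1 : wt hub fin (κ 0) = 2 :=
        wt_eq_two ⟨(κ 1).1, by rw [← b1, a2], Or.inl (by rw [← a1, b2])⟩
      have e2 : wt hub fin (κ 1) = 2 :=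
        wt_eq_two ⟨(κ 0).1, by rw [← a1, b2], Or.inl (by rw [← b1, a2])⟩
      omega
    · have h1 : hub (κ 0).1 = hub (κ 1).1 := by rw [← a1, b2]
      apply hred _ _ d0 h1
      have := a2.symm.trans b1
      exact congrArg Prod.fst this
    · have h1 : hub (κ 0).1 = hub (κ 1).1 := by rw [← a2, b1]
      apply hred _ _ d0 h1
      have := a1.symm.trans b2
      exact congrArg Prod.fst this
    · have e1 : wt hub fin (κ 0) = 2 :=
        wt_eq_two ⟨(κ 1).1, by rw [← b2, a1], Or.inl (by rw [← a2, b1])⟩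
      have e2 : wt hub fin (κ 1) = 2 :=
        wt_eq_two ⟨(κ 0).1, by rw [← a2, b1], Or.inl (by rw [← b2, a1])⟩
      omega
  · have hp3 : p 3 = p 0 := hp 0
    have hk3 : κ 3 = κ 0 := hκ 0
    rw [hp3] at j2
    rw [hk3] at d2
    rw [Finset.sum_range_succ, Finset.sum_range_succ, Finset.sum_range_one] at hlt
    have e : wt hub fin (κ 0) = 2 ∨ wt hub fin (κ 1) = 2 ∨ wt hub fin (κ 2) = 2 := by
      have J0 := j0
      have J1 := j1
      have J2 := j2
      rcases j0 with ⟨a1, a2⟩ | ⟨a1, a2⟩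
      · rcases j1 with ⟨b1, b2⟩ | ⟨b1, b2⟩
        · -- hub κ0 = p0, fin κ0 = p1 = hub κ1, fin κ1 = p2
          exact Or.inl (raised_triangle a1 a2 b1 b2 J2 d2)
        · rcases j2 with ⟨c1, c2⟩ | ⟨c1, c2⟩
          · -- p2 = hub κ1 = hub κ2, p0 = fin κ2 = hub κ0, p1 = fin κ0
            exact Or.inr (Or.inr (raised_triangle c1 c2 a1 a2 J1 d1))
          · -- p2 = hub κ1 = fin κ2, p0 = hub κ2 : α = κ2 with hub p0, fin p2 = hub κ1, fin κ1 = p1
            exact Or.inr (Or.inr (raised_triangle c2 c1 b2 b1 J0.symm d2.symm))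
      · rcases j1 with ⟨b1, b2⟩ | ⟨b1, b2⟩
        · rcases j2 with ⟨c1, c2⟩ | ⟨c1, c2⟩
          · -- p1 = hub κ0 = hub κ1, p2 = fin κ1 = hub κ2, p0 = fin κ2
            exact Or.inr (Or.inl (raised_triangle b1 b2 c1 c2 J0 d0))
          · -- p0 = hub κ2 = fin κ0, p1 = hub κ0; p2 = fin κ2: α = κ0
            exact Or.inl (raised_triangle a2 a1 c2 c1 J1.symm d0.symm)
        · -- p2 = hub κ1, p1 = fin κ1 = hub κ0, p0 = fin κ0: α = κ1
          exact Or.inr (Or.inl (raised_triangle b2 b1 a2 a1 J2.symm d1.symm))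
    omega

variable (hub fin) in
/-- a closed path in the link without backtracking has weight at least 4 -/
theorem four_le_weight (hcomp : ∀ σ, (hub σ).1 ≠ fin σ)
    (hred : ∀ σ σ', σ ≠ σ' → hub σ = hub σ' → fin σ ≠ fin σ') (hsp : Sparse hub fin)
    (m : ℕ) (hm : 0 < m) (κ : ℕ → Sp × Bool) (p : ℕ → V × Bool)
    (hκ : ∀ j, κ (j + m) = κ j) (hp : ∀ j, p (j + m) = p j)
    (hj : ∀ j, Joins hub fin (κ j) (p j) (p (j + 1)))
    (hne : ∀ j, κ (j + 1) ≠ κ j) :
    4 ≤ ∑ j ∈ Finset.range m, wt hub fin (κ j) := by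
  have hm2 : 2 ≤ m := by
    by_contra h
    have h1 : m = 1 := by omega
    subst h1
    exact hne 0 (hκ 0)
  by_cases hturn : ∃ j, (κ j).1 = (κ (j + 1)).1
  · obtain ⟨j₀, hj₀⟩ := hturn
    -- shift
    set κ' : ℕ → Sp × Bool := fun i => κ (i + (j₀ + 2)) with hκ'
    set p' : ℕ → V × Bool := fun i => p (i + (j₀ + 2)) with hp'
    have hsum : ∑ j ∈ Finset.range m, wt hub fin (κ' j) =
        ∑ j ∈ Finset.range m, wt hub fin (κ j) :=
      sum_shift m (fun j => wt hub fin (κ j))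
        (fun j => by show wt hub fin (κ (j + m)) = wt hub fin (κ j); rw [hκ j]) (j₀ + 2)
    rw [← hsum]
    obtain ⟨n, rfl⟩ : ∃ n, m = n + 2 := ⟨m - 2, by omega⟩
    have e1 : κ' n = κ j₀ := by
      show κ (n + (j₀ + 2)) = κ j₀
      rw [show n + (j₀ + 2) = j₀ + (n + 2) by ring, hκ]
    have e2 : κ' (n + 1) = κ (j₀ + 1) := by
      show κ (n + 1 + (j₀ + 2)) = κ (j₀ + 1)
      rw [show n + 1 + (j₀ + 2) = (j₀ + 1) + (n + 2) by ring, hκ]
    have e3 : p' n = p j₀ := by
      show p (n + (j₀ + 2)) = p j₀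
      rw [show n + (j₀ + 2) = j₀ + (n + 2) by ring, hp]
    have e4 : p' 0 = p (j₀ + 2) := by
      show p (0 + (j₀ + 2)) = p (j₀ + 2)
      rw [zero_add]
    rw [Finset.sum_range_succ, Finset.sum_range_succ, e1, e2, add_assoc,
      wt_add' hcomp hred hsp _ _ hj₀ (hne j₀).symm]
    -- the turn is at the hub
    have J1 := hj j₀
    have J2 := hj (j₀ + 1)
    have hturn' : (p' 0).1 = (p' n).1 ∧ (p' 0) ≠ (p' n) := by
      rw [e3, e4]
      have hb : (κ (j₀ + 1)).2 ≠ (κ j₀).2 := by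
        intro h
        exact hne j₀ (Prod.ext hj₀.symm h)
      rcases J1 with ⟨a1, a2⟩ | ⟨a1, a2⟩
      · exfalso
        rcases J2 with ⟨b1, b2⟩ | ⟨b1, b2⟩
        · apply hcomp (κ j₀).1
          rw [a2] at b1
          rw [hj₀, ← b1, hj₀]
        · rw [a2] at b1
          exact hb (congrArg Prod.snd b1).symm
      · rcases J2 with ⟨b1, b2⟩ | ⟨b1, b2⟩
        · have c : j₀ + 1 + 1 = j₀ + 2 := rfl
          rw [c] at b2
          constructor
          · rw [a1, b2, hj₀]
          · intro h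
            rw [a1, b2] at h
            have h' := congrArg Prod.snd h
            exact hb h'
        · exfalso
          apply hcomp (κ j₀).1
          rw [a2] at b1
          rw [b1, hj₀]
    have hn : 0 < n := by
      rcases Nat.eq_zero_or_pos n with h | h
      · exfalso
        rw [h] at hturn'
        exact hturn'.2 rfl
      · exact h
    have hj' : ∀ i, Joins hub fin (κ' i) (p' i) (p' (i + 1)) := by
      intro i
      have := hj (i + (j₀ + 2))
      rw [show i + (j₀ + 2) + 1 = i + 1 + (j₀ + 2) by ring] at this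
      exact this
    have hne' : ∀ i, κ' (i + 1) ≠ κ' i := by
      intro i
      have := hne (i + (j₀ + 2))
      rw [show i + (j₀ + 2) + 1 = i + 1 + (j₀ + 2) by ring] at this
      exact this
    by_cases h2 : ∃ i, i + 1 < n ∧ (κ' i).1 = (κ' (i + 1)).1
    · obtain ⟨i, hi, hi2⟩ := h2
      have h3 := wt_add' hcomp hred hsp _ _ hi2 (hne' i).symm
      have h4 : wt hub fin (κ' i) + wt hub fin (κ' (i + 1)) ≤
          ∑ x ∈ Finset.range n, wt hub fin (κ' x) := by
        have h5 : ({i, i + 1} : Finset ℕ) ⊆ Finset.range n := by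
          intro x hx
          rw [Finset.mem_insert, Finset.mem_singleton] at hx
          rw [Finset.mem_range]
          omega
        have h6 := Finset.sum_le_sum_of_subset (f := fun x => wt hub fin (κ' x)) h5
        rw [Finset.sum_pair (by omega)] at h6
        exact h6
      omega
    · push Not at h2
      have := lemmaR hcomp hred hsp n hn κ' p' (fun j _ => hj' j) h2 hturn'.1
      omega
  · push Not at hturn
    exact lemmaC hcomp hred hsp m hm2 κ p hκ hp hj hturn

end Pool.Agent.WT.Link
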