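import Pool.Agent.RandomLOT.Test
import Pool.Agent.RandomLOT.Defs
import Pool.Agent.WT.Link
import Pool.Agent.WT.LotDefs

/-!
# Asphericity of sparse labelled oriented graphs (module H)
-/

set_option autoImplicit false

open scoped BigOperators

namespace Pool.Agent.WT

open Pool.Agent.FoxAsph Pool.Agent

variable {V E : Type}

/-- the relator of an edge as a function on `Fin 4` -/
def quad (tail head label : E → V) (e : E) : Fin 4 → V × Bool :=
  ![(tail e, true), (label e, true), (head e, false), (label e, false)]

/-- hub of a spoke -/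
def hub (label : E → V) (σ : E × Bool) : V × Bool := (label σ.1, σ.2)

/-- the corner of the link of a relator as a pair of a spoke and a sign -/
def spk (e : E) : Fin 4 → (E × Bool) × Bool :=
  ![((e, true), false), ((e, false), false), ((e, false), true), ((e, true), true)]

theorem spk_inj {e f : E} {q r : Fin 4} (h : spk e q = spk f r) : e = f ∧ q = r := by
  fin_cases q <;> fin_cases r <;> simp_all [spk]

theorem joins_corner (tail head label : E → V) (e : E) (q : Fin 4) :
    Link.Joins (hub label) (RandomLOT.base tail head) (spk e q)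
      (inv (quad tail head label e q)) (quad tail head label e (q + 1)) := by
  fin_cases q
  · right; constructor <;> rfl
  · left; constructor <;> rfl
  · right; constructor <;> rfl
  · left; constructor <;> rfl

theorem joins_symm {Sp : Type} {hb : Sp → V × Bool} {fn : Sp → V} {κ : Sp × Bool}
    {p q : V × Bool} (h : Link.Joins hb fn κ p q) : Link.Joins hb fn κ q p := by
  rcases h with ⟨h1, h2⟩ | ⟨h1, h2⟩
  · exact Or.inr ⟨h2, h1⟩
  · exact Or.inl ⟨h2, h1⟩

/-- Reduced and sparse labelled oriented graphs are aspherical. -/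
theorem aspherical_of_sparse [Fintype E] [DecidableEq V] (tail head label : E → V)
    (hred : RandomLOT.Reduced tail head label)
    (hsp : Link.Sparse (hub label) (RandomLOT.base tail head)) :
    Aspherical (words (quad tail head label)) := by
  have hcomp : ∀ σ : E × Bool, (hub label σ).1 ≠ RandomLOT.base tail head σ := by
    rintro ⟨e, s⟩
    cases s
    · exact (hred.1 e).2
    · exact (hred.1 e).1
  have hred2 : ∀ σ σ' : E × Bool, σ ≠ σ' → hub label σ = hub label σ' →
      RandomLOT.base tail head σ ≠ RandomLOT.base tail head σ' := by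
    rintro ⟨e, s⟩ ⟨f, t⟩ hne hh hf
    have h1 : label e = label f := congrArg Prod.fst hh
    have h2 : s = t := congrArg Prod.snd hh
    subst h2
    have hef : e ≠ f := by
      rintro rfl
      exact hne rfl
    have h3 := hred.2 e f hef h1
    cases s
    · exact h3.2 hf
    · exact h3.1 hf
  refine weight_test (quad tail head label)
    (fun e q => Link.wt (hub label) (RandomLOT.base tail head) (spk e q)) 4 (by norm_num) ?_ ?_
  · intro e
    have h1 := Link.wt_add (hub label) (RandomLOT.base tail head) hcomp hred2 hsp (e, true)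
    have h2 := Link.wt_add (hub label) (RandomLOT.base tail head) hcomp hred2 hsp (e, false)
    rw [Fin.sum_univ_four]
    show Link.wt _ _ ((e, true), false) + Link.wt _ _ ((e, false), false) +
      Link.wt _ _ ((e, false), true) + Link.wt _ _ ((e, true), true) ≤ 4
    omega
  · intro m γ hγ
    have hj : ∀ j, Link.Joins (hub label) (RandomLOT.base tail head) (spk (γ j).1 (γ j).2.1)
        (src (quad tail head label) (γ j)) (src (quad tail head label) (γ (j + 1))) := by
      intro j
      rw [← hγ.conn j]
      unfold src tgt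
      have h := joins_corner tail head label (γ j).1 (γ j).2.1
      by_cases hd : (γ j).2.2
      · rw [if_pos hd, if_pos hd]; exact h
      · rw [if_neg hd, if_neg hd]; exact joins_symm h
    refine Link.four_le_weight (hub label) (RandomLOT.base tail head) hcomp hred2 hsp m hγ.pos
      (fun j => spk (γ j).1 (γ j).2.1) (fun j => src (quad tail head label) (γ j)) ?_ ?_ hj ?_
    · intro j
      show spk (γ (j + m)).1 (γ (j + m)).2.1 = _
      rw [hγ.per]
    · intro j
      show src _ (γ (j + m)) = _
      rw [hγ.per]
    · intro j heq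
      obtain ⟨h1, h2⟩ := spk_inj heq
      have h3 : (γ (j + 1)).2.2 = (γ j).2.2 := by
        by_contra h3
        apply hγ.red j
        refine Prod.ext h1 (Prod.ext h2 ?_)
        cases hb : (γ j).2.2 <;> cases hb' : (γ (j + 1)).2.2 <;> simp_all
      have h4 : γ (j + 1) = γ j := Prod.ext h1 (Prod.ext h2 h3)
      have h5 := hj j
      rw [h4] at h5
      rcases h5 with ⟨ha, hb⟩ | ⟨ha, hb⟩
      · exact hcomp _ (congrArg Prod.fst (ha.symm.trans hb))
      · exact hcomp _ (congrArg Prod.fst (hb.symm.trans ha))

theorem words_quad (tail head label : E → V) (e : E) :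
    words (quad tail head label) e =
      [(tail e, true), (label e, true), (head e, false), (label e, false)] := by
  simp [words, quad, List.ofFn_succ]

/-- `Sparse` passes to subsets of vertices and edges. -/
theorem sparse_sub {V' E' : Type} [DecidableEq V] [DecidableEq V'] [DecidableEq E]
    (tail head label : E → V)
    (tail' head' label' : E' → V') (f : E' → E) (g : V' → V) (hf : Function.Injective f)
    (hg : Function.Injective g) (ht : ∀ e, g (tail' e) = tail (f e))
    (hh : ∀ e, g (head' e) = head (f e)) (hl : ∀ e, g (label' e) = label (f e))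
    (hsp : Link.Sparse (hub label) (RandomLOT.base tail head)) :
    Link.Sparse (hub label') (RandomLOT.base tail' head') := by
  intro S hS
  let F : E' × Bool ↪ E × Bool := ⟨fun σ => (f σ.1, σ.2), by
    rintro ⟨a, b⟩ ⟨c, d⟩ h
    have h1 : f a = f c := congrArg Prod.fst h
    have h2 : b = d := congrArg Prod.snd h
    exact Prod.ext (hf h1) h2⟩
  have h1 := hsp (S.map F) (by rw [Finset.card_map]; exact hS)
  rw [Finset.card_map] at h1
  refine h1.trans ?_
  have h2 : Link.nbh (hub label) (RandomLOT.base tail head) (S.map F) =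
      (Link.nbh (hub label') (RandomLOT.base tail' head') S).map ⟨g, hg⟩ := by
    unfold Link.nbh
    rw [Finset.map_union]
    congr 1
    · ext v
      simp only [Finset.mem_image, Finset.mem_map, Function.Embedding.coeFn_mk]
      constructor
      · rintro ⟨_, ⟨σ, hσ, rfl⟩, rfl⟩
        exact ⟨_, ⟨σ, hσ, rfl⟩, hl σ.1⟩
      · rintro ⟨_, ⟨σ, hσ, rfl⟩, rfl⟩
        exact ⟨F σ, ⟨σ, hσ, rfl⟩, (hl σ.1).symm⟩
    · have h3 : ∀ σ : E' × Bool, RandomLOT.base tail head (F σ) = g (RandomLOT.base tail' head' σ) := by
        rintro ⟨e, b⟩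
        cases b
        · exact (hh e).symm
        · exact (ht e).symm
      ext v
      simp only [Finset.mem_image, Finset.mem_map, Function.Embedding.coeFn_mk]
      constructor
      · rintro ⟨_, ⟨σ, hσ, rfl⟩, rfl⟩
        exact ⟨_, ⟨σ, hσ, rfl⟩, (h3 σ).symm⟩
      · rintro ⟨_, ⟨σ, hσ, rfl⟩, rfl⟩
        exact ⟨F σ, ⟨σ, hσ, rfl⟩, h3 σ⟩
  rw [h2, Finset.card_map]

/-- Every subcomplex of a reduced sparse labelled oriented tree is aspherical. -/
theorem subAspherical_of_sparse [DecidableEq V] (Γ : LOT V) (hred : Γ.Reduced)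
    (hsp : Link.Sparse (hub Γ.label) (RandomLOT.base Γ.tail Γ.head)) : Γ.SubAspherical := by
  classical
  intro U S h
  have hinj : Function.Injective (fun e : S => (e : Γ.graph.edgeSet)) := Subtype.val_injective
  have h1 : Aspherical (words (quad (V := U) (E := S) (fun e => ⟨Γ.tail e, (h e e.2).1⟩)
      (fun e => ⟨Γ.head e, (h e e.2).2.1⟩) (fun e => ⟨Γ.label e, (h e e.2).2.2⟩))) := by
    refine aspherical_of_sparse _ _ _ ?_ ?_
    · refine ⟨fun e => ⟨fun h1 => (hred.1 e).1 (congrArg Subtype.val h1),
        fun h1 => (hred.1 e).2 (congrArg Subtype.val h1)⟩, ?_⟩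
      intro e f hef hlab
      have hne : (e : Γ.graph.edgeSet) ≠ f := fun h1 => hef (Subtype.ext h1)
      exact ⟨fun h1 => hred.2 e f hne (Or.inl (congrArg Subtype.val h1)) (congrArg Subtype.val hlab),
        fun h1 => hred.2 e f hne (Or.inr (congrArg Subtype.val h1)) (congrArg Subtype.val hlab)⟩
    · exact sparse_sub Γ.tail Γ.head Γ.label _ _ _ (fun e : S => (e : Γ.graph.edgeSet))
        (fun v : U => (v : V)) hinj Subtype.val_injective (fun _ => rfl) (fun _ => rfl)
        (fun _ => rfl) hsp
  have h2 : (fun e : S => ([(⟨Γ.tail e, (h e e.2).1⟩, true), (⟨Γ.label e, (h e e.2).2.2⟩, true),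
      (⟨Γ.head e, (h e e.2).2.1⟩, false), (⟨Γ.label e, (h e e.2).2.2⟩, false)] : Word U)) =
      words (quad (V := U) (E := S) (fun e => ⟨Γ.tail e, (h e e.2).1⟩)
      (fun e => ⟨Γ.head e, (h e e.2).2.1⟩) (fun e => ⟨Γ.label e, (h e e.2).2.2⟩)) := by
    funext e
    rw [words_quad]
  rw [h2]
  exact h1

end Pool.Agent.WT
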