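import Pool.Agent.WT.Merge
import Pool.Agent.WT.Glue
import Pool.Agent.WT.Final
import Pool.Agent.WT.RandomAll
import Pool.Agent.RandomLOT.CountAll

/-!
# Sparse labelled oriented graphs are aspherical, reduced or not
-/

set_option autoImplicit false

open scoped BigOperators

namespace Pool.Agent.WT

open Pool.Agent.FoxAsph Pool.Agent

variable {V E : Type}

theorem wmap_quad (ρ : V → V) (tail head label : E → V) (e : E) :
    wmap ρ (words (quad tail head label) e) =
      [(ρ (tail e), true), (ρ (label e), true), (ρ (head e), false), (ρ (label e), false)] := by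
  rw [words_quad]
  rfl

/-- the relation given by an edge -/
theorem edge_rel (tail head label : E → V) (e : E) :
    val (words (quad tail head label)) [(tail e, true)] *
      val (words (quad tail head label)) [(label e, true)] =
    val (words (quad tail head label)) [(label e, true)] *
      val (words (quad tail head label)) [(head e, true)] := by
  have h := val_rel (words (quad tail head label)) e
  rw [words_quad, val_cons, val_cons _ _ [_, _], val_cons _ _ [_], val_inv, val_inv] at h
  have h2 := congrArg (fun t => t * val (words (quad tail head label)) [(label e, true)] *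
    val (words (quad tail head label)) [(head e, true)]) h
  simp only [one_mul] at h2
  rw [← h2]
  group

/-- the Fox derivative of a relator with respect to a vertex that does not occur -/
theorem fox_quad_zero (tail head label : E → V) (e : E) (x : V) (h1 : tail e ≠ x)
    (h2 : label e ≠ x) (h3 : head e ≠ x) :
    fox (words (quad tail head label)) x (words (quad tail head label) e) = 0 := by
  rw [words_quad]
  simp only [fox, if_neg h1, if_neg h2, if_neg h3, mul_zero, add_zero, neg_zero]

/-- the Fox derivative of a relator with respect to a vertex that occurs once is a unit -/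
theorem fox_quad_tail (tail head label : E → V) (e : E) (x : V) (h1 : tail e = x)
    (h2 : label e ≠ x) (h3 : head e ≠ x)
    (t : MonoidAlgebra ℤ (Grp (words (quad tail head label))))
    (ht : t * fox (words (quad tail head label)) x (words (quad tail head label) e) = 0) :
    t = 0 := by
  rw [words_quad] at ht
  simp only [fox, if_pos h1, if_neg h2, if_neg h3, mul_zero, add_zero, neg_zero, mul_one] at ht
  exact ht

theorem fox_quad_head (tail head label : E → V) (e : E) (x : V) (h1 : tail e ≠ x)
    (h2 : label e ≠ x) (h3 : head e = x)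
    (t : MonoidAlgebra ℤ (Grp (words (quad tail head label))))
    (ht : t * fox (words (quad tail head label)) x (words (quad tail head label) e) = 0) :
    t = 0 := by
  rw [words_quad] at ht
  simp only [fox, if_neg h1, if_neg h2, if_pos h3, mul_zero, add_zero, neg_zero, zero_add,
    mul_neg, neg_eq_zero] at ht
  rw [← map_mul, ← map_mul] at ht
  have h4 := congrArg (fun u => u * MonoidAlgebra.of ℤ (Grp (words (quad tail head label)))
    (val (words (quad tail head label)) [(tail e, true)] *
      (val (words (quad tail head label)) [(label e, true)] *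
        val (words (quad tail head label)) [(head e, false)]))⁻¹) ht
  simp only [zero_mul] at h4
  rw [mul_assoc, ← map_mul, mul_inv_cancel, map_one, mul_one] at h4
  exact h4

open Glue in
/-- Sparse labelled oriented graphs are aspherical. -/
theorem aspherical_of_sparse_all [Fintype V] [Fintype E] [DecidableEq V] (tail head label : E → V)
    (hsp : RandomLOT.Sparse 36 tail head label) :
    Aspherical (words (quad tail head label)) := by
  classical
  obtain ⟨δ⟩ := exists_drop hsp (by norm_num)
  have hT : 8 ≤ 36 := by norm_num
  have hred := δ.reduced hsp hT (by norm_num)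
  have hsp' := δ.sparse hsp hT 8 (by norm_num)
  set E' := {e // e ∉ δ.D} with hE'
  set tail' : E' → V := fun e => δ.rho (tail e) with htail'
  set head' : E' → V := fun e => δ.rho (head e) with hhead'
  set label' : E' → V := fun e => δ.rho (label e) with hlabel'
  have hasph : Aspherical (words (quad tail' head' label')) :=
    aspherical_of_sparse tail' head' label' hred ((sparse_iff tail' head' label').mpr hsp')
  set rel := words (quad tail head label) with hrel
  -- the relator that a relator becomes
  let κ : E → Option E' := fun e =>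
    if he : e ∉ δ.D then some ⟨e, he⟩
    else if hk : δ.k e ∉ δ.D then some ⟨δ.k e, hk⟩ else none
  have hκ1 : ∀ e (he : e ∉ δ.D), κ e = some ⟨e, he⟩ := fun e he => dif_pos he
  have hκ2 : ∀ d (hd : d ∈ δ.D) (hk : δ.k d ≠ d), κ d = some ⟨δ.k d, (δ.isF hd hk).2⟩ := by
    intro d hd hk
    show (if he : d ∉ δ.D then some (⟨d, he⟩ : E')
      else if hk : δ.k d ∉ δ.D then some (⟨δ.k d, hk⟩ : E') else none) = _
    rw [dif_neg (not_not.mpr hd), dif_pos (δ.isF hd hk).2]
  have hκ3 : ∀ d ∈ δ.D, δ.k d = d → κ d = none := by
    intro d hd hk
    show (if he : d ∉ δ.D then some (⟨d, he⟩ : E')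
      else if hk : δ.k d ∉ δ.D then some (⟨δ.k d, hk⟩ : E') else none) = _
    rw [dif_neg (not_not.mpr hd), dif_neg (by rw [hk]; exact not_not.mpr hd)]
  -- identified generators are equal in the group
  have hxy : ∀ d ∈ δ.D, val rel [(δ.x d, true)] = val rel [(δ.y d, true)] := by
    intro d hd
    by_cases hk : δ.k d = d
    · have hL := δ.isL hd hk
      have h1 := edge_rel tail head label d
      rw [← hrel] at h1
      rw [δ.x_L hk]
      unfold IsL at hL
      unfold Drop.y
      cases hb : δ.b d with
      | true =>
        rw [hb] at hL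
        have h2 : label d = head d := hL
        show val rel [(label d, true)] = val rel [(tail d, true)]
        rw [← h2] at h1
        exact (mul_right_cancel h1).symm
      | false =>
        rw [hb] at hL
        have h2 : label d = tail d := hL
        show val rel [(label d, true)] = val rel [(head d, true)]
        rw [← h2] at h1
        exact mul_left_cancel h1
    · have hF := (δ.isF hd hk).1
      have h1 := edge_rel tail head label d
      have h2 := edge_rel tail head label (δ.k d)
      rw [← hrel] at h1 h2
      rw [δ.x_F hk]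
      unfold Drop.y
      rw [← hF.2.1] at h2
      have h3 := hF.2.2
      cases hb : δ.b d with
      | true =>
        rw [hb] at h3
        have h4 : head d = head (δ.k d) := h3
        show val rel [(tail (δ.k d), true)] = val rel [(tail d, true)]
        rw [← h4, ← h1] at h2
        exact mul_right_cancel h2
      | false =>
        rw [hb] at h3
        have h4 : tail d = tail (δ.k d) := h3
        show val rel [(head (δ.k d), true)] = val rel [(head d, true)]
        rw [← h4, h1] at h2
        exact (mul_left_cancel h2).symm
  have hs : ∀ v, val rel [(δ.rho v, true)] = val rel [(v, true)] := by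
    intro v
    by_cases h : ∃ d ∈ δ.D, δ.y d = v
    · obtain ⟨d, hd, rfl⟩ := h
      rw [δ.rho_y hsp hT hd]
      exact hxy d hd
    · push Not at h
      rw [δ.rho_of_ne h]
  intro z hz
  have hm := merge_sum rel (words (quad tail' head' label')) δ.rho id κ hs
    (by
      intro e j hj
      rw [wmap_quad, words_quad]
      by_cases he : e ∈ δ.D
      · by_cases hk : δ.k e = e
        · rw [hκ3 e he hk] at hj
          exact absurd hj (by simp)
        · rw [hκ2 e he hk] at hj
          have hj' := Option.some.inj hj
          subst hj'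
          have h1 := δ.rho_pair hsp hT he hk true
          have h2 := δ.rho_pair hsp hT he hk false
          have h3 := (δ.isF he hk).1.2.1
          have h1' : δ.rho (tail e) = δ.rho (tail (δ.k e)) := h1
          have h2' : δ.rho (head e) = δ.rho (head (δ.k e)) := h2
          rw [h1', h2', h3]
      · rw [hκ1 e he] at hj
        have hj' := Option.some.inj hj
        subst hj'
        rfl)
    (fun j => ⟨j.1, hκ1 j.1 j.2⟩)
    (by
      intro e he
      rw [wmap_quad]
      by_cases heD : e ∈ δ.D
      · by_cases hk : δ.k e = e
        · refine ⟨δ.x e, ?_⟩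
          have h1 : δ.rho (tail e) = δ.x e := δ.rho_L hsp hT heD hk true
          have h2 : δ.rho (head e) = δ.x e := δ.rho_L hsp hT heD hk false
          have h3 : δ.rho (label e) = δ.x e := by
            rw [← δ.x_L hk, δ.rho_x hsp hT heD]
          rw [h1, h2, h3]
        · rw [hκ2 e heD hk] at he
          exact absurd he (by simp)
      · rw [hκ1 e heD] at he
        exact absurd he (by simp))
    hasph z hz
  -- edges outside of all pairs
  have hplain : ∀ e, e ∉ δ.D → (∀ d ∈ δ.D, δ.k d ≠ e) → z e = 0 := by
    intro e he hk
    have h1 := hm ⟨e, he⟩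
    rw [Finset.sum_eq_single e] at h1
    · rw [if_pos (hκ1 e he)] at h1
      exact h1
    · intro f _ hf
      rw [if_neg]
      intro h2
      by_cases hfD : f ∈ δ.D
      · by_cases hkf : δ.k f = f
        · rw [hκ3 f hfD hkf] at h2
          exact absurd h2 (by simp)
        · rw [hκ2 f hfD hkf] at h2
          exact hk f hfD (congrArg Subtype.val (Option.some.inj h2))
      · rw [hκ1 f hfD] at h2
        exact hf (congrArg Subtype.val (Option.some.inj h2))
    · intro h
      exact absurd (Finset.mem_univ _) h
  -- dropped edges
  have hdrop : ∀ d ∈ δ.D, z d = 0 := by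
    intro d hd
    have h1 := hz (δ.y d)
    have hyl : label d ≠ δ.y d := by
      by_cases hk : δ.k d = d
      · rw [← δ.x_L hk]
        exact δ.x_ne_y hsp hT hd
      · exact (δ.F_ne hsp hT hd hk).2.1.symm
    have hyc : RandomLOT.base tail head (d, !(δ.b d)) ≠ δ.y d := by
      by_cases hk : δ.k d = d
      · rw [← δ.isL hd hk, ← δ.x_L hk]
        exact δ.x_ne_y hsp hT hd
      · exact (δ.F_ne hsp hT hd hk).2.2.1.symm
    rw [Finset.sum_eq_single d] at h1
    · have hyy : RandomLOT.base tail head (d, δ.b d) = δ.y d := rfl
      cases hb : δ.b d with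
      | true =>
        rw [hb] at hyc hyy
        exact fox_quad_tail tail head label d (δ.y d) hyy hyl hyc (z d) h1
      | false =>
        rw [hb] at hyc hyy
        exact fox_quad_head tail head label d (δ.y d) hyc hyl hyy (z d) h1
    · intro e _ hne
      by_cases heD : e ∈ δ.D
      · have h2 : ∀ v ∈ δ.W e, v ≠ δ.y d := fun v hv =>
          δ.ne_of_mem hsp hT heD hd hne hv (δ.y_mem d)
        rw [fox_quad_zero tail head label e (δ.y d) (h2 _ (δ.base_mem e true))
          (h2 _ (δ.label_mem e)) (h2 _ (δ.base_mem e false)), mul_zero]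
      · by_cases hk : ∀ d' ∈ δ.D, δ.k d' ≠ e
        · rw [hplain e heD hk, zero_mul]
        · push Not at hk
          obtain ⟨d', hd', hk'⟩ := hk
          have hk'' : δ.k d' ≠ d' := by
            intro h
            rw [h] at hk'
            exact heD (hk' ▸ hd')
          have h2 : ∀ v ∈ δ.W d', v ≠ δ.y d' → v ≠ δ.y d := by
            intro v hv hvy
            by_cases hdd : d' = d
            · rw [← hdd]; exact hvy
            · exact δ.ne_of_mem hsp hT hd' hd hdd hv (δ.y_mem d)
          have hne := δ.F_ne hsp hT hd' hk''
          have hF := (δ.isF hd' hk'').1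
          have hb : ∀ b, RandomLOT.base tail head (e, b) ≠ δ.y d := by
            intro b
            rw [← hk']
            by_cases hbb : b = δ.b d'
            · rw [hbb, ← δ.x_F hk'']
              exact h2 _ (δ.x_mem d') hne.1.symm
            · have hb' : b = !(δ.b d') := by
                cases b <;> cases hbd : δ.b d' <;> simp_all
              rw [hb', ← hF.2.2]
              exact h2 _ (δ.base_mem d' _) hne.2.2.1.symm
          have hl : label e ≠ δ.y d := by
            rw [← hk', ← hF.2.1]
            exact h2 _ (δ.label_mem d') hne.2.1.symm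
          rw [fox_quad_zero tail head label e (δ.y d) (hb true) hl (hb false), mul_zero]
    · intro h
      exact absurd (Finset.mem_univ _) h
  funext e
  by_cases he : e ∈ δ.D
  · exact hdrop e he
  · have h1 := hm ⟨e, he⟩
    rw [Finset.sum_eq_single e] at h1
    · rw [if_pos (hκ1 e he)] at h1
      exact h1
    · intro f _ hf
      by_cases hfD : f ∈ δ.D
      · rw [hdrop f hfD, ite_self]
      · rw [if_neg]
        intro h2
        rw [hκ1 f hfD] at h2
        exact hf (congrArg Subtype.val (Option.some.inj h2))
    · intro h
      exact absurd (Finset.mem_univ _) h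

/-- `Sparse` passes to subsets of vertices and edges. -/
theorem sparse_sub_all {V' E' : Type} [DecidableEq V] [DecidableEq V'] (T : ℕ)
    (tail head label : E → V)
    (tail' head' label' : E' → V') (f : E' → E) (g : V' → V) (hf : Function.Injective f)
    (hg : Function.Injective g) (ht : ∀ e, g (tail' e) = tail (f e))
    (hh : ∀ e, g (head' e) = head (f e)) (hl : ∀ e, g (label' e) = label (f e))
    (hsp : RandomLOT.Sparse T tail head label) :
    RandomLOT.Sparse T tail' head' label' := by
  intro S hS
  let F : E' × Bool ↪ E × Bool := ⟨fun σ => (f σ.1, σ.2), by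
    rintro ⟨a, b⟩ ⟨c, d⟩ h
    have h1 : f a = f c := congrArg Prod.fst h
    have h2 : b = d := congrArg Prod.snd h
    exact Prod.ext (hf h1) h2⟩
  have h1 := hsp (S.map F) (by rw [Finset.card_map]; exact hS)
  rw [Finset.card_map] at h1
  refine h1.trans ?_
  have h2 : (S.map F).image (RandomLOT.base tail head) ∪ (S.map F).image (fun h => label h.1) =
      (S.image (RandomLOT.base tail' head') ∪ S.image (fun h => label' h.1)).map ⟨g, hg⟩ := by
    rw [Finset.map_union]
    congr 1
    · have h3 : ∀ σ : E' × Bool, RandomLOT.base tail head (F σ) = g (RandomLOT.base tail' head' σ) := by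
        rintro ⟨e, b⟩
        cases b
        · exact (hh e).symm
        · exact (ht e).symm
      ext v
      simp only [Finset.mem_image, Finset.mem_map, Function.Embedding.coeFn_mk]
      constructor
      · rintro ⟨_, ⟨σ, hσ, rfl⟩, rfl⟩
        exact ⟨_, ⟨σ, hσ, rfl⟩, (h3 σ).symm⟩
      · rintro ⟨_, ⟨σ, hσ, rfl⟩, rfl⟩
        exact ⟨F σ, ⟨σ, hσ, rfl⟩, h3 σ⟩
    · ext v
      simp only [Finset.mem_image, Finset.mem_map, Function.Embedding.coeFn_mk]
      constructor
      · rintro ⟨_, ⟨σ, hσ, rfl⟩, rfl⟩
        exact ⟨_, ⟨σ, hσ, rfl⟩, hl σ.1⟩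
      · rintro ⟨_, ⟨σ, hσ, rfl⟩, rfl⟩
        exact ⟨F σ, ⟨σ, hσ, rfl⟩, (hl σ.1).symm⟩
  rw [h2, Finset.card_map]

/-- Every subcomplex of a sparse labelled oriented tree is aspherical. -/
theorem subAspherical_of_sparse_all [Fintype V] [DecidableEq V] (Γ : LOT V)
    (hsp : RandomLOT.Sparse 36 Γ.tail Γ.head Γ.label) : Γ.SubAspherical := by
  classical
  intro U S h
  have hinj : Function.Injective (fun e : S => (e : Γ.graph.edgeSet)) := Subtype.val_injective
  have h1 : Aspherical (words (quad (V := U) (E := S) (fun e => ⟨Γ.tail e, (h e e.2).1⟩)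
      (fun e => ⟨Γ.head e, (h e e.2).2.1⟩) (fun e => ⟨Γ.label e, (h e e.2).2.2⟩))) := by
    refine aspherical_of_sparse_all _ _ _ ?_
    exact sparse_sub_all 36 Γ.tail Γ.head Γ.label _ _ _ (fun e : S => (e : Γ.graph.edgeSet))
        (fun v : U => (v : V)) hinj Subtype.val_injective (fun _ => rfl) (fun _ => rfl)
        (fun _ => rfl) hsp
  have h2 : (fun e : S => ([(⟨Γ.tail e, (h e e.2).1⟩, true), (⟨Γ.label e, (h e e.2).2.2⟩, true),
      (⟨Γ.head e, (h e e.2).2.1⟩, false), (⟨Γ.label e, (h e e.2).2.2⟩, false)] : Word U)) =
      words (quad (V := U) (E := S) (fun e => ⟨Γ.tail e, (h e e.2).1⟩)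
      (fun e => ⟨Γ.head e, (h e e.2).2.1⟩) (fun e => ⟨Γ.label e, (h e e.2).2.2⟩)) := by
    funext e
    rw [words_quad]
  rw [h2]
  exact h1

/-- the bound for one oriented tree -/
theorem per_tree_all {V : Type} [Fintype V] (Δ : ℕ) (G : TreeOn V)
    (hG : ∀ v, (G.1.neighborSet v).ncard ≤ Δ) (o : Orient G.1) :
    (Fintype.card V - 1) * {label : G.1.edgeSet → V |
      ¬ (mkLOT G o label).SubAspherical}.ncard ≤
        RandomLOT.Cnt.Ctot 36 * Δ ^ 36 * Fintype.card V ^ (Fintype.card V - 1) := by
  classical
  have hE := card_edges G.1 G.2
  rw [Nat.card_eq_fintype_card] at hE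
  have h1 := RandomLOT.Cnt.card_nspA_le (src := o.1.1) (tgt := o.1.2) 36 Δ hE.symm
    (conn_tree G.1 G.2 o.1.1 o.1.2 o.2)
    (fun v => (deg_le G.1 o.1.1 o.1.2 o.2 v).trans (hG v))
  have h3 : {label : G.1.edgeSet → V | ¬ (mkLOT G o label).SubAspherical}.ncard ≤
      (RandomLOT.Cnt.nspA 36 o.1.1 o.1.2).card := by
    rw [← Set.ncard_coe_finset]
    refine Set.ncard_le_ncard ?_ (Set.toFinite _)
    intro l hl
    rw [Finset.mem_coe]
    unfold RandomLOT.Cnt.nspA
    rw [Finset.mem_filter]
    refine ⟨Finset.mem_univ _, ?_⟩
    intro hs
    exact hl (subAspherical_of_sparse_all (mkLOT G o l) hs)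
  have h4 : Fintype.card V - 1 = Fintype.card G.1.edgeSet := by omega
  rw [h4]
  exact (Nat.mul_le_mul_left _ h3).trans h1

end Pool.Agent.WT
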