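import Pool.Agent.FoxAsph.Kernel
import Pool.Agent.WT.Contract

/-!
# Asphericity after identification of generators

`π` identifies generators of a presentation that are equal in its group. The relators become those of
a second presentation, or words with trivial Fox derivatives. If the second presentation is
aspherical, every element of the kernel of the first Fox Jacobian has sum 0 over the relators that
become equal.
-/

set_option autoImplicit false

open scoped BigOperators

namespace Pool.Agent.WT

open Pool.Agent.FoxAsph

variable {X X' ι ι' : Type}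

/-- the word with the letters replaced by their images -/
def wmap (π : X → X') (w : Word X) : Word X' := w.map fun l => (π l.1, l.2)

theorem wmap_cons (π : X → X') (l : X × Bool) (w : Word X) :
    wmap π (l :: w) = (π l.1, l.2) :: wmap π w := rfl

/-- a homomorphism that maps generators to generators -/
theorem val_wmap (rel : ι → Word X) (rel' : ι' → Word X') (π : X → X')
    (φ : Grp rel →* Grp rel') (hφ : ∀ x, φ (val rel [(x, true)]) = val rel' [(π x, true)])
    (w : Word X) : φ (val rel w) = val rel' (wmap π w) := by
  induction w with
  | nil =>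
    rw [val_nil, map_one]
    exact (val_nil rel').symm
  | cons l w ih =>
    rw [val_cons, map_mul, wmap_cons, val_cons rel', ih]
    congr 1
    obtain ⟨x, b⟩ := l
    cases b with
    | true => exact hφ x
    | false =>
      show φ (val rel [(x, false)]) = val rel' [(π x, false)]
      rw [val_inv, val_inv, map_inv, hφ]

open Classical in
/-- Fox derivatives after identification of generators -/
theorem fox_wmap [Fintype X] (rel : ι → Word X) (rel' : ι' → Word X') (π : X → X')
    (φ : Grp rel →* Grp rel') (hφ : ∀ x, φ (val rel [(x, true)]) = val rel' [(π x, true)])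
    (x' : X') (w : Word X) :
    ∑ x : X, (if π x = x' then MonoidAlgebra.mapDomainRingHom ℤ φ (fox rel x w) else 0) =
      fox rel' x' (wmap π w) := by
  have hof : ∀ g : Grp rel, MonoidAlgebra.mapDomainRingHom ℤ φ (MonoidAlgebra.of ℤ (Grp rel) g) =
      MonoidAlgebra.of ℤ (Grp rel') (φ g) := by
    intro g
    simp [MonoidAlgebra.of_apply]
  induction w with
  | nil =>
    show ∑ x : X, (if π x = x' then MonoidAlgebra.mapDomainRingHom ℤ φ 0 else 0) = 0
    refine Finset.sum_eq_zero (fun x _ => ?_)
    rw [map_zero, ite_self]
  | cons l w ih =>
    obtain ⟨y, b⟩ := l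
    rw [wmap_cons]
    cases b with
    | true =>
      show ∑ x : X, (if π x = x' then MonoidAlgebra.mapDomainRingHom ℤ φ
        ((if y = x then 1 else 0) +
          MonoidAlgebra.of ℤ (Grp rel) (val rel [(y, true)]) * fox rel x w) else 0) =
        (if π y = x' then 1 else 0) +
          MonoidAlgebra.of ℤ (Grp rel') (val rel' [(π y, true)]) * fox rel' x' (wmap π w)
      rw [← ih, Finset.mul_sum]
      have h1 : ∀ x : X, (if π x = x' then MonoidAlgebra.mapDomainRingHom ℤ φ
        ((if y = x then 1 else 0) +
          MonoidAlgebra.of ℤ (Grp rel) (val rel [(y, true)]) * fox rel x w) else 0) =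
          (if y = x then (if π y = x' then 1 else 0) else 0) +
          MonoidAlgebra.of ℤ (Grp rel') (val rel' [(π y, true)]) *
            (if π x = x' then MonoidAlgebra.mapDomainRingHom ℤ φ (fox rel x w) else 0) := by
        intro x
        by_cases hx : π x = x'
        · rw [if_pos hx, if_pos hx, map_add, map_mul, hof, hφ]
          congr 1
          by_cases hy : y = x
          · rw [if_pos hy, if_pos hy, map_one, hy, if_pos hx]
          · rw [if_neg hy, if_neg hy, map_zero]
        · rw [if_neg hx, if_neg hx, mul_zero, add_zero]
          by_cases hy : y = x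
          · rw [if_pos hy, hy, if_neg hx]
          · rw [if_neg hy]
      rw [Finset.sum_congr rfl (fun x _ => h1 x), Finset.sum_add_distrib]
      congr 1
      rw [Finset.sum_ite_eq, if_pos (Finset.mem_univ _)]
    | false =>
      show ∑ x : X, (if π x = x' then MonoidAlgebra.mapDomainRingHom ℤ φ
        (-(if y = x then MonoidAlgebra.of ℤ (Grp rel) (val rel [(y, false)]) else 0) +
          MonoidAlgebra.of ℤ (Grp rel) (val rel [(y, false)]) * fox rel x w) else 0) =
        -(if π y = x' then MonoidAlgebra.of ℤ (Grp rel') (val rel' [(π y, false)]) else 0) +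
          MonoidAlgebra.of ℤ (Grp rel') (val rel' [(π y, false)]) * fox rel' x' (wmap π w)
      have hφ' : φ (val rel [(y, false)]) = val rel' [(π y, false)] := by
        rw [val_inv, val_inv, map_inv, hφ]
      rw [← ih, Finset.mul_sum]
      have h1 : ∀ x : X, (if π x = x' then MonoidAlgebra.mapDomainRingHom ℤ φ
        (-(if y = x then MonoidAlgebra.of ℤ (Grp rel) (val rel [(y, false)]) else 0) +
          MonoidAlgebra.of ℤ (Grp rel) (val rel [(y, false)]) * fox rel x w) else 0) =
          (if y = x then -(if π y = x' then
            MonoidAlgebra.of ℤ (Grp rel') (val rel' [(π y, false)]) else 0) else 0) +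
          MonoidAlgebra.of ℤ (Grp rel') (val rel' [(π y, false)]) *
            (if π x = x' then MonoidAlgebra.mapDomainRingHom ℤ φ (fox rel x w) else 0) := by
        intro x
        by_cases hx : π x = x'
        · rw [if_pos hx, if_pos hx, map_add, map_mul, hof, hφ', map_neg]
          congr 1
          by_cases hy : y = x
          · rw [if_pos hy, if_pos hy, hof, hφ', hy, if_pos hx]
          · rw [if_neg hy, if_neg hy, map_zero, neg_zero]
        · rw [if_neg hx, if_neg hx, mul_zero, add_zero]
          by_cases hy : y = x
          · rw [if_pos hy, hy, if_neg hx, neg_zero]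
          · rw [if_neg hy]
      rw [Finset.sum_congr rfl (fun x _ => h1 x), Finset.sum_add_distrib]
      congr 1
      rw [Finset.sum_ite_eq, if_pos (Finset.mem_univ _)]

open Classical in
/-- Kernel elements after identification of generators: `κ i` is the relator that `rel i` becomes,
or `none` if it becomes a word that is trivial and has trivial Fox derivatives. -/
theorem merge_sum [Fintype X] [Fintype ι] [Fintype ι'] (rel : ι → Word X) (rel' : ι' → Word X')
    (π : X → X') (s : X' → X) (κ : ι → Option ι')
    (hs : ∀ x, val rel [(s (π x), true)] = val rel [(x, true)])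
    (hsome : ∀ i j, κ i = some j → wmap π (rel i) = rel' j)
    (hsurj : ∀ j, ∃ i, κ i = some j)
    (hnone : ∀ i, κ i = none → ∃ a : X', wmap π (rel i) = [(a, true), (a, true), (a, false), (a, false)])
    (hasph : Aspherical rel')
    (z : ι → MonoidAlgebra ℤ (Grp rel)) (hz : ∀ x : X, ∑ i, z i * fox rel x (rel i) = 0) (j : ι') :
    ∑ i, (if κ i = some j then z i else 0) = 0 := by
  have hcyc : ∀ a : X', val rel' [(a, true), (a, true), (a, false), (a, false)] = 1 := by
    intro a
    rw [val_cons, val_cons rel' _ [_, _], val_cons rel' _ [_], val_inv]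
    group
  have hfoxa : ∀ a x' : X', fox rel' x' [(a, true), (a, true), (a, false), (a, false)] = 0 := by
    intro a x'
    have hinv : ∀ t : MonoidAlgebra ℤ (Grp rel'),
        MonoidAlgebra.of ℤ (Grp rel') (val rel' [(a, true)]) *
          (MonoidAlgebra.of ℤ (Grp rel') (val rel' [(a, false)]) * t) = t := by
      intro t
      rw [← mul_assoc, ← map_mul, val_inv, mul_inv_cancel, map_one, one_mul]
    simp only [fox]
    by_cases h : a = x'
    · simp only [if_pos h, mul_zero, add_zero, mul_add, mul_neg, hinv]
      have h2 : MonoidAlgebra.of ℤ (Grp rel') (val rel' [(a, true)]) *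
          MonoidAlgebra.of ℤ (Grp rel') (val rel' [(a, false)]) = 1 := by
        rw [← map_mul, val_inv, mul_inv_cancel, map_one]
      simp only [h2, mul_one]
      abel
    · simp only [if_neg h, mul_zero, add_zero, neg_zero]
  have hval : ∀ i, val rel' (wmap π (rel i)) = 1 := by
    intro i
    rcases hκ : κ i with _ | j
    · obtain ⟨a, ha⟩ := hnone i hκ
      rw [ha, hcyc]
    · rw [hsome i j hκ, val_rel]
  -- the homomorphism
  have hrel : ∀ r ∈ Set.range (fun i => FreeGroup.mk (rel i)),
      FreeGroup.lift (fun x => val rel' [(π x, true)]) r = 1 := by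
    rintro _ ⟨i, rfl⟩
    have key : ∀ w : Word X, FreeGroup.lift (fun x => val rel' [(π x, true)]) (FreeGroup.mk w) =
        val rel' (wmap π w) := by
      intro w
      induction w with
      | nil =>
        rw [← FreeGroup.one_eq_mk, map_one]
        exact (val_nil rel').symm
      | cons l w ih =>
        have h1 : FreeGroup.mk (l :: w) = FreeGroup.mk [l] * FreeGroup.mk w := by
          rw [FreeGroup.mul_mk]; rfl
        rw [h1, map_mul, ih, wmap_cons, val_cons]
        congr 1
        obtain ⟨x, b⟩ := l
        cases b with
        | true => simp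
        | false => simp [val_inv]
    rw [key, hval]
  set φ : Grp rel →* Grp rel' := PresentedGroup.toGroup hrel with hφdef
  have hφ : ∀ x, φ (val rel [(x, true)]) = val rel' [(π x, true)] := by
    intro x
    exact PresentedGroup.toGroup.of hrel
  -- the inverse on the left
  have hrel2 : ∀ r ∈ Set.range (fun j => FreeGroup.mk (rel' j)),
      FreeGroup.lift (fun x' => val rel [(s x', true)]) r = 1 := by
    rintro _ ⟨j, rfl⟩
    obtain ⟨i, hi⟩ := hsurj j
    have key : ∀ w : Word X, FreeGroup.lift (fun x' => val rel [(s x', true)])
        (FreeGroup.mk (wmap π w)) = val rel w := by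
      intro w
      induction w with
      | nil =>
        show FreeGroup.lift _ (FreeGroup.mk []) = _
        rw [← FreeGroup.one_eq_mk, map_one]
        exact (val_nil rel).symm
      | cons l w ih =>
        have h1 : FreeGroup.mk (wmap π (l :: w)) =
            FreeGroup.mk [(π l.1, l.2)] * FreeGroup.mk (wmap π w) := by
          rw [FreeGroup.mul_mk]; rfl
        rw [h1, map_mul, ih, val_cons rel]
        congr 1
        obtain ⟨x, b⟩ := l
        cases b with
        | true => simp [hs]
        | false => simp [hs, val_inv]
    show FreeGroup.lift _ (FreeGroup.mk (rel' j)) = 1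
    rw [← hsome i j hi, key, val_rel]
  set ψ : Grp rel' →* Grp rel := PresentedGroup.toGroup hrel2 with hψdef
  have hψ : ∀ x', ψ (val rel' [(x', true)]) = val rel [(s x', true)] := by
    intro x'
    exact PresentedGroup.toGroup.of hrel2
  have hψφ : ψ.comp φ = MonoidHom.id _ := by
    refine PresentedGroup.ext (fun x => ?_)
    show ψ (φ (val rel [(x, true)])) = val rel [(x, true)]
    rw [hφ, hψ, hs]
  have hinj : Function.Injective φ := by
    intro a b hab
    have h1 := DFunLike.congr_fun hψφ a
    have h2 := DFunLike.congr_fun hψφ b
    simp only [MonoidHom.comp_apply, MonoidHom.id_apply] at h1 h2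
    rw [← h1, ← h2, hab]
  have hinj2 : Function.Injective (MonoidAlgebra.mapDomainRingHom ℤ φ) := by
    intro a b hab
    exact MonoidAlgebra.mapDomain_injective hinj hab
  set F := MonoidAlgebra.mapDomainRingHom ℤ φ with hF
  have hker : ∀ x' : X', ∑ j, (∑ i, (if κ i = some j then F (z i) else 0)) *
      fox rel' x' (rel' j) = 0 := by
    intro x'
    have h1 : ∑ x : X, (if π x = x' then F (∑ i, z i * fox rel x (rel i)) else 0) = 0 := by
      refine Finset.sum_eq_zero (fun x _ => ?_)
      rw [hz x, map_zero, ite_self]
    have h2 : ∑ x : X, (if π x = x' then F (∑ i, z i * fox rel x (rel i)) else 0) =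
        ∑ i, F (z i) * fox rel' x' (wmap π (rel i)) := by
      have h3 : ∀ x : X, (if π x = x' then F (∑ i, z i * fox rel x (rel i)) else 0) =
          ∑ i, F (z i) * (if π x = x' then F (fox rel x (rel i)) else 0) := by
        intro x
        by_cases hx : π x = x'
        · rw [if_pos hx, map_sum]
          refine Finset.sum_congr rfl (fun i _ => ?_)
          rw [if_pos hx, map_mul]
        · rw [if_neg hx]
          symm
          refine Finset.sum_eq_zero (fun i _ => ?_)
          rw [if_neg hx, mul_zero]
      rw [Finset.sum_congr rfl (fun x _ => h3 x), Finset.sum_comm]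
      refine Finset.sum_congr rfl (fun i _ => ?_)
      rw [← Finset.mul_sum, ← fox_wmap rel rel' π φ hφ x' (rel i)]
    rw [h2] at h1
    refine Eq.trans ?_ h1
    have h4 : ∀ j, (∑ i, (if κ i = some j then F (z i) else 0)) * fox rel' x' (rel' j) =
        ∑ i, (if κ i = some j then F (z i) * fox rel' x' (wmap π (rel i)) else 0) := by
      intro j
      rw [Finset.sum_mul]
      refine Finset.sum_congr rfl (fun i _ => ?_)
      by_cases h : κ i = some j
      · rw [if_pos h, if_pos h, hsome i j h]
      · rw [if_neg h, if_neg h, zero_mul]
    rw [Finset.sum_congr rfl (fun j _ => h4 j), Finset.sum_comm]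
    refine Finset.sum_congr rfl (fun i _ => ?_)
    rcases hκ : κ i with _ | j
    · obtain ⟨a, ha⟩ := hnone i hκ
      rw [ha, hfoxa, mul_zero]
      refine Finset.sum_eq_zero (fun j _ => ?_)
      rw [if_neg (by simp)]
    · rw [Finset.sum_eq_single j]
      · rw [if_pos rfl]
      · intro j' _ hj'
        rw [if_neg]
        intro h
        exact hj' (Option.some.inj h).symm
      · intro h
        exact absurd (Finset.mem_univ _) h
  have h5 := congrFun (hasph _ hker) j
  apply hinj2
  rw [map_zero, map_sum]
  refine Eq.trans (Finset.sum_congr rfl (fun i _ => ?_)) h5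
  by_cases h : κ i = some j
  · rw [if_pos h, if_pos h]
  · rw [if_neg h, if_neg h, map_zero]

end Pool.Agent.WT
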