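import Pool.Agent.WT.Final
import Pool.Agent.WT.Contract

/-!
# Almost all reduced labelled oriented trees are aspherical

The version of the hand-in for reduced labelled oriented trees, with a smaller exponent.
-/

set_option autoImplicit false

namespace Pool.Agent.WT

/-- For all large `n`, among the reduced labelled oriented trees `Γ` with vertex set `Fin n`, the number
of those for which it is not true that `K(Γ, v)` is contractible for every vertex `v` and every
subcomplex of `K(Γ, v)` that does not contain the 2-cell of `v` is aspherical, is at most
`(log n) ^ 9 / n` times the number of all of them. -/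
theorem almost_all_reduced : ∀ᶠ n : ℕ in Filter.atTop,
    ({Γ : LOT (Fin n) | Γ.Reduced ∧
        ¬ ((∀ v, Γ.Contractible v) ∧ Γ.SubAspherical)}.ncard : ℝ) ≤
      (Real.log n) ^ 9 / n * {Γ : LOT (Fin n) | Γ.Reduced}.ncard := by
  refine rare (fun n Γ => ¬ ((∀ v, Γ.Contractible v) ∧ Γ.SubAspherical))
    (Pool.Agent.RandomLOT.Cnt.Ctot 8) 8 ?_
  intro n Δ G hG o
  have h := per_tree Δ G hG o
  rw [Fintype.card_fin] at h
  have hset : {label : G.1.edgeSet → Fin n | (mkLOT G o label).Reduced ∧
      ¬ ((∀ v, (mkLOT G o label).Contractible v) ∧ (mkLOT G o label).SubAspherical)} =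
      {label : G.1.edgeSet → Fin n | (mkLOT G o label).Reduced ∧
        ¬ (mkLOT G o label).SubAspherical} := by
    ext label
    refine and_congr_right (fun _ => not_congr ?_)
    exact and_iff_right (fun v => (mkLOT G o label).contractible v)
  rw [hset]
  exact h

end Pool.Agent.WT
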